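import Pool.Agent.Lib.MP_1a91b9_nuT.S2.Defs

/-!
# S2, lattice sums

`ind D z = 1` if `D z` is an algebraic integer, `0` otherwise.

Throughout `σ : Fin n → (F →ₐ[K] ℂ)` is bijective, `vec σ z = (σ_j z)_j`, the norm on
`Fin n → ℂ` is the maximum norm.
-/

set_option autoImplicit false

namespace Pool.Agent.Lib.MP_1a91b9_nuT.S2A

variable [CD]

open NumberField MeasureTheory Module

noncomputable section

universe u

variable {F : Type u} [Field F] [NumberField F] [Algebra K F] {n : ℕ}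

open Classical in
/-- The indicator function of the lattice `D⁻¹ 𝓞 F`. -/
def ind (D : ℕ) (z : F) : ℝ := if IsIntegral ℤ ((D : F) * z) then 1 else 0

theorem ind_nonneg (D : ℕ) (z : F) : 0 ≤ ind D z := by
  unfold ind; split_ifs <;> norm_num


theorem vec_add (σ : Fin n → (F →ₐ[K] ℂ)) (x y : F) : vec σ (x + y) = vec σ x + vec σ y := by
  funext j; simp [vec]


theorem vec_zero (σ : Fin n → (F →ₐ[K] ℂ)) : vec σ (0 : F) = 0 := by
  funext j; simp [vec]

end

end Pool.Agent.Lib.MP_1a91b9_nuT.S2A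

/-!
# Job LAT1
-/

set_option autoImplicit false

namespace Pool.Agent.Lib.MP_1a91b9_nuT.S2A

variable [CD]

open NumberField MeasureTheory Module

noncomputable section

universe u

variable {F : Type u} [Field F] [NumberField F] [Algebra K F] {n : ℕ}

/-- JOB LAT1. A nonzero algebraic integer of `K` has absolute value at least `1` in `ℂ`.
Proof: `x = algebraMap K ℂ y`; `‖x‖ ^ 2 = x * conj x` is the norm of `y` to `ℚ`
(`Algebra.norm_eq_prod_embeddings ℚ ℂ y`: the embeddings of `K` are `embK` and its conjugate,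
`[K : ℚ] = 2`), a nonzero integer; or write `y = a + b * om` with integers `a b` (ring of integers
of a cyclotomic field, `IsCyclotomicExtension.Rat...`), then `‖x‖ ^ 2 = a ^ 2 - a b + b ^ 2 ≥ 1`. -/
theorem one_le_embK (y : K) (hy : y ≠ 0) (hi : IsIntegral ℤ y) : 1 ≤ ‖embK y‖ := by
  obtain ⟨p, q, hpq⟩ := exists_coordsK ⟨y, hi⟩
  have h1 : embK y = p + q * zt := by
    have hpq' : y = p + q * om := hpq
    rw [hpq', map_add, map_mul, map_intCast, map_intCast, embK_om]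
  have h2 : embK y ≠ 0 := by
    intro h
    exact hy (embK.toRingHom.injective (by simpa using h))
  have h3 := norm_lin p q
  rw [← h1] at h3
  have h4 : 0 < ‖embK y‖ ^ 2 := by positivity
  rw [h3] at h4
  have h5 : (0 : ℤ) < p ^ 2 + CD.tr * p * q + CD.nm * q ^ 2 := by exact_mod_cast h4
  have h6 : (1 : ℝ) ≤ ((p ^ 2 + CD.tr * p * q + CD.nm * q ^ 2 : ℤ) : ℝ) := by exact_mod_cast h5
  rw [← h3] at h6
  by_contra h7
  push Not at h7
  have h8 : ‖embK y‖ ^ 2 < 1 := by
    have := norm_nonneg (embK y)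
    nlinarith
  linarith

end

end Pool.Agent.Lib.MP_1a91b9_nuT.S2A

/-!
# Job LAT2
-/

set_option autoImplicit false

namespace Pool.Agent.Lib.MP_1a91b9_nuT.S2A

variable [CD]

open NumberField MeasureTheory Module

noncomputable section

universe u

variable {F : Type u} [Field F] [NumberField F] [Algebra K F] {n : ℕ}

/-- JOB LAT2. `NF z = ∏ σ_j z` (`Algebra.norm_eq_prod_embeddings K ℂ z`; `algebraMap K ℂ = embK`
by `algebraMap_eq`). -/
theorem NF_eq (σ : Fin n → (F →ₐ[K] ℂ)) (hσ : Function.Bijective σ) (z : F) :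
    NF z = ∏ j, σ j z := by
  have : FiniteDimensional K F := Module.Finite.of_restrictScalars_finite ℚ K F
  rw [NF, ← algebraMap_eq, Algebra.norm_eq_prod_embeddings K ℂ z]
  exact (Function.Bijective.prod_comp hσ (fun τ : F →ₐ[K] ℂ => τ z)).symm

/-- JOB LAT2. `TF z = ∑ σ_j z` (`trace_eq_sum_embeddings`). -/
theorem TF_eq (σ : Fin n → (F →ₐ[K] ℂ)) (hσ : Function.Bijective σ) (z : F) :
    TF z = ∑ j, σ j z := by
  have : FiniteDimensional K F := Module.Finite.of_restrictScalars_finite ℚ K F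
  rw [TF, ← algebraMap_eq, trace_eq_sum_embeddings ℂ]
  exact (Function.Bijective.sum_comp hσ (fun τ : F →ₐ[K] ℂ => τ z)).symm

/-- JOB LAT2. -/
theorem lin_vec (σ : Fin n → (F →ₐ[K] ℂ)) (hσ : Function.Bijective σ) (v z : F) :
    lin σ v (vec σ z) = TF (v * z) := by
  rw [TF_eq σ hσ, lin]
  exact Finset.sum_congr rfl fun j _ => by rw [vec, map_mul]

end

end Pool.Agent.Lib.MP_1a91b9_nuT.S2A

/-!
# Job LAT3
-/

set_option autoImplicit false

namespace Pool.Agent.Lib.MP_1a91b9_nuT.S2A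

variable [CD]

open NumberField MeasureTheory Module

noncomputable section

universe u

variable {F : Type u} [Field F] [NumberField F] [Algebra K F] {n : ℕ}

private theorem lat3_finK (σ : Fin n → (F →ₐ[K] ℂ)) (hσ : Function.Bijective σ) :
    finrank K F = n := by
  have : Module.Finite K F := Module.Finite.of_restrictScalars_finite ℚ K F
  rw [← AlgHom.card K F ℂ, ← Fintype.card_of_bijective hσ, Fintype.card_fin]

/-- JOB LAT3. `[F : ℚ] = 2 n` (`[K : ℚ] = φ(3) = 2`, `n = #(F →ₐ[K] ℂ) = [F : K]`,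
`AlgHom.card`). -/
theorem finrank_eq (σ : Fin n → (F →ₐ[K] ℂ)) (hσ : Function.Bijective σ) :
    finrank ℚ F = 2 * n := by
  have h2 : finrank ℚ K = 2 := finrank_K
  rw [← finrank_mul_finrank ℚ K F, h2, lat3_finK σ hσ]

/-- JOB LAT3. `n ≥ 1`: there is an embedding. -/
theorem one_le_n (σ : Fin n → (F →ₐ[K] ℂ)) (hσ : Function.Bijective σ) : 1 ≤ n := by
  have : Module.Finite K F := Module.Finite.of_restrictScalars_finite ℚ K F
  have h1 := lat3_finK σ hσ
  have h2 : 0 < finrank K F := finrank_pos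
  omega

end

end Pool.Agent.Lib.MP_1a91b9_nuT.S2A

/-!
# Job LAT4
-/

set_option autoImplicit false

namespace Pool.Agent.Lib.MP_1a91b9_nuT.S2A

variable [CD]

open NumberField MeasureTheory Module

noncomputable section

universe u

variable {F : Type u} [Field F] [NumberField F] [Algebra K F] {n : ℕ}

/-- JOB LAT4. A nonzero `z` with `D z` integral has `‖vec σ z‖ ≥ 1 / D`.
Proof: `x = D z` is a nonzero algebraic integer, `∏ σ_j x = embK (norm K x)`, `norm K x ≠ 0` is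
integral over `ℤ`, so `1 ≤ ∏ ‖σ_j x‖` (`one_le_embK`, `NF_eq`) and some factor is `≥ 1`. -/
theorem one_le_vec (σ : Fin n → (F →ₐ[K] ℂ)) (hσ : Function.Bijective σ) (D : ℕ) (hD : 0 < D)
    (z : F) (hz : z ≠ 0) (hi : IsIntegral ℤ ((D : F) * z)) : 1 / (D : ℝ) ≤ ‖vec σ z‖ := by
  have hD' : (0 : ℝ) < D := by exact_mod_cast hD
  have hDF : (D : F) ≠ 0 := by exact_mod_cast hD.ne'
  have hx : (D : F) * z ≠ 0 := mul_ne_zero hDF hz
  have : FiniteDimensional K F := Module.Finite.of_restrictScalars_finite ℚ K F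
  have h1 : Algebra.norm K ((D : F) * z) ≠ 0 := Algebra.norm_ne_zero_iff.2 hx
  have h2 : IsIntegral ℤ (Algebra.norm K ((D : F) * z)) := Algebra.isIntegral_norm K hi
  have h3 := one_le_embK _ h1 h2
  have h4 : embK (Algebra.norm K ((D : F) * z)) = ∏ j, σ j ((D : F) * z) := NF_eq σ hσ _
  rw [h4, norm_prod] at h3
  have hn := one_le_n σ hσ
  obtain ⟨j, hj⟩ : ∃ j, 1 ≤ ‖σ j ((D : F) * z)‖ := by
    by_contra h
    push Not at h
    have h5 : ∏ j, ‖σ j ((D : F) * z)‖ < ∏ _j : Fin n, (1 : ℝ) := by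
      refine Finset.prod_lt_prod_of_nonempty (fun j _ => ?_) (fun j _ => h j) ?_
      · rw [norm_pos_iff]
        intro h6
        exact hx ((map_eq_zero (σ j)).1 h6)
      · exact ⟨⟨0, hn⟩, Finset.mem_univ _⟩
    rw [Finset.prod_const_one] at h5
    linarith
  have h6 : ‖σ j z‖ ≤ ‖vec σ z‖ := norm_le_pi_norm (vec σ z) j
  rw [map_mul, map_natCast, norm_mul, Complex.norm_natCast] at hj
  rw [div_le_iff₀ hD']
  nlinarith

end

end Pool.Agent.Lib.MP_1a91b9_nuT.S2A

/-!
# Job LAT5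
-/

set_option autoImplicit false

namespace Pool.Agent.Lib.MP_1a91b9_nuT.S2A

variable [CD]

open NumberField MeasureTheory Module

noncomputable section

universe u

variable {F : Type u} [Field F] [NumberField F] [Algebra K F] {n : ℕ}

/-- JOB LAT5. Summability over the lattice.
Proof: `L = ` the image of the ring of integers of `F` in `Fin n → ℂ` under `vec σ` (a
`ℤ`-submodule, `Submodule.map` of `⊤` under the `ℤ`-linear map `x ↦ vec σ x`).  It is discrete:
`‖vec σ x‖ ≥ 1` for `x ≠ 0` (`one_le_vec` with `D = 1`).  `finrank ℤ L = finrank ℤ (𝓞 F) =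
finrank ℚ F = 2 n` (`vec σ` is injective, `RingOfIntegers.rank`).
`ZLattice.summable_norm_rpow L r` with `r = -(2n+1)`, resp. `ZLattice.summable_norm_pow_inv`.
Then `z ↦ D z`: `ind D z / (1 + ‖vec σ z‖)^(2n+1) ≤ D^(2n+1) * ‖vec σ (D z)‖⁻¹^(2n+1)` for `z ≠ 0`
(`1 + ‖vec z‖ ≥ ‖vec z‖`). -/
theorem sum_lat (σ : Fin n → (F →ₐ[K] ℂ)) (hσ : Function.Bijective σ) (D : ℕ) (hD : 0 < D) :
    Summable fun z : F => ind D z / (1 + ‖vec σ z‖) ^ (2 * n + 1) := by
  classical
  let φ : F →+ (Fin n → ℂ) := ⟨⟨vec σ, vec_zero σ⟩, vec_add σ⟩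
  let ψ : 𝓞 F →ₗ[ℤ] (Fin n → ℂ) :=
    (φ.comp (algebraMap (𝓞 F) F).toAddMonoidHom).toIntLinearMap
  have hψ : ∀ x : 𝓞 F, ψ x = vec σ (x : F) := fun x => rfl
  have hne : ∀ x : 𝓞 F, x ≠ 0 → 1 ≤ ‖ψ x‖ := by
    intro x hx
    have h := one_le_vec σ hσ 1 one_pos (x : F) (by simpa using hx)
      (by simpa using x.isIntegral_coe)
    simpa [hψ] using h
  have hinj : Function.Injective ψ := by
    rw [← LinearMap.ker_eq_bot, LinearMap.ker_eq_bot']
    intro x hx
    by_contra h0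
    have := hne x h0
    rw [hx, norm_zero] at this
    linarith
  let L : Submodule ℤ (Fin n → ℂ) := LinearMap.range ψ
  have hdisc : DiscreteTopology L := by
    refine DiscreteTopology.of_forall_le_norm one_pos ?_
    rintro ⟨_, x, rfl⟩ hx
    refine hne x ?_
    rintro rfl
    exact hx (by ext; simp)
  have hrank : finrank ℤ L = 2 * n := by
    rw [← finrank_eq σ hσ, ← RingOfIntegers.rank F]
    exact (LinearEquiv.ofInjective ψ hinj).finrank_eq.symm
  have hsum : Summable fun z : L => ‖z‖⁻¹ ^ (2 * n + 1) :=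
    ZLattice.summable_norm_pow_inv L (2 * n + 1) (by rw [hrank]; exact Nat.lt_succ_self _)
  let s : Set F := {z | IsIntegral ℤ ((D : F) * z)}
  let j : s → L := fun z => ⟨vec σ ((D : F) * (z : F)), ⟨⟨(D : F) * (z : F), z.2⟩, rfl⟩⟩
  have hDF : (D : F) ≠ 0 := Nat.cast_ne_zero.2 hD.ne'
  have hj : Function.Injective j := by
    intro z w h
    have h1 : vec σ ((D : F) * (z : F)) = vec σ ((D : F) * (w : F)) := congrArg Subtype.val h
    have h2 : ψ ⟨(D : F) * (z : F), z.2⟩ = ψ ⟨(D : F) * (w : F), w.2⟩ := h1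
    have h3 := congrArg (fun x : 𝓞 F => (x : F)) (hinj h2)
    exact Subtype.ext (mul_left_cancel₀ hDF h3)
  have hind : (fun z : F => ind D z / (1 + ‖vec σ z‖) ^ (2 * n + 1)) =
      s.indicator (fun z : F => ind D z / (1 + ‖vec σ z‖) ^ (2 * n + 1)) := by
    funext z
    by_cases hz : z ∈ s
    · rw [Set.indicator_of_mem hz]
    · rw [Set.indicator_of_notMem hz]
      have : ind D z = 0 := if_neg hz
      rw [this, zero_div]
  rw [hind, ← summable_subtype_iff_indicator]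
  have hvec : ∀ z : F, ‖vec σ ((D : F) * z)‖ = D * ‖vec σ z‖ := by
    intro z
    have : vec σ ((D : F) * z) = (D : ℝ) • vec σ z := by
      funext i
      simp [vec]
    rw [this, norm_smul]
    simp
  have hsum1 : Summable fun z : s => (D : ℝ) ^ (2 * n + 1) * ‖j z‖⁻¹ ^ (2 * n + 1) :=
    (hsum.comp_injective hj).mul_left _
  have hsum2 : Summable fun z : s => if z = (⟨0, by simp [s, isIntegral_zero]⟩ : s) then (1 : ℝ) else 0 :=
    (hasSum_ite_eq _ _).summable
  refine Summable.of_nonneg_of_le (fun z => ?_) (fun z => ?_) (hsum1.add hsum2)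
  · exact div_nonneg (ind_nonneg D _) (by positivity)
  · obtain ⟨z, hz⟩ := z
    have hz1 : ind D z = 1 := if_pos hz
    simp only [Function.comp_apply, Subtype.mk.injEq]
    rw [hz1]
    by_cases h0 : z = 0
    · subst h0
      rw [if_pos rfl]
      have : 0 ≤ (D : ℝ) ^ (2 * n + 1) * ‖j ⟨0, hz⟩‖⁻¹ ^ (2 * n + 1) := by positivity
      rw [vec_zero, norm_zero]
      simpa using this
    · rw [if_neg h0, add_zero]
      have h1 : ‖j ⟨z, hz⟩‖ = D * ‖vec σ z‖ := hvec z
      have h2 := one_le_vec σ hσ D hD z h0 hz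
      have hD' : (0 : ℝ) < D := Nat.cast_pos.2 hD
      have h3 : 0 < ‖vec σ z‖ := lt_of_lt_of_le (by positivity) h2
      rw [h1, ← mul_pow, one_div, ← inv_pow]
      refine pow_le_pow_left₀ (by positivity) ?_ _
      have h4 : (D : ℝ) * (D * ‖vec σ z‖)⁻¹ = ‖vec σ z‖⁻¹ := by
        rw [mul_inv, ← mul_assoc, mul_inv_cancel₀ hD'.ne', one_mul]
      rw [h4]
      exact inv_anti₀ h3 (by linarith)

end

end Pool.Agent.Lib.MP_1a91b9_nuT.S2A

/-!
# Job LAT6
-/

set_option autoImplicit false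

namespace Pool.Agent.Lib.MP_1a91b9_nuT.S2A

variable [CD]

open NumberField MeasureTheory Module

noncomputable section

universe u

variable {F : Type u} [Field F] [NumberField F] [Algebra K F] {n : ℕ}

private theorem lat6_bd (c κ : ℝ) (hc : 0 < c) (N : ℕ) : ∃ C : ℝ, 0 ≤ C ∧ ∀ u : ℝ, 0 ≤ u →
    (1 + u) ^ N * Real.exp (-c * u ^ 2 + κ * u) ≤ C := by
  refine ⟨(N.factorial : ℝ) * Real.exp (1 + (1 + κ) ^ 2 / (4 * c)), by positivity, ?_⟩
  intro u hu
  have h1 : (1 + u) ^ N ≤ (N.factorial : ℝ) * Real.exp (1 + u) := by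
    have h2 := Real.pow_div_factorial_le_exp (1 + u) (by linarith) N
    rw [div_le_iff₀ (by positivity)] at h2
    linarith
  have h3 : (1 + u) + (-c * u ^ 2 + κ * u) ≤ 1 + (1 + κ) ^ 2 / (4 * c) := by
    have h4 : (1 + κ) * u - c * u ^ 2 ≤ (1 + κ) ^ 2 / (4 * c) := by
      rw [le_div_iff₀ (by positivity)]
      nlinarith [sq_nonneg (2 * c * u - (1 + κ))]
    linarith
  calc (1 + u) ^ N * Real.exp (-c * u ^ 2 + κ * u)
      ≤ ((N.factorial : ℝ) * Real.exp (1 + u)) * Real.exp (-c * u ^ 2 + κ * u) :=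
        mul_le_mul_of_nonneg_right h1 (Real.exp_pos _).le
    _ = (N.factorial : ℝ) * Real.exp ((1 + u) + (-c * u ^ 2 + κ * u)) := by
        rw [mul_assoc, ← Real.exp_add]
    _ ≤ (N.factorial : ℝ) * Real.exp (1 + (1 + κ) ^ 2 / (4 * c)) :=
        mul_le_mul_of_nonneg_left (Real.exp_le_exp.2 h3) (by positivity)

/-- JOB LAT6. Gaussian sums over the lattice, with scale `x ∈ (0, 1]`.
Proof: there is `C₀` with `(1+u)^k * exp (-c u² + κ u) ≤ C₀ / (1+u)^(2n+1)` for all `u ≥ 0`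
(the function `(1+u)^(k+2n+1) exp (-c u² + κ u)` is continuous and tends to `0` at infinity, or
`exp` beats powers), and `1 + x ‖z‖ ≥ x (1 + ‖z‖)`.  So the terms are
`≤ C₀ / x^(2n+1) * (ind D z / (1 + ‖vec σ z‖)^(2n+1))`; use `sum_lat`. -/
theorem gauss_lat (σ : Fin n → (F →ₐ[K] ℂ)) (hσ : Function.Bijective σ) (D : ℕ) (hD : 0 < D)
    (c κ : ℝ) (hc : 0 < c) (k : ℕ) :
    ∃ C : ℝ, 0 ≤ C ∧ ∀ x : ℝ, 0 < x → x ≤ 1 →
      (Summable fun z : F => ind D z * ((1 + x * ‖vec σ z‖) ^ k *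
        Real.exp (-c * (x * ‖vec σ z‖) ^ 2 + κ * (x * ‖vec σ z‖)))) ∧
      ∑' z : F, ind D z * ((1 + x * ‖vec σ z‖) ^ k *
        Real.exp (-c * (x * ‖vec σ z‖) ^ 2 + κ * (x * ‖vec σ z‖))) ≤ C / x ^ (2 * n + 1) := by
  obtain ⟨C0, hC0, hb⟩ := lat6_bd c κ hc (k + (2 * n + 1))
  have hS := sum_lat σ hσ D hD
  have hnn : ∀ z : F, 0 ≤ ind D z / (1 + ‖vec σ z‖) ^ (2 * n + 1) := fun z =>
    div_nonneg (ind_nonneg D z) (by positivity)
  refine ⟨C0 * ∑' z : F, ind D z / (1 + ‖vec σ z‖) ^ (2 * n + 1),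
    mul_nonneg hC0 (tsum_nonneg hnn), ?_⟩
  intro x hx hx1
  have hpt : ∀ z : F, ind D z * ((1 + x * ‖vec σ z‖) ^ k *
      Real.exp (-c * (x * ‖vec σ z‖) ^ 2 + κ * (x * ‖vec σ z‖)))
        ≤ (C0 / x ^ (2 * n + 1)) * (ind D z / (1 + ‖vec σ z‖) ^ (2 * n + 1)) := by
    intro z
    set v : ℝ := ‖vec σ z‖ with hv
    have hv0 : 0 ≤ v := norm_nonneg _
    have hu : 0 ≤ x * v := mul_nonneg hx.le hv0
    have h1 := hb (x * v) hu
    rw [pow_add] at h1
    have h2 : (1 + x * v) ^ k * Real.exp (-c * (x * v) ^ 2 + κ * (x * v))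
        ≤ C0 / (1 + x * v) ^ (2 * n + 1) := by
      rw [le_div_iff₀ (by positivity)]
      linarith
    have h3 : (x * (1 + v)) ^ (2 * n + 1) ≤ (1 + x * v) ^ (2 * n + 1) :=
      pow_le_pow_left₀ (by positivity) (by nlinarith) _
    have h4 : C0 / (1 + x * v) ^ (2 * n + 1) ≤ C0 / (x * (1 + v)) ^ (2 * n + 1) :=
      div_le_div_of_nonneg_left hC0 (by positivity) h3
    calc ind D z * ((1 + x * v) ^ k * Real.exp (-c * (x * v) ^ 2 + κ * (x * v)))
        ≤ ind D z * (C0 / (x * (1 + v)) ^ (2 * n + 1)) :=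
          mul_le_mul_of_nonneg_left (h2.trans h4) (ind_nonneg D z)
      _ = (C0 / x ^ (2 * n + 1)) * (ind D z / (1 + v) ^ (2 * n + 1)) := by
          rw [mul_pow]
          field_simp
  have hsum2 := hS.mul_left (C0 / x ^ (2 * n + 1))
  have hs : Summable fun z : F => ind D z * ((1 + x * ‖vec σ z‖) ^ k *
      Real.exp (-c * (x * ‖vec σ z‖) ^ 2 + κ * (x * ‖vec σ z‖))) := by
    refine Summable.of_nonneg_of_le (fun z => ?_) hpt hsum2
    have := ind_nonneg D z
    positivity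
  refine ⟨hs, ?_⟩
  refine (hs.tsum_le_tsum hpt hsum2).trans (le_of_eq ?_)
  rw [tsum_mul_left]
  ring

end

end Pool.Agent.Lib.MP_1a91b9_nuT.S2A
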