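import Pool.Agent.Lib.MP_1a91b9_nuT.BaseK
import Pool.Agent.Lib.MP_1a91b9_nuT.S3.Main

/-!
# S2 definitions: admissible functions, forms, the cocycle
-/

set_option autoImplicit false

namespace Pool.Agent.Lib.MP_1a91b9_nuT

variable [CD]

open NumberField MeasureTheory

noncomputable section

universe u

variable {F : Type u} [Field F] [NumberField F] [Algebra K F]

/-- The relative norm to `K`, as a complex number. -/
def NF (z : F) : ℂ := embK (Algebra.norm K z)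

/-- The relative trace to `K`, as a complex number. -/
def TF (z : F) : ℂ := embK (Algebra.trace K F z)

/-- Admissible functions for the set `S` of boundary vectors. -/
structure Adm2 (δ : F → ℂ) (S : Set F) : Prop where
  bdd : ∃ C : ℝ, ∀ z, ‖δ z‖ ≤ C
  lat : ∃ D : ℕ, 0 < D ∧ ∀ z, δ z ≠ 0 → IsIntegral ℤ ((D : F) * z)
  zero : δ 0 = 0
  ne : ∀ v ∈ S, v ≠ 0 ∧ ∀ z, δ z ≠ 0 → Algebra.trace K F (v * z) ≠ 0
  mean : ∀ B : Set F, B ⊆ S → ∀ α : F, α ≠ 0 → (∀ v ∈ B, Algebra.trace K F (v * α) = 0) →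
    ∃ (r : ℕ) (a : Fin r → F), 0 < r ∧ (∀ j, ∀ v ∈ B, Algebra.trace K F (v * a j) = 0) ∧
      ∀ z, ∑ j, δ (z + a j) = 0

/-- The forms: positive diagonal forms and boundary forms. -/
inductive Frm (F : Type u) (n : ℕ)
  | dg (y : Fin n → ℝ) : Frm F n
  | bd (v : F) : Frm F n

variable {n : ℕ}

/-- The linear form attached to `v`. -/
def lin (σ : Fin n → (F →ₐ[K] ℂ)) (v : F) (w : Fin n → ℂ) : ℂ := ∑ j, σ j v * w j

/-- The vector `z` in `ℂⁿ`. -/
def vec (σ : Fin n → (F →ₐ[K] ℂ)) (z : F) : Fin n → ℂ := fun j => σ j z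

/-- The row of a form. -/
def row (σ : Fin n → (F →ₐ[K] ℂ)) : Frm F n → (Fin n → ℂ) → (Fin n → ℂ)
  | .dg y, w => fun j => y j * (starRingEnd ℂ) (w j)
  | .bd v, w => fun j => (starRingEnd ℂ) (lin σ v w) * σ j v

/-- The value of a form. -/
def val (σ : Fin n → (F →ₐ[K] ℂ)) : Frm F n → (Fin n → ℂ) → ℝ
  | .dg y, w => ∑ j, y j * ‖w j‖ ^ 2
  | .bd v, w => ‖lin σ v w‖ ^ 2

/-- The theta integral attached to `n` forms. -/
def I2 (σ : Fin n → (F →ₐ[K] ℂ)) (δ : F → ℂ) (P : Fin n → Frm F n) : ℂ :=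
  ∫ t in Set.univ.pi (fun _ : Fin n => Set.Ioi (0 : ℝ)),
    ∑' z : F, δ z * (Matrix.of fun i j => row σ (P i) (vec σ z) j).det *
      Real.exp (-∑ i, t i * val σ (P i) (vec σ z))

/-- The path from `v` along `ε (s 0), ε (s 1), ...`. -/
def path {m : ℕ} (ε : Fin m → F) (s : Equiv.Perm (Fin m)) (v : F) (j : Fin (m + 1)) : F :=
  v * ∏ i : Fin m, if (i : ℕ) < (j : ℕ) then ε (s i) else 1

/-- The regulator matrix with first row `1`. -/
def regM {m : ℕ} (σ : Fin (m + 1) → (F →ₐ[K] ℂ)) (ε : Fin m → F) :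
    Matrix (Fin (m + 1)) (Fin (m + 1)) ℝ :=
  Matrix.of (Fin.cons (fun _ => 1) fun i j => Real.log (‖σ j (ε i)‖ ^ 2))

/-- `R` is a set of representatives of `X` modulo the group generated by the `ε i`. -/
def IsReps {m : ℕ} (ε : Fin m → F) (X R : Set F) : Prop :=
  R ⊆ X ∧ ∀ z ∈ X, ∃! k : Fin m → ℤ, (∏ i, ε i ^ k i) * z ∈ R

/-- The element of `K` attached to an index. -/
def ixK (D c : ℕ) (x : Fin (c * D) × Fin (c * D)) : K :=
  (((x.1 : ℕ) : K) + ((x.2 : ℕ) : K) * om) / D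

/-- The complex number attached to an index. -/
def ixC (D c : ℕ) (x : Fin (c * D) × Fin (c * D)) : ℂ :=
  (((x.1 : ℕ) : ℂ) + ((x.2 : ℕ) : ℂ) * zt) / D

end

end Pool.Agent.Lib.MP_1a91b9_nuT
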