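import Pool.Agent.Lib.MP_1a91b9_nuT.S2.C4b

/-!
# S2c: the determinants of thin simplices (DOC2 2.6)
-/

set_option autoImplicit false

namespace Pool.Agent.Lib.MP_1a91b9_nuT

open MeasureTheory Set Filter Topology Equiv

noncomputable section

variable {m : ℕ}

/-- The diagonal form `exp (∑ uᵢ γᵢ)`. -/
def yv (γ : Fin m → Fin (m + 1) → ℝ) (u : Fin m → ℝ) : Fin (m + 1) → ℝ :=
  fun j => Real.exp (∑ i, u i * γ i j)

/-- The matrix with first row `1` and the rows `γ i`. -/
def rg (γ : Fin m → Fin (m + 1) → ℝ) : Matrix (Fin (m + 1)) (Fin (m + 1)) ℝ :=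
  Matrix.of (Fin.cons (fun _ => 1) γ)

/-- The vertices of the simplex of the permutation `s`. -/
def hh (s : Perm (Fin m)) (i : Fin (m + 1)) : Fin m → ℝ :=
  ∑ l : Fin m, if (l : ℕ) < (i : ℕ) then Pi.single (s l) 1 else 0

/-- The logarithms of the vertices. -/
def Gam (γ : Fin m → Fin (m + 1) → ℝ) (s : Perm (Fin m)) (i : Fin (m + 1)) (j : Fin (m + 1)) : ℝ :=
  ∑ l : Fin m, if (l : ℕ) < (i : ℕ) then γ (s l) j else 0

theorem sum_hh (γ : Fin m → Fin (m + 1) → ℝ) (s : Perm (Fin m)) (i : Fin (m + 1))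
    (j : Fin (m + 1)) : ∑ k, hh s i k * γ k j = Gam γ s i j := by
  have h : ∀ k, hh s i k * γ k j =
      ∑ l : Fin m, if (l : ℕ) < (i : ℕ) then (Pi.single (s l) 1 : Fin m → ℝ) k * γ k j else 0 := by
    intro k
    rw [hh, Finset.sum_apply, Finset.sum_mul]
    refine Finset.sum_congr rfl fun l _ => ?_
    split_ifs <;> simp
  simp only [h]
  rw [Finset.sum_comm, Gam]
  refine Finset.sum_congr rfl fun l _ => ?_
  split_ifs
  · rw [Finset.sum_eq_single (s l)]
    · simp
    · intro k _ hk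
      simp [Pi.single_eq_of_ne hk]
    · simp
  · simp

theorem Gam_zero (γ : Fin m → Fin (m + 1) → ℝ) (s : Perm (Fin m)) (j : Fin (m + 1)) :
    Gam γ s 0 j = 0 := by
  simp [Gam]

theorem Gam_succ (γ : Fin m → Fin (m + 1) → ℝ) (s : Perm (Fin m)) (i : Fin m)
    (j : Fin (m + 1)) : Gam γ s i.succ j - Gam γ s i.castSucc j = γ (s i) j := by
  rw [Gam, Gam, ← Finset.sum_sub_distrib, Finset.sum_eq_single i]
  · simp
  · intro l _ hl
    have : (l : ℕ) ≠ i := fun h => hl (Fin.ext h)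
    simp only [Fin.val_succ, Fin.val_castSucc]
    split_ifs <;> first | omega | simp
  · simp

theorem yv_add (γ : Fin m → Fin (m + 1) → ℝ) (u v : Fin m → ℝ) (j : Fin (m + 1)) :
    yv γ (u + v) j = yv γ u j * yv γ v j := by
  simp only [yv, Pi.add_apply, add_mul, Finset.sum_add_distrib, Real.exp_add]

theorem yv_smul_hh (γ : Fin m → Fin (m + 1) → ℝ) (τ : ℝ) (s : Perm (Fin m)) (i : Fin (m + 1))
    (j : Fin (m + 1)) : yv γ (τ • hh s i) j = Real.exp (τ * Gam γ s i j) := by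
  rw [yv, ← sum_hh, Finset.mul_sum]
  congr 1
  refine Finset.sum_congr rfl fun k _ => ?_
  rw [Pi.smul_apply, smul_eq_mul, mul_assoc]

theorem prod_yv (γ : Fin m → Fin (m + 1) → ℝ) (hγ : ∀ i, ∑ j, γ i j = 0) (u : Fin m → ℝ) :
    ∏ j, yv γ u j = 1 := by
  simp only [yv]
  rw [← Real.exp_sum, Finset.sum_comm]
  simp [← Finset.mul_sum, hγ]

theorem det_yv (γ : Fin m → Fin (m + 1) → ℝ) (hγ : ∀ i, ∑ j, γ i j = 0) (u : Fin m → ℝ)
    (τ : ℝ) (s : Perm (Fin m)) :
    (Matrix.of fun i j => yv γ (u + τ • hh s i) j).det =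
      (Matrix.of fun i j => Real.exp (τ * Gam γ s i j)).det := by
  have h : (Matrix.of fun i j => yv γ (u + τ • hh s i) j) =
      Matrix.of fun i j => yv γ u j * (Matrix.of fun i j => Real.exp (τ * Gam γ s i j)) i j := by
    ext i j
    rw [Matrix.of_apply, Matrix.of_apply, Matrix.of_apply, yv_add, yv_smul_hh]
  rw [h, Matrix.det_mul_row, prod_yv γ hγ, one_mul]

/-- The row reduced matrix. -/
def Bmat (γ : Fin m → Fin (m + 1) → ℝ) (s : Perm (Fin m)) (τ : ℝ) :
    Matrix (Fin (m + 1)) (Fin (m + 1)) ℝ :=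
  Matrix.of (Fin.cons (fun _ => 1) fun i j =>
    τ⁻¹ * (Real.exp (τ * Gam γ s i.succ j) - Real.exp (τ * Gam γ s i.castSucc j)))

theorem det_Bmat (γ : Fin m → Fin (m + 1) → ℝ) (s : Perm (Fin m)) (τ : ℝ) (hτ : τ ≠ 0) :
    (Matrix.of fun i j => Real.exp (τ * Gam γ s i j)).det = τ ^ m * (Bmat γ s τ).det := by
  have h1 : (Matrix.of fun i j => Real.exp (τ * Gam γ s i j)).det =
      (Matrix.of fun i j => (Fin.cons 1 (fun _ => τ) : Fin (m + 1) → ℝ) i * Bmat γ s τ i j).det := by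
    refine Matrix.det_eq_of_forall_row_eq_smul_add_pred (fun _ => 1) (fun j => ?_) fun i j => ?_
    · simp [Bmat, Gam_zero]
    · simp only [Bmat, Matrix.of_apply, Fin.cons_succ]
      rw [← mul_assoc, mul_inv_cancel₀ hτ]
      ring
  rw [h1, Matrix.det_mul_column]
  congr 1
  simp [Fin.prod_univ_succ]

theorem det_rg_perm (γ : Fin m → Fin (m + 1) → ℝ) (s : Perm (Fin m)) :
    (rg fun i => γ (s i)).det = ((Perm.sign s : ℤ) : ℝ) * (rg γ).det := by
  have h : (rg fun i => γ (s i)) = (rg γ).submatrix (Perm.decomposeFin.symm (0, s)) id := by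
    ext i j
    refine Fin.cases ?_ (fun i => ?_) i
    · simp [rg]
    · simp [rg]
  rw [h, Matrix.det_permute, Perm.decomposeFin.symm_sign]
  simp

/-- The limit of the determinants. -/
theorem tendsto_det (γ : Fin m → Fin (m + 1) → ℝ) (s : Perm (Fin m)) :
    Tendsto (fun N : ℕ => (N : ℝ) ^ m *
      (Matrix.of fun i j => Real.exp ((N : ℝ)⁻¹ * Gam γ s i j)).det) atTop
      (𝓝 (((Perm.sign s : ℤ) : ℝ) * (rg γ).det)) := by
  have h0 : Tendsto (fun N : ℕ => ((N : ℝ))⁻¹) atTop (𝓝[≠] 0) := by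
    rw [tendsto_nhdsWithin_iff]
    refine ⟨tendsto_inv_atTop_nhds_zero_nat, ?_⟩
    filter_upwards [eventually_gt_atTop 0] with N hN
    have : (N : ℝ) ≠ 0 := by positivity
    simpa using this
  have h1 : Tendsto (fun τ : ℝ => Bmat γ s τ) (𝓝[≠] 0) (𝓝 (rg fun i => γ (s i))) := by
    refine tendsto_pi_nhds.2 fun i => tendsto_pi_nhds.2 fun j => ?_
    refine Fin.cases ?_ (fun i => ?_) i
    · simp only [Bmat, rg, Matrix.of_apply, Fin.cons_zero]
      exact tendsto_const_nhds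
    · simp only [Bmat, rg, Matrix.of_apply, Fin.cons_succ]
      have hd : HasDerivAt (fun τ : ℝ => Real.exp (τ * Gam γ s i.succ j) -
          Real.exp (τ * Gam γ s i.castSucc j)) (γ (s i) j) 0 := by
        have e1 : HasDerivAt (fun τ : ℝ => Real.exp (τ * Gam γ s i.succ j))
            (Gam γ s i.succ j) 0 := by
          have := ((hasDerivAt_id (0 : ℝ)).mul_const (Gam γ s i.succ j)).exp
          simpa using this
        have e2 : HasDerivAt (fun τ : ℝ => Real.exp (τ * Gam γ s i.castSucc j))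
            (Gam γ s i.castSucc j) 0 := by
          have := ((hasDerivAt_id (0 : ℝ)).mul_const (Gam γ s i.castSucc j)).exp
          simpa using this
        have := e1.sub e2
        rwa [Gam_succ] at this
      have := hasDerivAt_iff_tendsto_slope_zero.1 hd
      simpa using this
  have h2 : Tendsto (fun N : ℕ => (Bmat γ s ((N : ℝ))⁻¹).det) atTop
      (𝓝 ((rg fun i => γ (s i)).det)) :=
    ((continuous_id.matrix_det).tendsto _).comp (h1.comp h0)
  rw [det_rg_perm] at h2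
  refine h2.congr' ?_
  filter_upwards [eventually_gt_atTop 0] with N hN
  have hN' : (N : ℝ) ≠ 0 := by positivity
  rw [det_Bmat γ s _ (inv_ne_zero hN'), ← mul_assoc, ← mul_pow, mul_inv_cancel₀ hN', one_pow,
    one_mul]

end

end Pool.Agent.Lib.MP_1a91b9_nuT
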