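import Pool.Agent.Lib.MP_1a91b9_nuT.S2.C3
import Pool.Agent.Lib.MP_1a91b9_nuT.S2.C4c

/-!
# S2c: the limit of thin simplices (DOC2 2.6)
-/

set_option autoImplicit false

namespace Pool.Agent.Lib.MP_1a91b9_nuT

open MeasureTheory Set Filter Topology Equiv

open scoped Nat

noncomputable section

variable {m : ℕ}

theorem pth_smul (τ : ℝ) (s : Perm (Fin m)) (u : Fin m → ℝ) :
    pth actA (fun i => Multiplicative.ofAdd (τ • (Pi.single i 1 : Fin m → ℝ))) s u =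
      fun j => u + τ • hh s j := by
  funext j
  simp only [pth, actA, hh]
  rw [add_comm, toAdd_prod, Finset.smul_sum]
  congr 1
  refine Finset.sum_congr rfl fun l _ => ?_
  split_ifs <;> simp

theorem setIntegral_cube (g : (Fin m → ℝ) → ℂ) :
    ∫ u in cube m, g u = ∫ u in Icc (0 : Fin m → ℝ) 1, g u :=
  setIntegral_congr_set (Measure.univ_pi_Ico_ae_eq_Icc (f := (0 : Fin m → ℝ)) (g := 1))

theorem yv_continuous (γ : Fin m → Fin (m + 1) → ℝ) : Continuous (yv γ) := by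
  refine continuous_pi fun j => ?_
  simp only [yv]
  fun_prop

theorem yv_pos (γ : Fin m → Fin (m + 1) → ℝ) (u : Fin m → ℝ) (j : Fin (m + 1)) :
    0 < yv γ u j := Real.exp_pos _

variable {θ : (Fin (m + 1) → ℝ) → ℂ}

/-- The cochain of the diagonal forms. -/
def fdg (θ : (Fin (m + 1) → ℝ) → ℂ) (γ : Fin m → Fin (m + 1) → ℝ)
    (w : Fin (m + 1) → (Fin m → ℝ)) : ℂ :=
  ((Matrix.of fun i j => yv γ (w i) j).det : ℂ) * Jint θ (fun i => yv γ (w i))

theorem fdg_continuous (hθ : ThB θ) (γ : Fin m → Fin (m + 1) → ℝ) : Continuous (fdg θ γ) := by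
  have h0 := yv_continuous γ
  refine Continuous.mul ?_ ?_
  · refine Complex.continuous_ofReal.comp (Continuous.matrix_det ?_)
    refine continuous_pi fun i => continuous_pi fun j => ?_
    exact (continuous_apply j).comp (h0.comp (continuous_apply i))
  · refine Jint_continuous hθ _ ?_ fun _ _ _ => yv_pos _ _ _
    exact continuous_pi fun i => h0.comp (continuous_apply i)

/-- The average of the cone integral of a thin simplex. -/
def Kint (θ : (Fin (m + 1) → ℝ) → ℂ) (γ : Fin m → Fin (m + 1) → ℝ) (s : Perm (Fin m))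
    (τ : ℝ) : ℂ :=
  ∫ u in cube m, Jint θ (fun i => yv γ (u + τ • hh s i))

theorem Kint_continuous (hθ : ThB θ) (γ : Fin m → Fin (m + 1) → ℝ) (s : Perm (Fin m)) :
    Continuous (Kint θ γ s) := by
  have h : Continuous (fun p : ℝ × (Fin m → ℝ) =>
      Jint θ (fun i => yv γ (p.2 + p.1 • hh s i))) := by
    refine Jint_continuous hθ _ ?_ fun _ _ _ => yv_pos _ _ _
    have h0 := yv_continuous γ
    fun_prop
  have := continuous_parametric_integral_of_continuous (μ := (volume : Measure (Fin m → ℝ)))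
    (f := fun (τ : ℝ) (u : Fin m → ℝ) => Jint θ (fun i => yv γ (u + τ • hh s i))) h
    (isCompact_Icc (a := (0 : Fin m → ℝ)) (b := 1))
  have e : Kint θ γ s = fun τ => ∫ u in Icc (0 : Fin m → ℝ) 1,
      Jint θ (fun i => yv γ (u + τ • hh s i)) := by
    funext τ
    rw [Kint, setIntegral_cube]
  rw [e]
  exact this

theorem Kint_zero (hθ : ThB θ) (γ : Fin m → Fin (m + 1) → ℝ) (s : Perm (Fin m)) :
    Kint θ γ s 0 = ((m ! : ℕ) : ℂ)⁻¹ *
      ∫ u in cube m, ∫ r in Ioi (0 : ℝ), θ (r • yv γ u) * (r : ℂ) ^ m := by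
  rw [Kint, ← integral_const_mul]
  congr 1
  funext u
  rw [← Jint_const hθ _ (yv_pos γ u)]
  simp

theorem ZA_thin (γ : Fin m → Fin (m + 1) → ℝ) (hγ : ∀ i, ∑ j, γ i j = 0)
    (τ : ℝ) :
    ZA (avg (fdg θ γ)) (fun i => τ • (Pi.single i 1 : Fin m → ℝ)) =
      ∑ s : Perm (Fin m), ((Perm.sign s : ℤ) : ℂ) *
        (((Matrix.of fun i j => Real.exp (τ * Gam γ s i j)).det : ℂ) * Kint θ γ s τ) := by
  rw [ZA]
  simp only [Zs]
  refine Finset.sum_congr rfl fun s _ => ?_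
  congr 1
  rw [pth_smul, avg, Kint, ← integral_const_mul]
  congr 1
  funext u
  rw [fdg]
  simp only [zero_add]
  rw [det_yv γ hγ]

/-- DOC2 2.6, analytic part. -/
theorem torus_limit (hθ : ThB θ) (γ : Fin m → Fin (m + 1) → ℝ) (hγ : ∀ i, ∑ j, γ i j = 0)
    (hc : Coc univ (fdg θ γ))
    (hi : ∀ i : Fin m, Inva univ (fun x => Pi.single i 1 + x) (fdg θ γ)) :
    ∫ u in cube m, Zs actA (fun i => Multiplicative.ofAdd (Pi.single i 1 : Fin m → ℝ))
      (fdg θ γ) u =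
      ((rg γ).det : ℂ) *
        ∫ u in cube m, ∫ r in Ioi (0 : ℝ), θ (r • yv γ u) * (r : ℂ) ^ m := by
  have hcont := fdg_continuous hθ γ
  rw [← ZA_avg hcont]
  have hN : ∀ N : ℕ, 0 < N → (N : ℂ) ^ m * ZA (avg (fdg θ γ))
      (fun i => (N : ℝ)⁻¹ • (Pi.single i 1 : Fin m → ℝ)) =
      ZA (avg (fdg θ γ)) (fun i => (Pi.single i 1 : Fin m → ℝ)) := by
    intro N hN
    rw [← ZA_nsmul (avg (fdg θ γ)) (avg_coc hcont hc) (avg_inva hi)]
    congr 1
    funext i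
    have hN' : (N : ℝ) ≠ 0 := by positivity
    rw [← Nat.cast_smul_eq_nsmul ℝ, smul_smul, mul_inv_cancel₀ hN', one_smul]
  have h1 : Tendsto (fun N : ℕ => (N : ℂ) ^ m * ZA (avg (fdg θ γ))
      (fun i => (N : ℝ)⁻¹ • (Pi.single i 1 : Fin m → ℝ))) atTop
      (𝓝 (ZA (avg (fdg θ γ)) (fun i => (Pi.single i 1 : Fin m → ℝ)))) := by
    refine tendsto_const_nhds.congr' ?_
    filter_upwards [eventually_gt_atTop 0] with N h
    exact (hN N h).symm
  have h2 : Tendsto (fun N : ℕ => (N : ℂ) ^ m * ZA (avg (fdg θ γ))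
      (fun i => (N : ℝ)⁻¹ • (Pi.single i 1 : Fin m → ℝ))) atTop
      (𝓝 (∑ s : Perm (Fin m), ((Perm.sign s : ℤ) : ℂ) *
        (((((Perm.sign s : ℤ) : ℝ) * (rg γ).det : ℝ) : ℂ) * Kint θ γ s 0))) := by
    have h3 : ∀ N : ℕ, (N : ℂ) ^ m * ZA (avg (fdg θ γ))
        (fun i => (N : ℝ)⁻¹ • (Pi.single i 1 : Fin m → ℝ)) =
        ∑ s : Perm (Fin m), ((Perm.sign s : ℤ) : ℂ) *
        ((((N : ℝ) ^ m * (Matrix.of fun i j => Real.exp ((N : ℝ)⁻¹ * Gam γ s i j)).det : ℝ) : ℂ) *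
          Kint θ γ s (N : ℝ)⁻¹) := by
      intro N
      rw [ZA_thin γ hγ, Finset.mul_sum]
      refine Finset.sum_congr rfl fun s _ => ?_
      push_cast
      ring
    simp only [h3]
    refine tendsto_finsetSum _ fun s _ => ?_
    refine Tendsto.const_mul _ (Tendsto.mul ?_ ?_)
    · exact (Complex.continuous_ofReal.tendsto _).comp (tendsto_det γ s)
    · exact ((Kint_continuous hθ γ s).tendsto _).comp tendsto_inv_atTop_nhds_zero_nat
  rw [tendsto_nhds_unique h1 h2]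
  have h4 : ∀ s : Perm (Fin m), ((Perm.sign s : ℤ) : ℂ) *
        (((((Perm.sign s : ℤ) : ℝ) * (rg γ).det : ℝ) : ℂ) * Kint θ γ s 0) =
      ((m ! : ℕ) : ℂ)⁻¹ * (((rg γ).det : ℂ) *
        ∫ u in cube m, ∫ r in Ioi (0 : ℝ), θ (r • yv γ u) * (r : ℂ) ^ m) := by
    intro s
    rw [Kint_zero hθ]
    have h5 : ((Perm.sign s : ℤ) : ℂ) * ((Perm.sign s : ℤ) : ℂ) = 1 := by
      rcases Int.units_eq_one_or (Perm.sign s) with h | h <;> simp [h]
    push_cast
    linear_combination (((rg γ).det : ℂ) * (((m ! : ℕ) : ℂ)⁻¹ *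
      ∫ u in cube m, ∫ r in Ioi (0 : ℝ), θ (r • yv γ u) * (r : ℂ) ^ m)) * h5
  simp only [h4, Finset.sum_const, Finset.card_univ, Fintype.card_perm, Fintype.card_fin,
    nsmul_eq_mul]
  have h6 : ((m ! : ℕ) : ℂ) ≠ 0 := by exact_mod_cast (Nat.factorial_pos m).ne'
  rw [← mul_assoc, mul_inv_cancel₀ h6, one_mul]

end

end Pool.Agent.Lib.MP_1a91b9_nuT
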