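import Pool.Agent.Lib.MP_1a91b9_nuT.S2.Exp

/-!
# S2, 2.7: continuation of the lattice Dirichlet series by the theta integral

`n = m + 1`; `ε : Fin m → F` units of relative norm `1` with `δ (ε i z) = δ z`.
-/

set_option autoImplicit false

namespace Pool.Agent.Lib.MP_1a91b9_nuT.S2A

variable [CD]

open NumberField MeasureTheory Module

noncomputable section

universe u

variable {F : Type u} [Field F] [NumberField F] [Algebra K F] {m : ℕ}

/-- The point `y(u)` of the torus plane. -/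
def yv (σ : Fin (m + 1) → (F →ₐ[K] ℂ)) (ε : Fin m → F) (u : Fin m → ℝ) (j : Fin (m + 1)) : ℝ :=
  Real.exp (∑ i, u i * Real.log (‖σ j (ε i)‖ ^ 2))

/-- The domain `[0,1]^m × (0,∞)`. -/
def WW (m : ℕ) : Set ((Fin m → ℝ) × ℝ) := Set.Icc (0 : Fin m → ℝ) 1 ×ˢ Set.Ioi (0 : ℝ)

/-- The domain `ℝ^m × (0,∞)`. -/
def WU (m : ℕ) : Set ((Fin m → ℝ) × ℝ) := Set.univ ×ˢ Set.Ioi (0 : ℝ)

/-- The integrand for one vector `z`. -/
def fz (σ : Fin (m + 1) → (F →ₐ[K] ℂ)) (ε : Fin m → F) (s : ℂ) (z : F) (p : (Fin m → ℝ) × ℝ) : ℂ :=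
  (Real.exp (-(p.2 * ∑ j, yv σ ε p.1 j * ‖σ j z‖ ^ 2)) : ℂ) * (p.2 : ℂ) ^ ((m + 1 : ℂ) * s - 1)

/-- The inner integral of the theta function. -/
def Phi (σ : Fin (m + 1) → (F →ₐ[K] ℂ)) (ε : Fin m → F) (δ : F → ℂ) (r : ℝ) : ℂ :=
  ∫ u in Set.Icc (0 : Fin m → ℝ) 1, th σ δ (r • yv σ ε u)

/-- The continuation. -/
def gC (σ : Fin (m + 1) → (F →ₐ[K] ℂ)) (ε : Fin m → F) (δ : F → ℂ) (s : ℂ) : ℂ :=
  ((|(regM σ ε).det| : ℝ) : ℂ) * (Complex.Gamma s)⁻¹ ^ (m + 1) * mellin (Phi σ ε δ) ((m + 1 : ℂ) * s)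

end

end Pool.Agent.Lib.MP_1a91b9_nuT.S2A

/-!
# Job CNA
-/

set_option autoImplicit false

namespace Pool.Agent.Lib.MP_1a91b9_nuT.S2A

variable [CD]

open NumberField MeasureTheory Module

noncomputable section

universe u

variable {F : Type u} [Field F] [NumberField F] [Algebra K F] {m : ℕ}

theorem cna_le (σ : Fin (m + 1) → (F →ₐ[K] ℂ)) (ε : Fin m → F) (u : Fin m → ℝ)
    (hu : u ∈ Set.Icc (0 : Fin m → ℝ) 1) (j : Fin (m + 1)) :
    |∑ i, u i * Real.log (‖σ j (ε i)‖ ^ 2)| ≤ ∑ j, ∑ i, |Real.log (‖σ j (ε i)‖ ^ 2)| := by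
  have h1 : |∑ i, u i * Real.log (‖σ j (ε i)‖ ^ 2)| ≤ ∑ i, |Real.log (‖σ j (ε i)‖ ^ 2)| := by
    refine (Finset.abs_sum_le_sum_abs _ _).trans (Finset.sum_le_sum fun i _ => ?_)
    rw [abs_mul]
    have h2 : |u i| ≤ 1 := by
      rw [abs_of_nonneg (hu.1 i)]
      exact hu.2 i
    calc |u i| * |Real.log (‖σ j (ε i)‖ ^ 2)| ≤ 1 * |Real.log (‖σ j (ε i)‖ ^ 2)| :=
          mul_le_mul_of_nonneg_right h2 (abs_nonneg _)
      _ = _ := one_mul _
  refine h1.trans ?_
  exact Finset.single_le_sum (f := fun j => ∑ i, |Real.log (‖σ j (ε i)‖ ^ 2)|)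
    (fun j _ => Finset.sum_nonneg fun i _ => abs_nonneg _) (Finset.mem_univ j)

/-- JOB CNA. -/
theorem yv_pos (σ : Fin (m + 1) → (F →ₐ[K] ℂ)) (ε : Fin m → F) (u : Fin m → ℝ)
    (j : Fin (m + 1)) : 0 < yv σ ε u j := by
  exact Real.exp_pos _

/-- JOB CNA. -/
theorem continuous_yv (σ : Fin (m + 1) → (F →ₐ[K] ℂ)) (ε : Fin m → F) :
    Continuous fun u => yv σ ε u := by
  unfold yv
  fun_prop

/-- JOB CNA. -/
theorem yv_bounds (σ : Fin (m + 1) → (F →ₐ[K] ℂ)) (ε : Fin m → F) :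
    ∃ a b : ℝ, 0 < a ∧ ∀ u ∈ Set.Icc (0 : Fin m → ℝ) 1, ∀ j, a ≤ yv σ ε u j ∧ yv σ ε u j ≤ b := by
  refine ⟨Real.exp (-∑ j, ∑ i, |Real.log (‖σ j (ε i)‖ ^ 2)|),
    Real.exp (∑ j, ∑ i, |Real.log (‖σ j (ε i)‖ ^ 2)|), Real.exp_pos _, fun u hu j => ?_⟩
  have h1 := abs_le.1 (cna_le σ ε u hu j)
  exact ⟨Real.exp_le_exp.2 h1.1, Real.exp_le_exp.2 h1.2⟩

/-- JOB CNA. `y(u + k) = y(u) |σ(ε^k)|²` for integral `k`. -/
theorem yv_add (σ : Fin (m + 1) → (F →ₐ[K] ℂ)) (ε : Fin m → F) (hε : ∀ i, ε i ≠ 0)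
    (u : Fin m → ℝ) (k : Fin m → ℤ) (j : Fin (m + 1)) :
    yv σ ε (u + fun i => (k i : ℝ)) j = yv σ ε u j * ‖σ j (∏ i, ε i ^ k i)‖ ^ 2 := by
  have hne : ∀ i, 0 < ‖σ j (ε i)‖ ^ 2 := by
    intro i
    have h1 : σ j (ε i) ≠ 0 := (map_ne_zero (σ j)).2 (hε i)
    positivity
  unfold yv
  have h1 : ∑ i, (u + fun i => (k i : ℝ)) i * Real.log (‖σ j (ε i)‖ ^ 2) =
      ∑ i, u i * Real.log (‖σ j (ε i)‖ ^ 2) + ∑ i, (k i : ℝ) * Real.log (‖σ j (ε i)‖ ^ 2) := by
    rw [← Finset.sum_add_distrib]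
    refine Finset.sum_congr rfl fun i _ => ?_
    rw [Pi.add_apply, add_mul]
  rw [h1, Real.exp_add]
  congr 1
  rw [Real.exp_sum, map_prod, norm_prod, ← Finset.prod_pow]
  refine Finset.prod_congr rfl fun i _ => ?_
  rw [mul_comm, ← Real.rpow_def_of_pos (hne i), Real.rpow_intCast, map_zpow₀, norm_zpow,
    ← zpow_natCast, ← zpow_natCast, ← zpow_mul, ← zpow_mul, mul_comm]

/-- JOB CNA. `∑ j log |σ_j ε_i|² = 0` since the relative norm is `1` (`NF_eq`). -/
theorem sum_log (σ : Fin (m + 1) → (F →ₐ[K] ℂ)) (hσ : Function.Bijective σ) (ε : F)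
    (hN : Algebra.norm K ε = 1) : ∑ j, Real.log (‖σ j ε‖ ^ 2) = 0 := by
  have hε : ε ≠ 0 := by
    rintro rfl
    rw [Algebra.norm_zero] at hN
    exact zero_ne_one hN
  have h1 : ∀ j ∈ Finset.univ, ‖σ j ε‖ ^ 2 ≠ 0 := by
    intro j _
    have h2 : σ j ε ≠ 0 := (map_ne_zero (σ j)).2 hε
    positivity
  rw [← Real.log_prod h1, Finset.prod_pow, ← norm_prod, ← NF_eq σ hσ ε, NF, hN, map_one, norm_one,
    one_pow, Real.log_one]

end

end Pool.Agent.Lib.MP_1a91b9_nuT.S2A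

/-!
# Job CNB
-/

set_option autoImplicit false

namespace Pool.Agent.Lib.MP_1a91b9_nuT.S2A

variable [CD]

open NumberField MeasureTheory Module

noncomputable section

universe u

variable {F : Type u} [Field F] [NumberField F] [Algebra K F] {m : ℕ}

/-- Auxiliary for `gamma_line`: the integrand as a pullback along `exp`. -/
private theorem CNB_pull (a : ℝ) (s : ℂ) (x : ℝ) :
    |Real.exp x| • (((Real.exp x : ℝ) : ℂ) ^ (s - 1)
        * Complex.exp (-((a : ℂ) * ((Real.exp x : ℝ) : ℂ)))) =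
      (Real.exp (-(a * Real.exp x)) : ℂ) * Complex.exp (s * x) := by
  have hx : ((Real.exp x : ℝ) : ℂ) ≠ 0 := Complex.ofReal_ne_zero.2 (Real.exp_pos x).ne'
  have h1 : ((Real.exp x : ℝ) : ℂ) ^ (s - 1) = Complex.exp (x * (s - 1)) := by
    rw [Complex.cpow_def_of_ne_zero hx, ← Complex.ofReal_log (Real.exp_pos x).le, Real.log_exp]
  rw [abs_of_pos (Real.exp_pos x), Complex.real_smul, h1]
  have h2 : ((Real.exp x : ℝ) : ℂ) = Complex.exp x := Complex.ofReal_exp x
  have h3 : ((Real.exp (-(a * Real.exp x)) : ℝ) : ℂ)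
      = Complex.exp (-((a : ℂ) * ((Real.exp x : ℝ) : ℂ))) := by
    rw [Complex.ofReal_exp]; push_cast; rfl
  rw [h3, ← mul_assoc]
  rw [h2, ← Complex.exp_add, mul_comm]
  congr 2
  ring

private theorem CNB_int (a : ℝ) (ha : 0 < a) (s : ℂ) (hs : 0 < s.re) :
    IntegrableOn (fun t : ℝ => (t : ℂ) ^ (s - 1) * Complex.exp (-((a : ℂ) * (t : ℂ))))
      (Set.Ioi 0) := by
  have h0 := Complex.GammaIntegral_convergent hs
  have h1 := (integrableOn_Ioi_comp_mul_left_iff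
    (fun x : ℝ => ((-x).exp : ℂ) * (x : ℂ) ^ (s - 1)) 0 ha).2 (by simpa using h0)
  have h2 := Integrable.const_mul h1 (((a : ℂ) ^ (s - 1))⁻¹)
  refine IntegrableOn.congr_fun h2 ?_ measurableSet_Ioi
  intro t ht
  have ht0 : (0:ℝ) < t := ht
  have hac : ((a : ℂ) ^ (s - 1)) ≠ 0 := by
    rw [Complex.cpow_ne_zero_iff]
    left
    exact Complex.ofReal_ne_zero.2 ha.ne'
  simp only
  rw [Complex.ofReal_mul, Complex.mul_cpow_ofReal_nonneg ha.le ht0.le, Complex.ofReal_exp]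
  push_cast
  field_simp

/-- JOB CNB. One dimensional: `∫ exp (-a e^x) e^{s x} dx = Γ(s) a^{-s}` over the real line
(substitution `t = e^x` in `Complex.integral_cpow_mul_exp_neg_mul_Ioi`;
`integral_image_eq_integral_abs_deriv_smul`), with integrability. -/
theorem gamma_line (a : ℝ) (ha : 0 < a) (s : ℂ) (hs : 0 < s.re) :
    Integrable (fun x : ℝ => (Real.exp (-(a * Real.exp x)) : ℂ) * Complex.exp (s * x)) ∧
    ∫ x : ℝ, (Real.exp (-(a * Real.exp x)) : ℂ) * Complex.exp (s * x) =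
      Complex.Gamma s * (a : ℂ) ^ (-s) := by
  have hd : ∀ x ∈ (Set.univ : Set ℝ), HasDerivWithinAt Real.exp (Real.exp x) Set.univ x :=
    fun x _ => (Real.hasDerivAt_exp x).hasDerivWithinAt
  have hinj : Set.InjOn Real.exp (Set.univ : Set ℝ) := Real.exp_injective.injOn
  have him : Real.exp '' (Set.univ : Set ℝ) = Set.Ioi 0 := by
    rw [Set.image_univ, Real.range_exp]
  have e1 := (integrableOn_image_iff_integrableOn_abs_deriv_smul MeasurableSet.univ hd hinj
    (fun t : ℝ => (t : ℂ) ^ (s - 1) * Complex.exp (-((a : ℂ) * (t : ℂ)))))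
  have e2 := integral_image_eq_integral_abs_deriv_smul MeasurableSet.univ hd hinj
    (fun t : ℝ => (t : ℂ) ^ (s - 1) * Complex.exp (-((a : ℂ) * (t : ℂ))))
  rw [him] at e1 e2
  constructor
  · have h := e1.1 (CNB_int a ha s hs)
    rw [integrableOn_univ] at h
    refine h.congr (Filter.Eventually.of_forall fun x => ?_)
    exact CNB_pull a s x
  · rw [Complex.integral_cpow_mul_exp_neg_mul_Ioi hs ha, setIntegral_univ] at e2
    rw [show (∫ x : ℝ, (Real.exp (-(a * Real.exp x)) : ℂ) * Complex.exp (s * x))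
      = ∫ x : ℝ, |Real.exp x| • (((Real.exp x : ℝ) : ℂ) ^ (s - 1)
        * Complex.exp (-((a : ℂ) * ((Real.exp x : ℝ) : ℂ)))) from
      integral_congr_ae (Filter.Eventually.of_forall fun x => (CNB_pull a s x).symm), ← e2,
      mul_comm, Complex.cpow_neg, one_div]
    congr 1
    rw [Complex.inv_cpow]
    rw [Complex.arg_ofReal_of_nonneg ha.le]
    exact Real.pi_pos.ne

/-- JOB CNB. The product over the coordinates (`integral_fintype_prod_eq_prod`,
`Integrable.fintype_prod`). -/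
theorem gamma_space {N : ℕ} (a : Fin N → ℝ) (ha : ∀ j, 0 < a j) (s : ℂ) (hs : 0 < s.re) :
    Integrable (fun x : Fin N → ℝ =>
      (Real.exp (-∑ j, a j * Real.exp (x j)) : ℂ) * Complex.exp (s * ∑ j, x j)) ∧
    ∫ x : Fin N → ℝ, (Real.exp (-∑ j, a j * Real.exp (x j)) : ℂ) * Complex.exp (s * ∑ j, x j) =
      Complex.Gamma s ^ N * ∏ j, (a j : ℂ) ^ (-s) := by
  have e : (fun x : Fin N → ℝ =>
      (Real.exp (-∑ j, a j * Real.exp (x j)) : ℂ) * Complex.exp (s * ∑ j, x j)) =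
      fun x : Fin N → ℝ => ∏ j, ((Real.exp (-(a j * Real.exp (x j))) : ℂ)
        * Complex.exp (s * x j)) := by
    funext x
    rw [Finset.prod_mul_distrib, ← Complex.exp_sum, ← Finset.mul_sum, ← Complex.ofReal_prod,
      ← Real.exp_sum, Finset.sum_neg_distrib, Complex.ofReal_sum]
  constructor
  · rw [e]
    exact Integrable.fintype_prod fun j => (gamma_line (a j) (ha j) s hs).1
  · rw [e, integral_fintype_prod_volume_eq_prod
      (fun j (x : ℝ) => (Real.exp (-(a j * Real.exp x)) : ℂ) * Complex.exp (s * x))]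
    rw [Finset.prod_congr rfl fun j _ => (gamma_line (a j) (ha j) s hs).2,
      Finset.prod_mul_distrib, Finset.prod_const, Finset.card_univ, Fintype.card_fin]

end

end Pool.Agent.Lib.MP_1a91b9_nuT.S2A

/-!
# Job CNC
-/

set_option autoImplicit false

namespace Pool.Agent.Lib.MP_1a91b9_nuT.S2A

variable [CD]

open NumberField MeasureTheory Module

noncomputable section

universe u

variable {F : Type u} [Field F] [NumberField F] [Algebra K F] {m : ℕ}

theorem cnc_inj {N : ℕ} (M : Matrix (Fin N) (Fin N) ℝ) (hM : M.det ≠ 0) :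
    Function.Injective (Matrix.toLin' M.transpose) := by
  intro v w hvw
  rw [Matrix.toLin'_apply, Matrix.toLin'_apply, Matrix.mulVec_transpose, Matrix.mulVec_transpose] at hvw
  have h1 := congrArg (fun x => Matrix.vecMul x M⁻¹) hvw
  simp only [Matrix.vecMul_vecMul, Matrix.mul_nonsing_inv M (isUnit_iff_ne_zero.2 hM),
    Matrix.vecMul_one] at h1
  exact h1

/-- JOB CNC. Linear change of variables `x = v ᵥ* M` on `ℝ^{m+1}` (`MeasureTheory` /
`Real.map_matrix_volume_pi_eq_smul_volume_pi` for the transposed matrix). -/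
theorem linear_change {N : ℕ} (M : Matrix (Fin N) (Fin N) ℝ) (hM : M.det ≠ 0)
    (h : (Fin N → ℝ) → ℂ) (hh : Integrable h) :
    Integrable (fun v => h (Matrix.vecMul v M)) ∧
    ((|M.det| : ℝ) : ℂ) * ∫ v, h (Matrix.vecMul v M) = ∫ x, h x := by
  have hMt : M.transpose.det ≠ 0 := by rwa [Matrix.det_transpose]
  have hmap := Real.map_matrix_volume_pi_eq_smul_volume_pi hMt
  rw [Matrix.det_transpose] at hmap
  have hLv : ∀ v, Matrix.toLin' M.transpose v = Matrix.vecMul v M := fun v => by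
    rw [Matrix.toLin'_apply, Matrix.mulVec_transpose]
  have hemb : MeasurableEmbedding (Matrix.toLin' M.transpose) :=
    (Matrix.toLin' M.transpose).continuous_of_finiteDimensional.measurableEmbedding (cnc_inj M hM)
  have hint : Integrable h (Measure.map (Matrix.toLin' M.transpose) volume) := by
    rw [hmap]
    exact hh.smul_measure ENNReal.ofReal_ne_top
  have h1 := hemb.integrable_map_iff.1 hint
  have h2 := hemb.integral_map (μ := volume) h
  simp only [hLv] at h2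
  rw [hmap, integral_smul_measure, ENNReal.toReal_ofReal (abs_nonneg _)] at h2
  refine ⟨?_, ?_⟩
  · refine h1.congr (Filter.Eventually.of_forall fun v => ?_)
    show h (Matrix.toLin' M.transpose v) = _
    rw [hLv]
  · rw [← h2, Complex.real_smul, ← mul_assoc, ← Complex.ofReal_mul, abs_inv,
      mul_inv_cancel₀ (abs_ne_zero.2 hM), Complex.ofReal_one, one_mul]

theorem cnc_cons {m : ℕ} (q : ℝ × (Fin m → ℝ)) :
    (MeasurableEquiv.piFinSuccAbove (fun _ : Fin (m + 1) => ℝ) 0).symm q = Fin.cons q.1 q.2 :=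
  Fin.insertNth_zero' q.1 q.2

theorem cnc_G {m : ℕ} (h : (Fin (m + 1) → ℝ) → ℂ) (hh : Integrable h) :
    Integrable (fun p : (Fin m → ℝ) × ℝ => h (Fin.cons p.2 p.1)) ∧
    ∫ p : (Fin m → ℝ) × ℝ, h (Fin.cons p.2 p.1) = ∫ x, h x := by
  have he := (volume_preserving_piFinSuccAbove (fun _ : Fin (m + 1) => ℝ) 0).symm
    (MeasurableEquiv.piFinSuccAbove (fun _ : Fin (m + 1) => ℝ) 0)
  have hme := (MeasurableEquiv.piFinSuccAbove (fun _ : Fin (m + 1) => ℝ) 0).symm.measurableEmbedding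
  have h1 : Integrable (fun q : ℝ × (Fin m → ℝ) => h (Fin.cons q.1 q.2)) := by
    have h2 := (he.integrable_comp_emb hme).2 hh
    refine h2.congr (Filter.Eventually.of_forall fun q => ?_)
    show h _ = _
    rw [cnc_cons]
  have h3 : ∫ q : ℝ × (Fin m → ℝ), h (Fin.cons q.1 q.2) = ∫ x, h x := by
    rw [← he.integral_comp hme h]
    refine integral_congr_ae (Filter.Eventually.of_forall fun q => ?_)
    show _ = h _
    rw [cnc_cons]
  refine ⟨?_, ?_⟩
  · exact h1.swap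
  · rw [← h3]
    exact integral_prod_swap (fun q : ℝ × (Fin m → ℝ) => h (Fin.cons q.1 q.2))

/-- the derivative of `(u, r) ↦ (u, log r)` -/
def cncD (m : ℕ) (p : (Fin m → ℝ) × ℝ) : ((Fin m → ℝ) × ℝ) →L[ℝ] ((Fin m → ℝ) × ℝ) :=
  (ContinuousLinearMap.id ℝ (Fin m → ℝ)).prodMap (ContinuousLinearMap.toSpanSingleton ℝ (p.2)⁻¹)

theorem cnc_det {m : ℕ} (p : (Fin m → ℝ) × ℝ) : (cncD m p).det = (p.2)⁻¹ := by
  rw [cncD, ContinuousLinearMap.det, ContinuousLinearMap.coe_prodMap, LinearMap.det_prodMap,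
    ContinuousLinearMap.coe_id, LinearMap.det_id, one_mul, LinearMap.det_ring]
  simp

theorem cnc_deriv {m : ℕ} (p : (Fin m → ℝ) × ℝ) (hp : p ∈ WU m) :
    HasFDerivWithinAt (fun p : (Fin m → ℝ) × ℝ => (p.1, Real.log p.2)) (cncD m p) (WU m) p := by
  have hp2 : p.2 ≠ 0 := ne_of_gt hp.2
  have h1 : HasFDerivAt (Prod.map id Real.log) (cncD m p) p :=
    HasFDerivAt.prodMap p (hasFDerivAt_id p.1) (Real.hasDerivAt_log hp2).hasFDerivAt
  exact h1.hasFDerivWithinAt

theorem cnc_injOn (m : ℕ) :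
    Set.InjOn (fun p : (Fin m → ℝ) × ℝ => (p.1, Real.log p.2)) (WU m) := by
  intro p hp q hq hpq
  rw [Prod.mk.injEq] at hpq
  exact Prod.ext hpq.1 (Real.log_injOn_pos hp.2 hq.2 hpq.2)

theorem cnc_image (m : ℕ) :
    (fun p : (Fin m → ℝ) × ℝ => (p.1, Real.log p.2)) '' (WU m) = Set.univ := by
  refine Set.eq_univ_of_forall fun p => ?_
  exact ⟨(p.1, Real.exp p.2), ⟨Set.mem_univ _, Real.exp_pos _⟩, Prod.ext rfl (Real.log_exp _)⟩

theorem cnc_haar (m : ℕ) : (volume : Measure ((Fin m → ℝ) × ℝ)).IsAddHaarMeasure := by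
  have h1 : ((volume : Measure (Fin m → ℝ)).prod (volume : Measure ℝ)).IsAddHaarMeasure :=
    inferInstance
  exact h1

theorem cnc_fun {m : ℕ} (h : (Fin (m + 1) → ℝ) → ℂ) (p : (Fin m → ℝ) × ℝ) (hp : p ∈ WU m) :
    |(cncD m p).det| • h (Fin.cons (Real.log p.2) p.1) =
      h (Fin.cons (Real.log p.2) p.1) * ((p.2 : ℂ)⁻¹) := by
  have hp2 : 0 < p.2 := hp.2
  rw [cnc_det, abs_of_pos (inv_pos.2 hp2), Complex.real_smul, Complex.ofReal_inv, mul_comm]

/-- JOB CNC. Splitting `ℝ^{m+1} = ℝ^m × ℝ` and the substitution `ρ = log r`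
(`MeasurableEquiv.piFinSuccAbove`, `volume_preserving_piFinSuccAbove`, `Fin.cons`; Fubini;
`integral_image_eq_integral_abs_deriv_smul` with `exp`, fibrewise or on the product). -/
theorem split_log {m : ℕ} (h : (Fin (m + 1) → ℝ) → ℂ) (hh : Integrable h) :
    IntegrableOn (fun p : (Fin m → ℝ) × ℝ =>
      h (Fin.cons (Real.log p.2) p.1) * ((p.2 : ℂ)⁻¹)) (WU m) ∧
    ∫ p in WU m, h (Fin.cons (Real.log p.2) p.1) * ((p.2 : ℂ)⁻¹) = ∫ x, h x := by
  have := cnc_haar m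
  obtain ⟨hG1, hG2⟩ := cnc_G h hh
  have hs : MeasurableSet (WU m) := MeasurableSet.univ.prod measurableSet_Ioi
  refine ⟨?_, ?_⟩
  · have h1 := (integrableOn_image_iff_integrableOn_abs_det_fderiv_smul volume hs cnc_deriv
      (cnc_injOn m) (fun p : (Fin m → ℝ) × ℝ => h (Fin.cons p.2 p.1))).1 (by
        rw [cnc_image]
        exact hG1.integrableOn)
    exact h1.congr_fun (fun p hp => cnc_fun h p hp) hs
  · have h2 := integral_image_eq_integral_abs_det_fderiv_smul volume hs cnc_deriv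
      (cnc_injOn m) (fun p : (Fin m → ℝ) × ℝ => h (Fin.cons p.2 p.1))
    rw [cnc_image, setIntegral_univ, hG2] at h2
    rw [h2]
    exact (setIntegral_congr_fun hs (fun p hp => cnc_fun h p hp)).symm

end

end Pool.Agent.Lib.MP_1a91b9_nuT.S2A

/-!
# Job CND
-/

set_option autoImplicit false

namespace Pool.Agent.Lib.MP_1a91b9_nuT.S2A

variable [CD]

open NumberField MeasureTheory Module

noncomputable section

universe u

variable {F : Type u} [Field F] [NumberField F] [Algebra K F] {m : ℕ}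

theorem CND_cpow {r : ℝ} (hr : 0 < r) (w : ℂ) : (r : ℂ) ^ w = Complex.exp (Real.log r * w) := by
  rw [Complex.cpow_def_of_ne_zero (by exact_mod_cast hr.ne'), Complex.ofReal_log hr.le]

theorem CND_vm (σ : Fin (m + 1) → (F →ₐ[K] ℂ)) (ε : Fin m → F) (ρ : ℝ) (u : Fin m → ℝ)
    (j : Fin (m + 1)) : Matrix.vecMul (Fin.cons ρ u) (regM σ ε) j =
      ρ + ∑ i, u i * Real.log (‖σ j (ε i)‖ ^ 2) := by
  simp only [Matrix.vecMul, dotProduct, Fin.sum_univ_succ, regM, Matrix.of_apply, Fin.cons_zero,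
    Fin.cons_succ, mul_one]

/-- JOB CND. The torus integral of one exponential.
Proof: `gamma_space` with `N = m + 1`, `linear_change` with `M = regM σ ε`, `split_log`; for
`v = Fin.cons ρ u`: `(v ᵥ* M) j = ρ + ∑ u_i log ‖σ_j ε_i‖²`, `∑ j (v ᵥ* M) j = (m+1) ρ`
(`sum_log`), `exp ((v ᵥ* M) j) = r * yv u j` for `ρ = log r`,
`exp (s (m+1) log r) * r⁻¹ = r ^ ((m+1) s - 1)`. -/
theorem torus_integral (σ : Fin (m + 1) → (F →ₐ[K] ℂ)) (hσ : Function.Bijective σ) (ε : Fin m → F)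
    (hN : ∀ i, Algebra.norm K (ε i) = 1) (hdet : (regM σ ε).det ≠ 0) (z : F) (hz : z ≠ 0)
    (s : ℂ) (hs : 0 < s.re) :
    IntegrableOn (fz σ ε s z) (WU m) ∧
    ((|(regM σ ε).det| : ℝ) : ℂ) * ∫ p in WU m, fz σ ε s z p =
      Complex.Gamma s ^ (m + 1) * (‖NF z‖ : ℂ) ^ (-2 * s) := by
  have hz' : ∀ j, 0 < ‖σ j z‖ := fun j => norm_pos_iff.2 (by
    rw [ne_eq, map_eq_zero]
    exact hz)
  have hz2 : ∀ j, 0 < ‖σ j z‖ ^ 2 := fun j => pow_pos (hz' j) 2
  obtain ⟨g1, g2⟩ := gamma_space (N := m + 1) (fun j => ‖σ j z‖ ^ 2) hz2 s hs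
  obtain ⟨l1, l2⟩ := linear_change (regM σ ε) hdet _ g1
  obtain ⟨s1, s2⟩ := split_log _ l1
  have hmeas : MeasurableSet (WU m) := MeasurableSet.univ.prod measurableSet_Ioi
  have key : Set.EqOn (fun p : (Fin m → ℝ) × ℝ =>
      ((Real.exp (-∑ j, ‖σ j z‖ ^ 2 * Real.exp
        (Matrix.vecMul (Fin.cons (Real.log p.2) p.1) (regM σ ε) j)) : ℂ) *
        Complex.exp (s * ((∑ j, Matrix.vecMul (Fin.cons (Real.log p.2) p.1) (regM σ ε) j : ℝ) : ℂ)))
        * ((p.2 : ℂ)⁻¹)) (fz σ ε s z) (WU m) := by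
    rintro ⟨u, r⟩ hp
    have hr : 0 < r := hp.2
    have h1 : ∀ j, Real.exp (Matrix.vecMul (Fin.cons (Real.log r) u) (regM σ ε) j) =
        r * yv σ ε u j := by
      intro j
      rw [CND_vm, Real.exp_add, Real.exp_log hr]
      rfl
    have h2 : ∑ j, Matrix.vecMul (Fin.cons (Real.log r) u) (regM σ ε) j = (m + 1) * Real.log r := by
      simp only [CND_vm]
      rw [Finset.sum_add_distrib, Finset.sum_const, Finset.card_univ, Fintype.card_fin,
        Finset.sum_comm]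
      have h3 : ∀ i, ∑ j, u i * Real.log (‖σ j (ε i)‖ ^ 2) = 0 := by
        intro i
        rw [← Finset.mul_sum, sum_log σ hσ (ε i) (hN i), mul_zero]
      rw [Finset.sum_congr rfl fun i _ => h3 i, Finset.sum_const_zero, add_zero, nsmul_eq_mul]
      push_cast
      ring
    have h4 : ∑ j, ‖σ j z‖ ^ 2 * (r * yv σ ε u j) = r * ∑ j, yv σ ε u j * ‖σ j z‖ ^ 2 := by
      rw [Finset.mul_sum]
      refine Finset.sum_congr rfl fun j _ => ?_
      ring
    show ((Real.exp (-∑ j, ‖σ j z‖ ^ 2 * Real.exp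
        (Matrix.vecMul (Fin.cons (Real.log r) u) (regM σ ε) j)) : ℂ) *
        Complex.exp (s * ((∑ j, Matrix.vecMul (Fin.cons (Real.log r) u) (regM σ ε) j : ℝ) : ℂ)))
        * ((r : ℂ)⁻¹) = (Real.exp (-(r * ∑ j, yv σ ε u j * ‖σ j z‖ ^ 2)) : ℂ) *
          (r : ℂ) ^ ((m + 1 : ℂ) * s - 1)
    rw [h2, Finset.sum_congr rfl fun j _ => by rw [h1 j], h4, mul_assoc]
    congr 1
    have h5 : (r : ℂ)⁻¹ = Complex.exp (-(Real.log r : ℂ)) := by
      rw [← Complex.ofReal_neg, ← Complex.ofReal_exp, Real.exp_neg, Real.exp_log hr,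
        Complex.ofReal_inv]
    rw [h5, ← Complex.exp_add, CND_cpow hr]
    congr 1
    push_cast
    ring
  refine ⟨s1.congr_fun key hmeas, ?_⟩
  rw [← setIntegral_congr_fun hmeas key]
  have s2' := congrArg (fun w : ℂ => ((|(regM σ ε).det| : ℝ) : ℂ) * w) s2
  refine s2'.trans (l2.trans (g2.trans ?_))
  congr 1
  have hNF : ‖NF z‖ = ∏ j, ‖σ j z‖ := by
    rw [NF_eq σ hσ, norm_prod]
  have hNFp : 0 < ‖NF z‖ := by
    rw [hNF]
    exact Finset.prod_pos fun j _ => hz' j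
  rw [CND_cpow hNFp, hNF, Real.log_prod (fun j _ => (hz' j).ne')]
  rw [Finset.prod_congr rfl fun j _ => CND_cpow (hz2 j) (-s), ← Complex.exp_sum]
  congr 1
  rw [Complex.ofReal_sum, Finset.sum_mul]
  refine Finset.sum_congr rfl fun j _ => ?_
  rw [Real.log_pow]
  push_cast
  ring

end

end Pool.Agent.Lib.MP_1a91b9_nuT.S2A

/-!
# Job CNE
-/

set_option autoImplicit false

namespace Pool.Agent.Lib.MP_1a91b9_nuT.S2A

variable [CD]

open NumberField MeasureTheory Module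

noncomputable section

universe u

variable {F : Type u} [Field F] [NumberField F] [Algebra K F] {m : ℕ}

/-- The half open cubes. -/
private def cneC (m : ℕ) (k : Fin m → ℤ) : Set ((Fin m → ℝ) × ℝ) :=
  (Set.univ.pi fun i => Set.Ico (k i : ℝ) (k i + 1)) ×ˢ Set.Ioi (0 : ℝ)

private theorem cne_meas (m : ℕ) (k : Fin m → ℤ) : MeasurableSet (cneC m k) :=
  (MeasurableSet.univ_pi fun _ => measurableSet_Ico).prod measurableSet_Ioi

private theorem cne_disj (m : ℕ) : Pairwise (Function.onFun Disjoint (cneC m)) := by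
  intro k l hkl
  rw [Function.onFun, Set.disjoint_left]
  intro p hp hq
  apply hkl
  funext i
  have h1 := hp.1 i (Set.mem_univ i)
  have h2 := hq.1 i (Set.mem_univ i)
  have h3 : ⌊p.1 i⌋ = k i := Int.floor_eq_iff.2 ⟨h1.1, h1.2⟩
  have h4 : ⌊p.1 i⌋ = l i := Int.floor_eq_iff.2 ⟨h2.1, h2.2⟩
  rw [← h3, h4]

private theorem cne_union (m : ℕ) : ⋃ k, cneC m k = WU m := by
  ext p
  rw [Set.mem_iUnion]
  constructor
  · rintro ⟨k, hk⟩
    exact ⟨Set.mem_univ _, hk.2⟩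
  · intro hp
    refine ⟨fun i => ⌊p.1 i⌋, fun i _ => ⟨Int.floor_le _, Int.lt_floor_add_one _⟩, hp.2⟩

private theorem cne_ae (m : ℕ) : (cneC m 0 : Set ((Fin m → ℝ) × ℝ)) =ᵐ[volume] WW m := by
  have h1 : (Set.univ.pi fun i : Fin m => Set.Ico (((0 : Fin m → ℤ) i : ℤ) : ℝ)
      (((0 : Fin m → ℤ) i : ℤ) + 1))
      =ᵐ[(volume : Measure (Fin m → ℝ))] Set.Icc (0 : Fin m → ℝ) 1 := by
    have h2 := Measure.univ_pi_Ico_ae_eq_Icc (μ := fun _ : Fin m => (volume : Measure ℝ))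
      (f := (0 : Fin m → ℝ)) (g := (1 : Fin m → ℝ))
    simp only [Pi.zero_apply, Pi.one_apply] at h2
    simp only [Pi.zero_apply, Int.cast_zero, zero_add]
    exact h2
  exact Measure.set_prod_ae_eq h1 (Filter.EventuallyEq.refl _ _)

/-- JOB CNE. Unfolding `ℝ^m = ⋃ (k + [0,1]^m)`.
Proof: `ℝ^m × (0,∞)` is the disjoint union over `k : Fin m → ℤ` of
`{(u, r) | k ≤ u < k + 1}` (coordinatewise, floor), `hasSum_integral_iUnion`; translation by `k`
preserves the measure; `[0,1)^m` and `[0,1]^m` differ by a null set. -/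
theorem unfold_cubes {m : ℕ} (H : (Fin m → ℝ) × ℝ → ℂ) (hH : IntegrableOn H (WU m)) :
    HasSum (fun k : Fin m → ℤ => ∫ p in WW m, H (p.1 + (fun i => (k i : ℝ)), p.2))
      (∫ p in WU m, H p) := by
  rw [← cne_union] at hH ⊢
  have h1 := hasSum_integral_iUnion (cne_meas m) (cne_disj m) hH
  have h2 : (fun k : Fin m → ℤ => ∫ p in WW m, H (p.1 + (fun i => (k i : ℝ)), p.2))
      = fun k => ∫ p in cneC m k, H p := by
    funext k
    rw [setIntegral_congr_set (cne_ae m).symm]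
    have hinv : (volume : Measure ((Fin m → ℝ) × ℝ)).IsAddLeftInvariant :=
      Measure.prod.instIsAddLeftInvariant
    have hmp := measurePreserving_add_left (volume : Measure ((Fin m → ℝ) × ℝ))
      ((fun i => (k i : ℝ), 0) : (Fin m → ℝ) × ℝ)
    have hemb := measurableEmbedding_addLeft ((fun i => (k i : ℝ), 0) : (Fin m → ℝ) × ℝ)
    rw [← hmp.setIntegral_preimage_emb hemb H (cneC m k)]
    have hset : (fun x : (Fin m → ℝ) × ℝ => ((fun i => (k i : ℝ), 0) : (Fin m → ℝ) × ℝ) + x) ⁻¹'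
        cneC m k = cneC m 0 := by
      ext p
      constructor
      · intro hp
        refine ⟨fun i _ => ?_, ?_⟩
        · have h3 := hp.1 i (Set.mem_univ i)
          change (k i : ℝ) + p.1 i ∈ Set.Ico (k i : ℝ) (k i + 1) at h3
          show p.1 i ∈ Set.Ico (((0 : Fin m → ℤ) i : ℤ) : ℝ) (((0 : Fin m → ℤ) i : ℤ) + 1)
          simp only [Pi.zero_apply, Int.cast_zero, zero_add]
          exact ⟨by linarith [h3.1], by linarith [h3.2]⟩
        · have h3 := hp.2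
          change 0 + p.2 ∈ Set.Ioi (0 : ℝ) at h3
          rwa [zero_add] at h3
      · intro hp
        refine ⟨fun i _ => ?_, ?_⟩
        · have h3 := hp.1 i (Set.mem_univ i)
          simp only [Pi.zero_apply, Int.cast_zero, zero_add] at h3
          show (k i : ℝ) + p.1 i ∈ Set.Ico (k i : ℝ) (k i + 1)
          exact ⟨by linarith [h3.1], by linarith [h3.2]⟩
        · show 0 + p.2 ∈ Set.Ioi (0 : ℝ)
          rw [zero_add]
          exact hp.2
    rw [hset]
    refine integral_congr_ae (Filter.Eventually.of_forall fun p => ?_)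
    show H (p.1 + (fun i => (k i : ℝ)), p.2) = H ((fun i => (k i : ℝ)) + p.1, 0 + p.2)
    rw [zero_add, add_comm]
  rw [h2]
  exact h1

/-- JOB CNE. `f_z (u + k, r) = f_{ε^k z} (u, r)` (`yv_add`). -/
theorem fz_add (σ : Fin (m + 1) → (F →ₐ[K] ℂ)) (ε : Fin m → F) (hε : ∀ i, ε i ≠ 0) (s : ℂ) (z : F)
    (k : Fin m → ℤ) (p : (Fin m → ℝ) × ℝ) :
    fz σ ε s z (p.1 + (fun i => (k i : ℝ)), p.2) = fz σ ε s ((∏ i, ε i ^ k i) * z) p := by
  have h1 : ∑ j, yv σ ε (p.1 + (fun i => (k i : ℝ))) j * ‖σ j z‖ ^ 2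
      = ∑ j, yv σ ε p.1 j * ‖σ j ((∏ i, ε i ^ k i) * z)‖ ^ 2 := by
    refine Finset.sum_congr rfl fun j _ => ?_
    rw [yv_add σ ε hε, map_mul, norm_mul, mul_pow, mul_assoc]
  unfold fz
  show (Real.exp (-(p.2 * ∑ j, yv σ ε (p.1 + (fun i => (k i : ℝ))) j * ‖σ j z‖ ^ 2)) : ℂ) *
    (p.2 : ℂ) ^ ((m + 1 : ℂ) * s - 1) = _
  rw [h1]

end

end Pool.Agent.Lib.MP_1a91b9_nuT.S2A

/-!
# Job CNF
-/

set_option autoImplicit false

namespace Pool.Agent.Lib.MP_1a91b9_nuT.S2A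

variable [CD]

open NumberField MeasureTheory Module

noncomputable section

universe u

variable {F : Type u} [Field F] [NumberField F] [Algebra K F] {m : ℕ}

/-- Pointwise bound for the integrand on `[0,1]^m × (0,∞)`. -/
private theorem CNF_pt (σ : Fin (m + 1) → (F →ₐ[K] ℂ)) (ε : Fin m → F) (s : ℂ) {a b : ℝ}
    (ha : 0 < a)
    (hab : ∀ u ∈ Set.Icc (0 : Fin m → ℝ) 1, ∀ j, a ≤ yv σ ε u j ∧ yv σ ε u j ≤ b) (z : F)
    {p : (Fin m → ℝ) × ℝ} (hp : p ∈ WW m) :
    ‖fz σ ε s z p‖ ≤ 1 * (p.2 ^ ((m + 1 : ℝ) * s.re - 1)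
      * Real.exp (-((a * ‖vec σ z‖ ^ 2) * p.2))) := by
  obtain ⟨hu, hr⟩ := hp
  have hr0 : (0:ℝ) < p.2 := hr
  have h1 : ‖vec σ z‖ ^ 2 ≤ ∑ j, ‖σ j z‖ ^ 2 := by
    obtain ⟨j, hj⟩ : ∃ j, ‖vec σ z‖ = ‖vec σ z j‖ := by
      obtain ⟨j, -, hj⟩ := Finset.exists_max_image Finset.univ (fun j => ‖vec σ z j‖)
        ⟨0, Finset.mem_univ _⟩
      exact ⟨j, le_antisymm ((pi_norm_le_iff_of_nonneg (norm_nonneg _)).2
        fun i => hj i (Finset.mem_univ _)) (norm_le_pi_norm _ j)⟩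
    rw [hj]
    exact Finset.single_le_sum (f := fun j => ‖σ j z‖ ^ 2) (fun i _ => by positivity)
      (Finset.mem_univ j)
  have h2 : a * ‖vec σ z‖ ^ 2 ≤ ∑ j, yv σ ε p.1 j * ‖σ j z‖ ^ 2 := by
    calc a * ‖vec σ z‖ ^ 2 ≤ a * ∑ j, ‖σ j z‖ ^ 2 := mul_le_mul_of_nonneg_left h1 ha.le
      _ = ∑ j, a * ‖σ j z‖ ^ 2 := Finset.mul_sum _ _ _
      _ ≤ _ := Finset.sum_le_sum fun j _ =>
        mul_le_mul_of_nonneg_right (hab p.1 hu j).1 (by positivity)
  have h3 : ((m + 1 : ℂ) * s - 1).re = (m + 1 : ℝ) * s.re - 1 := by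
    simp
  rw [fz, norm_mul, Complex.norm_cpow_eq_rpow_re_of_pos hr0, h3, Complex.norm_real,
    Real.norm_of_nonneg (Real.exp_pos _).le, one_mul, mul_comm]
  refine mul_le_mul_of_nonneg_left (Real.exp_le_exp.2 ?_) (Real.rpow_nonneg hr0.le _)
  have := mul_le_mul_of_nonneg_left h2 hr0.le
  linarith

private theorem CNF_cont (σ : Fin (m + 1) → (F →ₐ[K] ℂ)) (ε : Fin m → F) (s : ℂ) (z : F) :
    ContinuousOn (fz σ ε s z) (WW m) := by
  have hy := continuous_yv σ ε
  have hyj : ∀ j, Continuous fun p : (Fin m → ℝ) × ℝ => yv σ ε p.1 j := fun j =>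
    (continuous_apply j).comp (hy.comp continuous_fst)
  refine ContinuousOn.mul ?_ ?_
  · refine Continuous.continuousOn (Complex.continuous_ofReal.comp (Real.continuous_exp.comp ?_))
    refine (continuous_snd.mul ?_).neg
    exact continuous_finsetSum _ fun j _ => (hyj j).mul continuous_const
  · refine ContinuousOn.cpow_const (Complex.continuous_ofReal.comp continuous_snd).continuousOn ?_
    intro p hp
    left
    simpa using hp.2

/-- JOB CNF. The norm integral of one exponential over `[0,1]^m × (0,∞)`.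
Proof: `yv ≥ a` on the cube (`yv_bounds`), `∑ j yv_j ‖σ_j z‖² ≥ a ‖vec σ z‖²`, so
`‖fz p‖ ≤ exp (-(a ‖vec σ z‖²) r) r^((m+1) σ - 1)` and
`∫_0^∞ = Γ((m+1)σ) (a ‖vec σ z‖²)^(-(m+1)σ)` (`Real.integral_rpow_mul_exp_neg_mul_Ioi`); the cube
has measure `1`. -/
theorem fz_norm_bound (σ : Fin (m + 1) → (F →ₐ[K] ℂ)) (ε : Fin m → F) (s : ℂ) (hs : 0 < s.re) :
    ∃ C : ℝ, 0 ≤ C ∧ ∀ z : F, vec σ z ≠ 0 → IntegrableOn (fz σ ε s z) (WW m) ∧
      ∫ p in WW m, ‖fz σ ε s z p‖ ≤ C * ‖vec σ z‖ ^ (-(2 * (m + 1) * s.re)) := by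
  obtain ⟨a, b, ha, hab⟩ := yv_bounds σ ε
  obtain ⟨κ, hκ⟩ : ∃ κ : ℝ, κ = (m + 1 : ℝ) * s.re := ⟨_, rfl⟩
  have hκ0 : 0 < κ := by rw [hκ]; positivity
  have hW : MeasurableSet (WW m) := measurableSet_Icc.prod measurableSet_Ioi
  refine ⟨Real.Gamma κ * (1 / a) ^ κ, by positivity, fun z hz => ?_⟩
  have hv : 0 < ‖vec σ z‖ := norm_pos_iff.2 hz
  obtain ⟨c, hc⟩ : ∃ c : ℝ, c = a * ‖vec σ z‖ ^ 2 := ⟨_, rfl⟩
  have hc0 : 0 < c := by rw [hc]; positivity
  have hdom : IntegrableOn (fun r : ℝ => r ^ (κ - 1) * Real.exp (-(c * r))) (Set.Ioi 0) := by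
    have := integrableOn_rpow_mul_exp_neg_mul_rpow (p := 1) (s := κ - 1) (b := c)
      (by linarith) one_pos hc0
    simpa only [Real.rpow_one, neg_mul] using this
  have hfin : IsFiniteMeasure ((volume : Measure (Fin m → ℝ)).restrict (Set.Icc 0 1)) :=
    ⟨by rw [Measure.restrict_apply_univ]; exact isCompact_Icc.measure_lt_top⟩
  have hG : IntegrableOn (fun p : (Fin m → ℝ) × ℝ =>
      (fun _ => (1:ℝ)) p.1 * (fun r : ℝ => r ^ (κ - 1) * Real.exp (-(c * r))) p.2) (WW m) := by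
    rw [IntegrableOn, WW, Measure.volume_eq_prod, ← Measure.prod_restrict]
    have h1 : Integrable (fun _ : Fin m → ℝ => (1:ℝ)) (volume.restrict (Set.Icc 0 1)) :=
      integrable_const 1
    exact Integrable.mul_prod h1 hdom
  have hGi : ∫ p in WW m, ((fun _ => (1:ℝ)) p.1
      * (fun r : ℝ => r ^ (κ - 1) * Real.exp (-(c * r))) p.2) = (1 / c) ^ κ * Real.Gamma κ := by
    have e0 := setIntegral_prod_mul (μ := (volume : Measure (Fin m → ℝ)))
      (ν := (volume : Measure ℝ)) (fun _ => (1:ℝ))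
      (fun r : ℝ => r ^ (κ - 1) * Real.exp (-(c * r))) (Set.Icc 0 1) (Set.Ioi 0)
    rw [Real.integral_rpow_mul_exp_neg_mul_Ioi hκ0 hc0, setIntegral_const, smul_eq_mul,
      mul_one] at e0
    refine e0.trans ?_
    have : (volume : Measure (Fin m → ℝ)).real (Set.Icc 0 1) = 1 := by
      rw [Measure.real, Real.volume_Icc_pi]
      simp
    rw [this, one_mul]
  have hpt : ∀ p ∈ WW m, ‖fz σ ε s z p‖ ≤ (fun _ => (1:ℝ)) p.1
      * (fun r : ℝ => r ^ (κ - 1) * Real.exp (-(c * r))) p.2 := by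
    intro p hp
    have := CNF_pt σ ε s ha hab z hp
    rw [← hκ, ← hc] at this
    exact this
  have hint : IntegrableOn (fz σ ε s z) (WW m) := by
    refine Integrable.mono' hG ((CNF_cont σ ε s z).aestronglyMeasurable hW) ?_
    exact (ae_restrict_iff' hW).2 (Filter.Eventually.of_forall hpt)
  refine ⟨hint, ?_⟩
  calc ∫ p in WW m, ‖fz σ ε s z p‖ ≤ ∫ p in WW m, ((fun _ => (1:ℝ)) p.1
      * (fun r : ℝ => r ^ (κ - 1) * Real.exp (-(c * r))) p.2) :=
        setIntegral_mono_on hint.norm hG hW hpt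
    _ = (1 / c) ^ κ * Real.Gamma κ := hGi
    _ = Real.Gamma κ * (1 / a) ^ κ * ‖vec σ z‖ ^ (-(2 * (m + 1) * s.re)) := by
        have e1 : (1 / c) ^ κ = (1 / a) ^ κ * ‖vec σ z‖ ^ (-(2 * (m + 1) * s.re)) := by
          rw [hc, one_div, mul_inv, Real.mul_rpow (by positivity) (by positivity), one_div]
          congr 1
          rw [← Real.rpow_natCast, ← Real.rpow_neg hv.le, ← Real.rpow_mul hv.le, hκ]
          congr 1
          push_cast
          ring
        rw [e1]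
        ring

end

end Pool.Agent.Lib.MP_1a91b9_nuT.S2A

/-!
# Job CNG
-/

set_option autoImplicit false

namespace Pool.Agent.Lib.MP_1a91b9_nuT.S2A

variable [CD]

open NumberField MeasureTheory Module

noncomputable section

universe u

variable {F : Type u} [Field F] [NumberField F] [Algebra K F] {m : ℕ}

/-- The elementary estimate for job CNG. -/
theorem CNG_aux_rpow (v D α : ℝ) (N : ℕ) (hD : 0 < D) (hv : 1 / D ≤ v) (hα : (N : ℝ) ≤ α) :
    v ^ (-α) ≤ (1 + D) ^ α * (1 / (1 + v) ^ N) := by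
  have hv0 : 0 < v := lt_of_lt_of_le (by positivity) hv
  have hDv : 1 ≤ D * v := by
    rw [div_le_iff₀ hD] at hv
    linarith
  have hα0 : 0 ≤ α := le_trans (Nat.cast_nonneg N) hα
  have h1 : (1 + v) / (1 + D) ≤ v := by
    rw [div_le_iff₀ (by linarith)]
    nlinarith
  have h0 : 0 < (1 + v) / (1 + D) := by positivity
  have h2 : v ^ (-α) ≤ ((1 + v) / (1 + D)) ^ (-α) :=
    Real.rpow_le_rpow_of_nonpos h0 h1 (by linarith)
  have h3 : ((1 + v) / (1 + D)) ^ (-α) = (1 + D) ^ α * (1 + v) ^ (-α) := by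
    rw [Real.div_rpow (by linarith) (by linarith), Real.rpow_neg (x := 1 + D) (by linarith),
      div_inv_eq_mul, mul_comm]
  have h4 : (1 + v) ^ (-α) ≤ 1 / (1 + v) ^ N := by
    have h5 : (1 + v) ^ (-α) ≤ (1 + v) ^ (-(N : ℝ)) :=
      Real.rpow_le_rpow_of_exponent_le (by linarith) (by linarith)
    refine h5.trans (le_of_eq ?_)
    rw [Real.rpow_neg (by linarith), Real.rpow_natCast, one_div]
  rw [h3] at h2
  exact h2.trans (mul_le_mul_of_nonneg_left h4 (Real.rpow_nonneg (by linarith) _))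

theorem CNG_aux_NF (σ : Fin (m + 1) → (F →ₐ[K] ℂ)) (hσ : Function.Bijective σ) (z : F) :
    ‖NF z‖ ≤ ‖vec σ z‖ ^ (m + 1) := by
  rw [NF_eq σ hσ z, norm_prod]
  refine (Finset.prod_le_prod (fun j _ => norm_nonneg _)
    (fun j _ => norm_le_pi_norm (vec σ z) j)).trans (le_of_eq ?_)
  rw [Finset.prod_const, Finset.card_univ, Fintype.card_fin]

/-- JOB CNG. Summability for `Re s > 2`.
Proof: `‖NF z‖ = ∏ ‖σ_j z‖ ≤ ‖vec σ z‖^(m+1)`; the term is at most
`C₀ C ind D z v^(-α)`, `v = ‖vec σ z‖`, `α = (m+1)(2 Re s - 1) > 3(m+1) ≥ 2(m+1)+1`; on the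
support `v ≥ 1/D` (`one_le_vec`), so `1 + v ≤ (1+D) v`, `v^(-α) ≤ (1+D)^α (1+v)^(-(2(m+1)+1))`;
`sum_lat`. -/
theorem fz_summable (σ : Fin (m + 1) → (F →ₐ[K] ℂ)) (hσ : Function.Bijective σ) (ε : Fin m → F)
    {δ : F → ℂ} {S : Set F} (hδ : Adm2 δ S) (s : ℂ) (hs : 2 < s.re) :
    Summable fun z : F => ‖δ z * (starRingEnd ℂ) (NF z)‖ * ∫ p in WW m, ‖fz σ ε s z p‖ := by
  obtain ⟨C₀, hC₀⟩ := hδ.bdd
  obtain ⟨D, hD, hlat⟩ := hδ.lat
  obtain ⟨C, hC, hfz⟩ := fz_norm_bound σ ε s (by linarith)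
  have hC₀' : 0 ≤ C₀ := (norm_nonneg _).trans (hC₀ 0)
  have hD' : (0 : ℝ) < D := Nat.cast_pos.2 hD
  set α : ℝ := (m + 1) * (2 * s.re - 1) with hα
  refine Summable.of_nonneg_of_le (fun z => ?_) (fun z => ?_)
    ((sum_lat σ hσ D hD).mul_left (C₀ * C * (1 + (D : ℝ)) ^ α))
  · exact mul_nonneg (norm_nonneg _) (integral_nonneg (fun p => norm_nonneg _))
  · have hpos : 0 < (1 + (D : ℝ)) ^ α := Real.rpow_pos_of_pos (by linarith) _
    by_cases hz : δ z = 0
    · rw [hz, zero_mul, norm_zero, zero_mul]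
      refine mul_nonneg (mul_nonneg (mul_nonneg hC₀' hC) hpos.le)
        (div_nonneg (ind_nonneg D z) (pow_nonneg (add_nonneg zero_le_one (norm_nonneg _)) _))
    · have hint := hlat z hz
      have hz0 : z ≠ 0 := by
        rintro rfl
        exact hz hδ.zero
      have hv := one_le_vec σ hσ D hD z hz0 hint
      have hv0 : 0 < ‖vec σ z‖ := lt_of_lt_of_le (by positivity) hv
      have hind : ind D z = 1 := by
        unfold ind
        rw [if_pos hint]
      obtain ⟨-, hI⟩ := hfz z (norm_pos_iff.1 hv0)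
      have hm : ((2 * (m + 1) + 1 : ℕ) : ℝ) ≤ α := by
        rw [hα]
        push_cast
        have hm0 : (0 : ℝ) ≤ m := Nat.cast_nonneg m
        nlinarith
      have hkey := CNG_aux_rpow ‖vec σ z‖ D α (2 * (m + 1) + 1) hD' hv hm
      have hnorm : ‖δ z * (starRingEnd ℂ) (NF z)‖ ≤ C₀ * ‖vec σ z‖ ^ (m + 1) := by
        rw [norm_mul, RCLike.norm_conj]
        exact mul_le_mul (hC₀ z) (CNG_aux_NF σ hσ z) (norm_nonneg _) hC₀'
      have hexp : ‖vec σ z‖ ^ (m + 1) * ‖vec σ z‖ ^ (-(2 * (m + 1) * s.re)) = ‖vec σ z‖ ^ (-α) := by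
        rw [← Real.rpow_natCast, ← Real.rpow_add hv0]
        congr 1
        rw [hα]
        push_cast
        ring
      calc ‖δ z * (starRingEnd ℂ) (NF z)‖ * ∫ p in WW m, ‖fz σ ε s z p‖
          ≤ (C₀ * ‖vec σ z‖ ^ (m + 1)) * (C * ‖vec σ z‖ ^ (-(2 * (m + 1) * s.re))) := by
            refine mul_le_mul hnorm hI (integral_nonneg (fun p => norm_nonneg _)) ?_
            positivity
        _ = C₀ * C * (‖vec σ z‖ ^ (m + 1) * ‖vec σ z‖ ^ (-(2 * (m + 1) * s.re))) := by ring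
        _ = C₀ * C * ‖vec σ z‖ ^ (-α) := by rw [hexp]
        _ ≤ C₀ * C * ((1 + (D : ℝ)) ^ α * (1 / (1 + ‖vec σ z‖) ^ (2 * (m + 1) + 1))) :=
            mul_le_mul_of_nonneg_left hkey (mul_nonneg hC₀' hC)
        _ = C₀ * C * (1 + (D : ℝ)) ^ α * (ind D z / (1 + ‖vec σ z‖) ^ (2 * (m + 1) + 1)) := by
            rw [hind]
            ring

end

end Pool.Agent.Lib.MP_1a91b9_nuT.S2A

/-!
# Job CNH
-/

set_option autoImplicit false

namespace Pool.Agent.Lib.MP_1a91b9_nuT.S2A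

variable [CD]

open NumberField MeasureTheory Module

noncomputable section

universe u

variable {F : Type u} [Field F] [NumberField F] [Algebra K F] {m : ℕ}

/-- JOB CNH. Reindexing the sum over the support by representatives.
Proof: `(z, k) ↦ ε^k z` is a bijection of `R × ℤ^m` onto the support of `δ` (`IsReps`; `δ` is
invariant under `ε^k`). -/
theorem hasSum_reps (ε : Fin m → F) (hε : ∀ i, ε i ≠ 0) {δ : F → ℂ}
    (hinv : ∀ i z, δ (ε i * z) = δ z) (R : Set F) (hR : IsReps ε (Function.support δ) R)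
    {f : F → ℂ} (hf : ∀ z, δ z = 0 → f z = 0) {A : ℂ} (h : HasSum f A) :
    HasSum (fun p : R × (Fin m → ℤ) => f ((∏ i, ε i ^ p.2 i) * (p.1 : F))) A := by
  have hprod : ∀ k : Fin m → ℤ, (∏ i, ε i ^ k i) ≠ 0 := fun k =>
    Finset.prod_ne_zero_iff.2 fun i _ => zpow_ne_zero _ (hε i)
  have hsub : ∀ k k' : Fin m → ℤ, (∏ i, ε i ^ (k i - k' i)) * (∏ i, ε i ^ k' i) = ∏ i, ε i ^ k i := by
    intro k k'
    rw [← Finset.prod_mul_distrib]
    refine Finset.prod_congr rfl fun i _ => ?_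
    rw [← zpow_add₀ (hε i), sub_add_cancel]
  have hinj : Function.Injective
      (fun p : R × (Fin m → ℤ) => (∏ i, ε i ^ p.2 i) * (p.1 : F)) := by
    rintro ⟨⟨z, hz⟩, k⟩ ⟨⟨z', hz'⟩, k'⟩ h1
    have h2 : (∏ i, ε i ^ k i) * z = (∏ i, ε i ^ k' i) * z' := h1
    have h3 : (∏ i, ε i ^ (k i - k' i)) * z = z' := by
      rw [← hsub k k', mul_right_comm, mul_comm] at h2
      exact mul_left_cancel₀ (hprod k') h2
    obtain ⟨k0, _, huniq⟩ := hR.2 z (hR.1 hz)
    have h4 : (fun i => k i - k' i) = k0 := huniq _ (by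
      show (∏ i, ε i ^ (k i - k' i)) * z ∈ R
      rw [h3]
      exact hz')
    have h5 : (fun _ => 0 : Fin m → ℤ) = k0 := huniq _ (by
      show (∏ i : Fin m, ε i ^ (0 : ℤ)) * z ∈ R
      simpa using hz)
    have h6 : ∀ i, k i = k' i := by
      intro i
      have h8 : k i - k' i = 0 := congrFun (h4.trans h5.symm) i
      omega
    have h7 : k = k' := funext h6
    subst h7
    have h8 : z = z' := mul_left_cancel₀ (hprod k) h2
    subst h8
    rfl
  have h1 := (Function.Injective.hasSum_iff (f := f) (a := A) hinj ?_).2 h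
  · exact h1
  · intro z hz
    refine hf z ?_
    by_contra hne
    apply hz
    obtain ⟨k, hk, _⟩ := hR.2 z hne
    refine ⟨⟨⟨_, hk⟩, fun i => -k i⟩, ?_⟩
    show (∏ i, ε i ^ (-k i)) * ((∏ i, ε i ^ k i) * z) = z
    rw [← mul_assoc, ← Finset.prod_mul_distrib]
    have h2 : ∀ i, ε i ^ (-k i) * ε i ^ k i = 1 := by
      intro i
      rw [← zpow_add₀ (hε i), neg_add_cancel, zpow_zero]
    rw [Finset.prod_congr rfl fun i _ => h2 i, Finset.prod_const_one, one_mul]

end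

end Pool.Agent.Lib.MP_1a91b9_nuT.S2A

/-!
# Job CNI
-/

set_option autoImplicit false

namespace Pool.Agent.Lib.MP_1a91b9_nuT.S2A

variable [CD]

open NumberField MeasureTheory Module

noncomputable section

universe u

variable {F : Type u} [Field F] [NumberField F] [Algebra K F] {m : ℕ}

/-- JOB CNI. `Phi` is continuous on `(0,∞)` and decays faster than all powers at both ends
(`th_bound`, `th_continuousOn`, `yv_bounds`; `continuousOn_of_dominated` or
`continuous_parametric_integral_of_continuous`). -/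
theorem Phi_bound (σ : Fin (m + 1) → (F →ₐ[K] ℂ)) (hσ : Function.Bijective σ) (ε : Fin m → F)
    {δ : F → ℂ} {S : Set F} (hS : S.Finite) (hδ : Adm2 δ S) (k : ℕ) :
    ∃ C c : ℝ, 0 ≤ C ∧ 0 < c ∧ ∀ r : ℝ, 0 < r → ‖Phi σ ε δ r‖ ≤ C * r ^ k * Real.exp (-c * r) := by
  obtain ⟨a, b, ha, hab⟩ := yv_bounds σ ε
  obtain ⟨C, c, hC, hc, h⟩ := th_bound σ hσ hS hδ a b ha k
  refine ⟨C * (volume : Measure (Fin m → ℝ)).real (Set.Icc (0 : Fin m → ℝ) 1), c,
    mul_nonneg hC measureReal_nonneg, hc, fun r hr => ?_⟩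
  have h1 : ‖Phi σ ε δ r‖ ≤ (C * r ^ k * Real.exp (-c * r)) *
      (volume : Measure (Fin m → ℝ)).real (Set.Icc (0 : Fin m → ℝ) 1) := by
    refine norm_setIntegral_le_of_norm_le_const isCompact_Icc.measure_lt_top ?_
    intro u hu
    exact h (yv σ ε u) (hab u hu) r hr
  refine h1.trans (le_of_eq ?_)
  ring

/-- JOB CNI. -/
theorem Phi_continuousOn (σ : Fin (m + 1) → (F →ₐ[K] ℂ)) (hσ : Function.Bijective σ)
    (ε : Fin m → F) {δ : F → ℂ} {S : Set F} (hS : S.Finite) (hδ : Adm2 δ S) :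
    ContinuousOn (Phi σ ε δ) (Set.Ioi 0) := by
  obtain ⟨a, b, ha, hab⟩ := yv_bounds σ ε
  obtain ⟨C, c, hC, hc, h⟩ := th_bound σ hσ hS hδ a b ha 0
  have hpos : ∀ r : ℝ, 0 < r → ∀ u : Fin m → ℝ, ∀ j, 0 < (r • yv σ ε u) j := by
    intro r hr u j
    rw [Pi.smul_apply, smul_eq_mul]
    exact mul_pos hr (yv_pos σ ε u j)
  have hth := th_continuousOn σ hσ hS hδ
  refine continuousOn_of_dominated (bound := fun _ => C) (F := fun r u => th σ δ (r • yv σ ε u))
    (μ := volume.restrict (Set.Icc (0 : Fin m → ℝ) 1)) ?_ ?_ ?_ ?_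
  · intro r hr
    have h1 : Continuous fun u => th σ δ (r • yv σ ε u) := by
      rw [← continuousOn_univ]
      exact hth.comp ((continuous_yv σ ε).const_smul r).continuousOn
        (fun u _ => hpos r hr u)
    exact h1.aestronglyMeasurable
  · intro r hr
    rw [ae_restrict_iff' measurableSet_Icc]
    refine Filter.Eventually.of_forall fun u hu => ?_
    have h1 := h (yv σ ε u) (hab u hu) r hr
    rw [pow_zero, mul_one] at h1
    refine h1.trans ?_
    have h2 : Real.exp (-c * r) ≤ 1 := by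
      rw [Real.exp_le_one_iff]
      have h3 : 0 < r := hr
      nlinarith
    nlinarith
  · refine (integrable_const_iff.mpr (Or.inr ?_))
    rw [isFiniteMeasure_restrict]
    exact isCompact_Icc.measure_lt_top.ne
  · refine Filter.Eventually.of_forall fun u => ?_
    refine hth.comp ?_ (fun r hr => hpos r hr u)
    exact (continuous_id.smul continuous_const).continuousOn

end

end Pool.Agent.Lib.MP_1a91b9_nuT.S2A

/-!
# Job CNJ
-/

set_option autoImplicit false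

namespace Pool.Agent.Lib.MP_1a91b9_nuT.S2A

variable [CD]

open NumberField MeasureTheory Module

noncomputable section

universe u

variable {F : Type u} [Field F] [NumberField F] [Algebra K F] {m : ℕ}

/-- JOB CNJ. The continuation is entire (`mellin_differentiableAt_of_isBigO_rpow`,
`Complex.differentiable_one_div_Gamma`). -/
theorem gC_differentiable (σ : Fin (m + 1) → (F →ₐ[K] ℂ)) (hσ : Function.Bijective σ)
    (ε : Fin m → F) {δ : F → ℂ} {S : Set F} (hS : S.Finite) (hδ : Adm2 δ S) :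
    Differentiable ℂ (gC σ ε δ) := by
  have hM : Differentiable ℂ (mellin (Phi σ ε δ)) := by
    intro s
    obtain ⟨C, c, hC, hc, hb⟩ := Phi_bound σ hσ ε hS hδ 0
    obtain ⟨k, hk⟩ := exists_nat_gt (-s.re)
    obtain ⟨C', c', hC', hc', hb'⟩ := Phi_bound σ hσ ε hS hδ k
    refine mellin_differentiableAt_of_isBigO_rpow_exp (a := c) (b := -(k : ℝ)) hc ?_ ?_ ?_ ?_
    · exact (Phi_continuousOn σ hσ ε hS hδ).locallyIntegrableOn measurableSet_Ioi
    · refine Asymptotics.IsBigO.of_bound C ?_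
      filter_upwards [Filter.eventually_gt_atTop (0 : ℝ)] with r hr
      have h := hb r hr
      rw [pow_zero, mul_one] at h
      rw [Real.norm_of_nonneg (Real.exp_pos _).le]
      exact h
    · refine Asymptotics.IsBigO.of_bound C' ?_
      filter_upwards [self_mem_nhdsWithin] with r hr
      have hr0 : 0 < r := hr
      have h := hb' r hr0
      rw [neg_neg, Real.rpow_natCast, Real.norm_of_nonneg (pow_nonneg hr0.le k)]
      refine h.trans ?_
      have h1 : Real.exp (-c' * r) ≤ 1 := by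
        rw [Real.exp_le_one_iff]
        nlinarith
      have h2 : 0 ≤ C' * r ^ k := mul_nonneg hC' (pow_nonneg hr0.le k)
      nlinarith
    · linarith
  have hG : Differentiable ℂ (fun s : ℂ => (Complex.Gamma s)⁻¹) :=
    Complex.differentiable_one_div_Gamma
  have h1 : Differentiable ℂ (fun s : ℂ => mellin (Phi σ ε δ) ((m + 1 : ℂ) * s)) :=
    hM.comp ((differentiable_const _).mul differentiable_id)
  have h2 : Differentiable ℂ (fun s : ℂ => ((|(regM σ ε).det| : ℝ) : ℂ) *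
      (Complex.Gamma s)⁻¹ ^ (m + 1) * mellin (Phi σ ε δ) ((m + 1 : ℂ) * s)) :=
    ((differentiable_const _).mul (hG.pow (m + 1))).mul h1
  exact h2

end

end Pool.Agent.Lib.MP_1a91b9_nuT.S2A

/-!
# Job CNK
-/

set_option autoImplicit false

namespace Pool.Agent.Lib.MP_1a91b9_nuT.S2A

variable [CD]

open NumberField MeasureTheory Module

noncomputable section

universe u

variable {F : Type u} [Field F] [NumberField F] [Algebra K F] {m : ℕ}

/-- The product measure on `WW m`. -/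
private theorem cnk_meas (m : ℕ) : (volume : Measure ((Fin m → ℝ) × ℝ)).restrict (WW m)
    = ((volume : Measure (Fin m → ℝ)).restrict (Set.Icc (0 : Fin m → ℝ) 1)).prod
      ((volume : Measure ℝ).restrict (Set.Ioi (0 : ℝ))) := by
  rw [Measure.prod_restrict]
  rfl

private theorem cnk_int (σ : Fin (m + 1) → (F →ₐ[K] ℂ)) (hσ : Function.Bijective σ)
    (ε : Fin m → F) {δ : F → ℂ} {S : Set F} (hS : S.Finite) (hδ : Adm2 δ S) (s : ℂ)
    (hs : 0 < s.re) :
    Integrable (fun p : (Fin m → ℝ) × ℝ => th σ δ (p.2 • yv σ ε p.1) *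
      (p.2 : ℂ) ^ ((m + 1 : ℂ) * s - 1))
      (((volume : Measure (Fin m → ℝ)).restrict (Set.Icc (0 : Fin m → ℝ) 1)).prod
      ((volume : Measure ℝ).restrict (Set.Ioi (0 : ℝ)))) := by
  obtain ⟨a, b, ha, hab⟩ := yv_bounds σ ε
  obtain ⟨C, c, hC, hc, hth⟩ := th_bound σ hσ hS hδ a b ha 0
  set w : ℝ := (m + 1 : ℝ) * s.re - 1 with hw
  have hw1 : -1 < w := by
    have : 0 < (m + 1 : ℝ) * s.re := by positivity
    linarith
  have hre : ((m + 1 : ℂ) * s - 1).re = w := by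
    have h1 : (m + 1 : ℂ) = ((m + 1 : ℝ) : ℂ) := by push_cast; rfl
    rw [Complex.sub_re, h1, Complex.re_ofReal_mul, Complex.one_re]
  have hg : Integrable (fun r : ℝ => C * (r ^ w * Real.exp (-c * r)))
      ((volume : Measure ℝ).restrict (Set.Ioi (0 : ℝ))) := by
    have h1 := integrableOn_rpow_mul_exp_neg_mul_rpow (p := 1) (s := w) (b := c) hw1 one_pos hc
    simp only [Real.rpow_one] at h1
    exact h1.const_mul C
  have h1 : Integrable (fun _ : Fin m → ℝ => (1 : ℝ))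
      ((volume : Measure (Fin m → ℝ)).restrict (Set.Icc (0 : Fin m → ℝ) 1)) := by
    have : IsFiniteMeasure ((volume : Measure (Fin m → ℝ)).restrict (Set.Icc (0 : Fin m → ℝ) 1)) :=
      ⟨by rw [Measure.restrict_apply_univ]; exact isCompact_Icc.measure_lt_top⟩
    exact integrable_const _
  have hbd := h1.mul_prod hg
  have hmeas : MeasurableSet (WW m) := measurableSet_Icc.prod measurableSet_Ioi
  refine hbd.mono' ?_ ?_
  · rw [← cnk_meas]
    refine ContinuousOn.aestronglyMeasurable ?_ hmeas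
    refine ContinuousOn.mul ?_ ?_
    · refine (th_continuousOn σ hσ hS hδ).comp ?_ ?_
      · refine Continuous.continuousOn ?_
        exact continuous_snd.smul ((continuous_yv σ ε).comp continuous_fst)
      · intro p hp j
        exact mul_pos hp.2 (yv_pos σ ε p.1 j)
    · intro p hp
      refine ContinuousAt.continuousWithinAt ?_
      refine ContinuousAt.cpow ?_ continuousAt_const ?_
      · exact (Complex.continuous_ofReal.comp continuous_snd).continuousAt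
      · exact Complex.ofReal_mem_slitPlane.2 hp.2
  · rw [← cnk_meas]
    refine (ae_restrict_iff' hmeas).2 (Filter.Eventually.of_forall fun p hp => ?_)
    have hp2 : 0 < p.2 := hp.2
    rw [norm_mul, Complex.norm_cpow_eq_rpow_re_of_pos hp2, hre, one_mul]
    have h2 := hth (yv σ ε p.1) (hab p.1 hp.1) p.2 hp2
    rw [pow_zero, mul_one] at h2
    calc ‖th σ δ (p.2 • yv σ ε p.1)‖ * p.2 ^ w
        ≤ (C * Real.exp (-c * p.2)) * p.2 ^ w :=
          mul_le_mul_of_nonneg_right h2 (Real.rpow_nonneg hp2.le _)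
      _ = C * (p.2 ^ w * Real.exp (-c * p.2)) := by ring

/-- JOB CNK. The Mellin transform as an integral over `WW m` (Fubini: the integrand is continuous on
`WW m` and bounded by `C r^{(m+1) Re s - 1} exp (-c r)`, `th_bound` with `k = 0`). -/
theorem mellin_eq (σ : Fin (m + 1) → (F →ₐ[K] ℂ)) (hσ : Function.Bijective σ)
    (ε : Fin m → F) {δ : F → ℂ} {S : Set F} (hS : S.Finite) (hδ : Adm2 δ S) (s : ℂ)
    (hs : 0 < s.re) :
    mellin (Phi σ ε δ) ((m + 1 : ℂ) * s) =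
      ∫ p in WW m, th σ δ (p.2 • yv σ ε p.1) * (p.2 : ℂ) ^ ((m + 1 : ℂ) * s - 1) := by
  rw [cnk_meas, integral_prod_symm _ (cnk_int σ hσ ε hS hδ s hs), mellin]
  refine setIntegral_congr_fun measurableSet_Ioi fun r _ => ?_
  show (r : ℂ) ^ ((m + 1 : ℂ) * s - 1) • Phi σ ε δ r = ∫ u in Set.Icc (0 : Fin m → ℝ) 1,
    th σ δ (r • yv σ ε u) * (r : ℂ) ^ ((m + 1 : ℂ) * s - 1)
  rw [integral_mul_const, smul_eq_mul, mul_comm]
  rfl

/-- JOB CNK. The value at `s = 1` (`mellin_eq`, Fubini back: first `r`, then `u`). -/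
theorem gC_one (σ : Fin (m + 1) → (F →ₐ[K] ℂ)) (hσ : Function.Bijective σ)
    (ε : Fin m → F) {δ : F → ℂ} {S : Set F} (hS : S.Finite) (hδ : Adm2 δ S) :
    gC σ ε δ 1 = ((|(regM σ ε).det| : ℝ) : ℂ) *
      ∫ u in Set.Icc (0 : Fin m → ℝ) 1, ∫ r in Set.Ioi (0 : ℝ),
        th σ δ (r • yv σ ε u) * (r : ℂ) ^ m := by
  have h1 : (0 : ℝ) < (1 : ℂ).re := by
    rw [Complex.one_re]
    exact one_pos
  rw [gC, Complex.Gamma_one, inv_one, one_pow, mul_one, mellin_eq σ hσ ε hS hδ 1 h1, cnk_meas,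
    integral_prod _ (cnk_int σ hσ ε hS hδ 1 h1)]
  congr 1
  refine integral_congr_ae (Filter.Eventually.of_forall fun u => ?_)
  refine integral_congr_ae (Filter.Eventually.of_forall fun r => ?_)
  show th σ δ (r • yv σ ε u) * (r : ℂ) ^ ((m + 1 : ℂ) * 1 - 1)
    = th σ δ (r • yv σ ε u) * (r : ℂ) ^ m
  have h2 : ((m + 1 : ℂ) * 1 - 1) = (m : ℂ) := by ring
  rw [h2, Complex.cpow_natCast]

end

end Pool.Agent.Lib.MP_1a91b9_nuT.S2A

/-!
# Job CNL
-/

set_option autoImplicit false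

namespace Pool.Agent.Lib.MP_1a91b9_nuT.S2A

variable [CD]

open NumberField MeasureTheory Module

noncomputable section

universe u

variable {F : Type u} [Field F] [NumberField F] [Algebra K F] {m : ℕ}

/-- JOB CNL. Exchange of sum and integral for `Re s > 2`
(`hasSum_integral_of_summable_integral_norm`, `fz_summable`, `fz_norm_bound`; for `p ∈ WW m`:
`th σ δ (p.2 • yv p.1) * p.2^(…) = ∑' z, δ z * conj (NF z) * fz σ ε s z p`). -/
theorem hasSum_fz (σ : Fin (m + 1) → (F →ₐ[K] ℂ)) (hσ : Function.Bijective σ)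
    (ε : Fin m → F) {δ : F → ℂ} {S : Set F} (hS : S.Finite) (hδ : Adm2 δ S) (s : ℂ)
    (hs : 2 < s.re) :
    HasSum (fun z : F => δ z * (starRingEnd ℂ) (NF z) * ∫ p in WW m, fz σ ε s z p)
      (mellin (Phi σ ε δ) ((m + 1 : ℂ) * s)) := by
  have hcount : Countable F :=
    (Module.finBasis ℚ F).equivFun.toEquiv.countable_iff.2 inferInstance
  have hvec : ∀ z : F, z ≠ 0 → vec σ z ≠ 0 := by
    intro z hz h
    have h1 := congrFun h 0
    simp only [vec, Pi.zero_apply] at h1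
    exact hz ((map_eq_zero (σ 0)).1 h1)
  obtain ⟨C, -, hC⟩ := fz_norm_bound σ ε s (by linarith)
  have hint : ∀ z : F, Integrable (fun p => δ z * (starRingEnd ℂ) (NF z) * fz σ ε s z p)
      (volume.restrict (WW m)) := by
    intro z
    by_cases hz : δ z = 0
    · simp only [hz, zero_mul]
      exact integrable_zero _ _ _
    · have hz0 : z ≠ 0 := by
        rintro rfl
        exact hz hδ.zero
      exact (hC z (hvec z hz0)).1.const_mul _
  have hnorm : Summable fun z : F => ∫ p in WW m,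
      ‖δ z * (starRingEnd ℂ) (NF z) * fz σ ε s z p‖ := by
    refine (fz_summable σ hσ ε hδ s hs).congr fun z => ?_
    rw [← integral_const_mul]
    refine integral_congr_ae (Filter.Eventually.of_forall fun p => ?_)
    exact (norm_mul _ _).symm
  have h := hasSum_integral_of_summable_integral_norm hint hnorm
  rw [mellin_eq σ hσ ε hS hδ s (by linarith)]
  have h2 : (∫ p in WW m, ∑' z : F, δ z * (starRingEnd ℂ) (NF z) * fz σ ε s z p) =
      ∫ p in WW m, th σ δ (p.2 • yv σ ε p.1) * (p.2 : ℂ) ^ ((m + 1 : ℂ) * s - 1) := by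
    refine integral_congr_ae (Filter.Eventually.of_forall fun p => ?_)
    simp only [th]
    rw [← tsum_mul_right]
    refine tsum_congr fun z => ?_
    have h3 : ∑ j, (p.2 • yv σ ε p.1) j * ‖σ j z‖ ^ 2 =
        p.2 * ∑ j, yv σ ε p.1 j * ‖σ j z‖ ^ 2 := by
      rw [Finset.mul_sum]
      refine Finset.sum_congr rfl fun j _ => ?_
      rw [Pi.smul_apply, smul_eq_mul, mul_assoc]
    rw [h3, fz]
    ring
  rw [← h2]
  have h4 : (fun z : F => δ z * (starRingEnd ℂ) (NF z) * ∫ p in WW m, fz σ ε s z p) =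
      fun z : F => ∫ p in WW m, δ z * (starRingEnd ℂ) (NF z) * fz σ ε s z p := by
    funext z
    rw [integral_const_mul]
  rw [h4]
  exact h

end

end Pool.Agent.Lib.MP_1a91b9_nuT.S2A

/-!
# Job CNM
-/

set_option autoImplicit false

namespace Pool.Agent.Lib.MP_1a91b9_nuT.S2A

variable [CD]

open NumberField MeasureTheory Module

noncomputable section

universe u

variable {F : Type u} [Field F] [NumberField F] [Algebra K F] {m : ℕ}

omit [NumberField F] [Algebra K F] in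
theorem cnm_inv (ε : Fin m → F) (hε : ∀ i, ε i ≠ 0) {φ : F → ℂ}
    (hinv : ∀ i z, φ (ε i * z) = φ z) (k : Fin m → ℤ) (z : F) :
    φ ((∏ i, ε i ^ k i) * z) = φ z := by
  have h1 : ∀ (i : Fin m) (n : ℕ) (z : F), φ (ε i ^ n * z) = φ z := by
    intro i n
    induction n with
    | zero => intro z; simp
    | succ n ih =>
      intro z
      rw [pow_succ, mul_assoc, ih, hinv]
  have h2 : ∀ (i : Fin m) (n : ℤ) (z : F), φ (ε i ^ n * z) = φ z := by
    intro i n z
    cases n with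
    | ofNat n =>
      rw [Int.ofNat_eq_natCast, zpow_natCast]
      exact h1 i n z
    | negSucc n =>
      have h3 := h1 i (n + 1) (ε i ^ (Int.negSucc n) * z)
      rw [← h3, ← mul_assoc, zpow_negSucc, mul_inv_cancel₀ (pow_ne_zero _ (hε i)), one_mul]
  have h4 : ∀ (s : Finset (Fin m)) (z : F), φ ((∏ i ∈ s, ε i ^ k i) * z) = φ z := by
    intro s
    induction s using Finset.induction_on with
    | empty => intro z; simp
    | insert a s ha ih =>
      intro z
      rw [Finset.prod_insert ha, mul_assoc, h2, ih]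
  exact h4 Finset.univ z

/-- JOB CNM. THE IDENTITY for `Re s > 2`.
Proof: `hasSum_fz` reindexed by `hasSum_reps`; `NF (ε^k z) = NF z`, `δ (ε^k z) = δ z`, `fz_add`;
`HasSum.prod_fiberwise` with the inner sums from `unfold_cubes` (`H = fz σ ε s z`, integrable by
`torus_integral`): the inner sum is `δ z conj (NF z) ∫_{WU} fz = δ z conj (NF z) |det|⁻¹ Γ(s)^(m+1)
‖NF z‖^(-2s)`.  Multiply by `|det| Γ(s)^{-(m+1)}` (`Γ(s) ≠ 0`). -/
theorem gC_hasSum (σ : Fin (m + 1) → (F →ₐ[K] ℂ)) (hσ : Function.Bijective σ)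
    (ε : Fin m → F) (hε : ∀ i, ε i ≠ 0) (hN : ∀ i, Algebra.norm K (ε i) = 1)
    {δ : F → ℂ} {S : Set F} (hS : S.Finite) (hδ : Adm2 δ S) (hinv : ∀ i z, δ (ε i * z) = δ z)
    (hdet : (regM σ ε).det ≠ 0) (R : Set F) (hR : IsReps ε (Function.support δ) R) (s : ℂ)
    (hs : 2 < s.re) :
    HasSum (fun z : R => δ z * (starRingEnd ℂ) (NF (z : F)) * (‖NF (z : F)‖ : ℂ) ^ (-2 * s))
      (gC σ ε δ s) := by
  have hs0 : 0 < s.re := by linarith
  have hΓ : Complex.Gamma s ≠ 0 := Complex.Gamma_ne_zero_of_re_pos hs0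
  have hNF : ∀ i z, NF (ε i * z) = NF z := by
    intro i z
    unfold NF
    rw [map_mul, hN i, one_mul]
  have h1 := hasSum_reps ε hε hinv R hR
    (f := fun z : F => δ z * (starRingEnd ℂ) (NF z) * ∫ p in WW m, fz σ ε s z p)
    (fun z hz => by simp [hz]) (hasSum_fz σ hσ ε hS hδ s hs)
  have h2 : HasSum (fun p : R × (Fin m → ℤ) => δ (p.1 : F) * (starRingEnd ℂ) (NF (p.1 : F)) *
      ∫ q in WW m, fz σ ε s (p.1 : F) (q.1 + (fun i => (p.2 i : ℝ)), q.2))
      (mellin (Phi σ ε δ) ((m + 1 : ℂ) * s)) := by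
    refine h1.congr_fun ?_
    intro p
    show _ = δ ((∏ i, ε i ^ p.2 i) * (p.1 : F)) * (starRingEnd ℂ) (NF ((∏ i, ε i ^ p.2 i) * (p.1 : F))) *
      ∫ q in WW m, fz σ ε s ((∏ i, ε i ^ p.2 i) * (p.1 : F)) q
    rw [cnm_inv ε hε hinv, cnm_inv ε hε hNF]
    congr 1
    refine integral_congr_ae (Filter.Eventually.of_forall fun q => ?_)
    exact fz_add σ ε hε s (p.1 : F) p.2 q
  have hne : ∀ z : R, (z : F) ≠ 0 := by
    intro z h0
    have h3 := hR.1 z.2
    rw [Function.mem_support, h0, hδ.zero] at h3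
    exact h3 rfl
  have h4 : HasSum (fun z : R => δ (z : F) * (starRingEnd ℂ) (NF (z : F)) *
      ∫ q in WU m, fz σ ε s (z : F) q) (mellin (Phi σ ε δ) ((m + 1 : ℂ) * s)) := by
    refine h2.prod_fiberwise fun z => ?_
    exact (unfold_cubes (fz σ ε s (z : F))
      (torus_integral σ hσ ε hN hdet (z : F) (hne z) s hs0).1).mul_left _
  have h5 := h4.mul_left (((|(regM σ ε).det| : ℝ) : ℂ) * (Complex.Gamma s)⁻¹ ^ (m + 1))
  refine h5.congr_fun ?_
  intro z
  have h6 := (torus_integral σ hσ ε hN hdet (z : F) (hne z) s hs0).2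
  have h7 : (Complex.Gamma s)⁻¹ ^ (m + 1) * Complex.Gamma s ^ (m + 1) = 1 := by
    rw [← mul_pow, inv_mul_cancel₀ hΓ, one_pow]
  have h8 : ((|(regM σ ε).det| : ℝ) : ℂ) * (Complex.Gamma s)⁻¹ ^ (m + 1) *
      (δ (z : F) * (starRingEnd ℂ) (NF (z : F)) * ∫ q in WU m, fz σ ε s (z : F) q) =
      δ (z : F) * (starRingEnd ℂ) (NF (z : F)) * (Complex.Gamma s)⁻¹ ^ (m + 1) *
      (((|(regM σ ε).det| : ℝ) : ℂ) * ∫ q in WU m, fz σ ε s (z : F) q) := by ring
  rw [h8, h6]
  linear_combination (-(δ (z : F) * (starRingEnd ℂ) (NF (z : F)) * (‖NF (z : F)‖ : ℂ) ^ (-2 * s))) * h7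

end

end Pool.Agent.Lib.MP_1a91b9_nuT.S2A
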