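import Mathlib

/-!
# S2c: prism operators (DOC2 2.4)

Homogeneous cochains on a set `X`, the cocycle relation, the prism operator of a map and the
decomposition of signed sums over permutations.
-/

set_option autoImplicit false

namespace Pool.Agent.Lib.MP_1a91b9_nuT

open Equiv

noncomputable section

/-- The cocycle relation on tuples from `Y`. -/
def Coc {X : Type*} (Y : Set X) {n : ℕ} (I : (Fin (n + 1) → X) → ℂ) : Prop :=
  ∀ w : Fin (n + 2) → X, (∀ i, w i ∈ Y) →
    ∑ i : Fin (n + 2), (-1) ^ (i : ℕ) * I (fun j => w (i.succAbove j)) = 0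

/-- Invariance under a map, on tuples from `Y`. -/
def Inva {X : Type*} (Y : Set X) (T : X → X) {n : ℕ} (I : (Fin (n + 1) → X) → ℂ) : Prop :=
  ∀ p : Fin (n + 1) → X, (∀ j, p j ∈ Y) → (∀ j, T (p j) ∈ Y) → I (fun j => T (p j)) = I p

/-- The prism tuple `(x 0, ..., x k, T (x k), ..., T (x n))`. -/
def prs {X : Type*} (T : X → X) {n : ℕ} (x : Fin (n + 1) → X) (k : Fin (n + 1)) :
    Fin (n + 2) → X :=
  fun j => if h : (j : ℕ) ≤ k then x ⟨j, by omega⟩ else T (x ⟨j - 1, by omega⟩)

/-- The prism operator. -/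
def con {X : Type*} (T : X → X) {n : ℕ} (I : (Fin (n + 2) → X) → ℂ) (x : Fin (n + 1) → X) : ℂ :=
  ∑ k : Fin (n + 1), (-1) ^ (k : ℕ) * I (prs T x k)

/-- The path from `x` along `e (s 0), e (s 1), ...`. -/
def pth {G X : Type*} [CommMonoid G] (act : G → X → X) {m : ℕ} (e : Fin m → G)
    (s : Perm (Fin m)) (x : X) (j : Fin (m + 1)) : X :=
  act (∏ i : Fin m, if (i : ℕ) < (j : ℕ) then e (s i) else 1) x

/-- The signed sum over the paths. -/
def Zs {G X : Type*} [CommMonoid G] (act : G → X → X) {m : ℕ} (e : Fin m → G)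
    (I : (Fin (m + 1) → X) → ℂ) (x : X) : ℂ :=
  ∑ s : Perm (Fin m), ((Perm.sign s : ℤ) : ℂ) * I (pth act e s x)

/-- The permutation `(0, ρ) * cycleRange k`. -/
def ins {m : ℕ} (k : Fin (m + 1)) (ρ : Perm (Fin m)) : Perm (Fin (m + 1)) :=
  Perm.decomposeFin.symm (0, ρ) * Fin.cycleRange k

theorem ins_self {m : ℕ} (k : Fin (m + 1)) (ρ : Perm (Fin m)) : ins k ρ k = 0 := by
  simp [ins]

theorem ins_succAbove {m : ℕ} (k : Fin (m + 1)) (ρ : Perm (Fin m)) (i : Fin m) :
    ins k ρ (k.succAbove i) = (ρ i).succ := by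
  simp [ins, Fin.cycleRange_succAbove]

theorem sign_ins {m : ℕ} (k : Fin (m + 1)) (ρ : Perm (Fin m)) :
    Perm.sign (ins k ρ) = (-1) ^ (k : ℕ) * Perm.sign ρ := by
  rw [ins, Perm.sign_mul, Fin.sign_cycleRange, Perm.decomposeFin.symm_sign]
  simp [mul_comm]

theorem ins_bijective {m : ℕ} :
    Function.Bijective (fun q : Fin (m + 1) × Perm (Fin m) => ins q.1 q.2) := by
  rw [Fintype.bijective_iff_injective_and_card]
  constructor
  · rintro ⟨k, ρ⟩ ⟨k', ρ'⟩ h
    simp only at h
    have hk : k = k' := by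
      have h1 : ins k ρ k = 0 := ins_self k ρ
      have h2 : ins k ρ k' = 0 := by rw [h]; exact ins_self k' ρ'
      exact (ins k ρ).injective (h1.trans h2.symm)
    subst hk
    have hρ : ρ = ρ' := by
      ext i
      have h1 := ins_succAbove k ρ i
      rw [h, ins_succAbove] at h1
      exact congrArg Fin.val (Fin.succ_injective _ h1.symm)
    rw [hρ]
  · simp [Fintype.card_perm, Nat.factorial_succ]

theorem pth_ins {G X : Type*} [CommMonoid G] (act : G → X → X)
    (hm : ∀ g h x, act (g * h) x = act g (act h x)) {m : ℕ} (e : Fin (m + 1) → G)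
    (k : Fin (m + 1)) (ρ : Perm (Fin m)) (x : X) :
    pth act e (ins k ρ) x = prs (act (e 0)) (pth act (fun i => e i.succ) ρ x) k := by
  funext j
  have key : (∏ i : Fin (m + 1), if (i : ℕ) < (j : ℕ) then e (ins k ρ i) else 1) =
      (if (k : ℕ) < (j : ℕ) then e 0 else 1) *
        ∏ i : Fin m, if ((k.succAbove i : Fin (m + 1)) : ℕ) < (j : ℕ) then e (ρ i).succ else 1 := by
    rw [Fin.prod_univ_succAbove _ k, ins_self]
    simp only [ins_succAbove]
  simp only [pth, prs]
  rw [key]
  by_cases h1 : (j : ℕ) ≤ k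
  · rw [dif_pos h1, if_neg (by omega), one_mul]
    congr 1
    refine Finset.prod_congr rfl fun i _ => ?_
    have : ((k.succAbove i : Fin (m + 1)) : ℕ) < (j : ℕ) ↔ (i : ℕ) < (j : ℕ) := by
      rw [Fin.succAbove]
      split_ifs with h3
      · simp
      · simp only [Fin.val_succ]
        rw [Fin.lt_def, Fin.val_castSucc] at h3
        omega
    simp only [this]
  · rw [dif_neg h1, if_pos (by omega), hm]
    congr 2
    refine Finset.prod_congr rfl fun i _ => ?_
    have : ((k.succAbove i : Fin (m + 1)) : ℕ) < (j : ℕ) ↔ (i : ℕ) < (j : ℕ) - 1 := by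
      rw [Fin.succAbove]
      split_ifs with h3
      · rw [Fin.lt_def, Fin.val_castSucc] at h3
        simp only [Fin.val_castSucc]
        omega
      · simp only [Fin.val_succ]
        rw [Fin.lt_def, Fin.val_castSucc] at h3
        omega
    simp only [this]

/-- Decomposition of the signed sum over the permutations by the position of `0`. -/
theorem Zs_succ {G X : Type*} [CommMonoid G] (act : G → X → X)
    (hm : ∀ g h x, act (g * h) x = act g (act h x)) {m : ℕ} (e : Fin (m + 1) → G)
    (I : (Fin (m + 2) → X) → ℂ) (x : X) :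
    Zs act e I x = Zs act (fun i => e i.succ) (con (act (e 0)) I) x := by
  have h := ins_bijective (m := m)
  rw [Zs, ← h.sum_comp, Fintype.sum_prod_type_right]
  simp only [Zs, con, pth_ins act hm, sign_ins]
  refine Finset.sum_congr rfl fun ρ _ => ?_
  rw [Finset.mul_sum]
  refine Finset.sum_congr rfl fun k _ => ?_
  push_cast
  ring

theorem double_sum (N : ℕ) (Φ Ψ : ℕ → ℕ → ℂ) (D : ℕ → ℂ) (h1 : ∀ k ≤ N, Φ k k = D k)
    (h2 : ∀ k ≤ N, Φ k (k + 1) = D (k + 1))
    (h3 : ∀ k l, l < k → k ≤ N → Φ k l = Ψ (k - 1) l)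
    (h4 : ∀ k l, k + 1 < l → l ≤ N + 1 → Φ k l = Ψ k (l - 1)) :
    ∑ k ∈ Finset.range (N + 1), (-1) ^ k * ∑ l ∈ Finset.range (N + 2), (-1) ^ l * Φ k l =
      D 0 - D (N + 1) -
        ∑ k ∈ Finset.range N, (-1) ^ k * ∑ l ∈ Finset.range (N + 1), (-1) ^ l * Ψ k l := by
  have hk : ∀ k ∈ Finset.range (N + 1), (-1) ^ k * ∑ l ∈ Finset.range (N + 2), (-1) ^ l * Φ k l =
      (D k - D (k + 1)) + ((-1) ^ k * ∑ l ∈ Finset.range k, (-1) ^ l * Ψ (k - 1) l -
        (-1) ^ k * ∑ l ∈ Finset.Ico (k + 1) (N + 1), (-1) ^ l * Ψ k l) := by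
    intro k hk
    rw [Finset.mem_range] at hk
    rw [← Finset.sum_range_add_sum_Ico _ (show k + 2 ≤ N + 2 by omega), Finset.sum_range_succ,
      Finset.sum_range_succ, h1 k (by omega), h2 k (by omega)]
    have e1 : ∑ l ∈ Finset.range k, (-1 : ℂ) ^ l * Φ k l =
        ∑ l ∈ Finset.range k, (-1) ^ l * Ψ (k - 1) l := by
      refine Finset.sum_congr rfl fun l hl => ?_
      rw [Finset.mem_range] at hl
      rw [h3 k l hl (by omega)]
    have e2 : ∑ l ∈ Finset.Ico (k + 2) (N + 2), (-1 : ℂ) ^ l * Φ k l =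
        - ∑ l ∈ Finset.Ico (k + 1) (N + 1), (-1) ^ l * Ψ k l := by
      rw [← Finset.sum_neg_distrib, ← Finset.sum_Ico_add' _ (k + 1) (N + 1) 1]
      refine Finset.sum_congr rfl fun l hl => ?_
      rw [Finset.mem_Ico] at hl
      rw [h4 k (l + 1) (by omega) (by omega), Nat.add_sub_cancel, pow_succ]
      ring
    rw [e1, e2]
    have e3 : ((-1 : ℂ) ^ k) * (-1) ^ k = 1 := by
      rw [← mul_pow]; norm_num
    rw [pow_succ]
    linear_combination (D k - D (k + 1)) * e3
  rw [Finset.sum_congr rfl hk, Finset.sum_add_distrib, Finset.sum_range_sub']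
  rw [Finset.sum_sub_distrib]
  have e4 : ∑ k ∈ Finset.range (N + 1), (-1 : ℂ) ^ k * ∑ l ∈ Finset.range k,
      (-1) ^ l * Ψ (k - 1) l =
      - ∑ k ∈ Finset.range N, (-1) ^ k * ∑ l ∈ Finset.range (k + 1), (-1) ^ l * Ψ k l := by
    rw [Finset.sum_range_succ']
    simp only [Finset.range_zero, Finset.sum_empty, mul_zero, add_zero]
    rw [← Finset.sum_neg_distrib]
    refine Finset.sum_congr rfl fun k _ => ?_
    rw [Nat.add_sub_cancel, pow_succ]
    ring
  have e5 : ∑ k ∈ Finset.range (N + 1), (-1 : ℂ) ^ k * ∑ l ∈ Finset.Ico (k + 1) (N + 1),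
      (-1) ^ l * Ψ k l =
      ∑ k ∈ Finset.range N, (-1) ^ k * ∑ l ∈ Finset.Ico (k + 1) (N + 1), (-1) ^ l * Ψ k l := by
    rw [Finset.sum_range_succ]
    simp
  rw [e4, e5]
  have e6 : ∑ k ∈ Finset.range N, (-1 : ℂ) ^ k * ∑ l ∈ Finset.range (N + 1), (-1) ^ l * Ψ k l =
      ∑ k ∈ Finset.range N, (-1) ^ k * ∑ l ∈ Finset.range (k + 1), (-1) ^ l * Ψ k l +
      ∑ k ∈ Finset.range N, (-1) ^ k * ∑ l ∈ Finset.Ico (k + 1) (N + 1), (-1) ^ l * Ψ k l := by
    rw [← Finset.sum_add_distrib]
    refine Finset.sum_congr rfl fun k hk => ?_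
    rw [Finset.mem_range] at hk
    rw [← mul_add, Finset.sum_range_add_sum_Ico _ (show k + 1 ≤ N + 1 by omega)]
  rw [e6]
  ring

/-- The prism operator preserves cocycles (homotopy formula). -/
theorem Coc.con {X : Type*} {Y : Set X} {T : X → X} {n : ℕ} {I : (Fin (n + 2) → X) → ℂ}
    (hc : Coc Y I) (hi : Inva Y T I) : Coc {y | y ∈ Y ∧ T y ∈ Y} (con T I) := by
  intro w hw
  set W : ℕ → X := fun j => w ⟨min j (n + 1), by omega⟩ with hW
  have hWw : ∀ (j : ℕ) (h : j < n + 2), W j = w ⟨j, h⟩ := by
    intro j h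
    simp only [hW]
    congr 1
    ext
    simp only
    omega
  set P : (ℕ → X) → ℕ → ℕ → X := fun V k j => if j ≤ k then V j else T (V (j - 1)) with hP
  set L : (ℕ → X) → ℕ → ℕ → X := fun V l j => if j < l then V j else V (j + 1) with hL
  set J : (ℕ → X) → ℂ := fun V => I (fun j : Fin (n + 2) => V j) with hJ
  have h0 := double_sum (n + 1) (fun k l => J (L (P W k) l)) (fun k l => J (P (L W l) k))
    (fun d => J (fun j => if j < d then W j else T (W j)))
    (by
      intro k _
      simp only [hJ, hL, hP]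
      congr 1
      funext j
      split_ifs <;> first | rfl | omega | skip)
    (by
      intro k _
      simp only [hJ, hL, hP]
      congr 1
      funext j
      split_ifs <;> first | rfl | omega | skip)
    (by
      intro k l hlk _
      simp only [hJ, hL, hP]
      congr 1
      funext j
      split_ifs <;> first | rfl | omega | skip
      rw [show (j : ℕ) + 1 - 1 = j - 1 + 1 by omega])
    (by
      intro k l hlk _
      simp only [hJ, hL, hP]
      congr 1
      funext j
      split_ifs <;> first | rfl | omega | skip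
      rw [show (j : ℕ) + 1 - 1 = j - 1 + 1 by omega])
  have hsA : ∀ {N : ℕ} (l : Fin (N + 1)) (j : Fin N),
      ((l.succAbove j : Fin (N + 1)) : ℕ) = if (j : ℕ) < l then (j : ℕ) else j + 1 := by
    intro N l j
    rw [Fin.succAbove]
    by_cases h : (j : ℕ) < l
    · rw [if_pos h, if_pos (by rw [Fin.lt_def, Fin.val_castSucc]; exact h), Fin.val_castSucc]
    · rw [if_neg h, if_neg (by rw [Fin.lt_def, Fin.val_castSucc]; exact h), Fin.val_succ]
  have hleft : ∀ k ∈ Finset.range (n + 1 + 1), (-1 : ℂ) ^ k *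
      ∑ l ∈ Finset.range (n + 1 + 2), (-1) ^ l * J (L (P W k) l) = 0 := by
    intro k hk
    rw [Finset.mem_range] at hk
    have h1 := hc (fun i : Fin (n + 3) => P W k i) (by
      intro i
      simp only [hP]
      split_ifs with h
      · exact (hw _).1
      · exact (hw _).2)
    rw [Finset.sum_range, mul_eq_zero]
    right
    rw [← h1]
    refine Finset.sum_congr rfl fun l _ => ?_
    congr 1
    simp only [hJ, hL]
    congr 1
    funext j
    rw [hsA l j]
    split_ifs <;> rfl
  rw [Finset.sum_eq_zero hleft] at h0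
  have hD0 : (J fun j => if j < 0 then W j else T (W j)) = I (fun j => T (w j)) := by
    simp only [hJ]
    congr 1
    funext j
    rw [if_neg (by omega), hWw j j.2]
  have hD1 : (J fun j => if j < n + 1 + 1 then W j else T (W j)) = I w := by
    simp only [hJ]
    congr 1
    funext j
    rw [if_pos (by omega), hWw j j.2]
  rw [hD0, hD1, hi w (fun j => (hw j).1) (fun j => (hw j).2), sub_self, zero_sub] at h0
  have h2 := neg_eq_zero.1 h0.symm
  rw [← h2, Finset.sum_range]
  simp only [MP_1a91b9_nuT.con, Finset.mul_sum, Finset.sum_range (n := n + 1 + 1)]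
  rw [Finset.sum_comm]
  refine Finset.sum_congr rfl fun k _ => Finset.sum_congr rfl fun i _ => ?_
  have e : prs T (fun j => w (i.succAbove j)) k = fun j : Fin (n + 2) => P (L W i) k j := by
    funext j
    simp only [prs, hP, hL]
    by_cases h : (j : ℕ) ≤ k
    · rw [dif_pos h, if_pos h]
      by_cases h' : (j : ℕ) < i
      · rw [if_pos h', hWw j (by omega)]
        congr 1
        ext
        rw [hsA, if_pos h']
      · rw [if_neg h', hWw (j + 1) (by omega)]
        congr 1
        ext
        rw [hsA, if_neg h']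
    · rw [dif_neg h, if_neg h]
      congr 1
      by_cases h' : (j : ℕ) - 1 < i
      · rw [if_pos h', hWw (j - 1) (by omega)]
        congr 1
        ext
        rw [hsA, if_pos h']
      · rw [if_neg h', hWw (j - 1 + 1) (by omega)]
        congr 1
        ext
        rw [hsA, if_neg h']
  rw [e]
  simp only [hJ]
  ring

/-- The prism operator preserves the invariance under a commuting map. -/
theorem Inva.con {X : Type*} {Y : Set X} {T T' : X → X} {n : ℕ} {I : (Fin (n + 2) → X) → ℂ}
    (hi : Inva Y T' I) (hT : ∀ x, T (T' x) = T' (T x)) :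
    Inva {y | y ∈ Y ∧ T y ∈ Y} T' (con T I) := by
  intro p hp hp'
  simp only [MP_1a91b9_nuT.con]
  refine Finset.sum_congr rfl fun k _ => ?_
  congr 1
  have e : prs T (fun j => T' (p j)) k = fun j => T' (prs T p k j) := by
    funext j
    simp only [prs]
    split_ifs with h
    · rfl
    · exact hT _
  rw [e]
  refine hi _ (fun j => ?_) (fun j => ?_)
  · simp only [prs]
    split_ifs with h
    · exact (hp _).1
    · exact (hp _).2
  · simp only [prs]
    split_ifs with h
    · exact (hp' _).1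
    · rw [← hT]
      exact (hp' _).2

/-- DOC2 2.4: independence of the base point. -/
theorem prism {G X : Type*} [CommMonoid G] (act : G → X → X) (h1 : ∀ x, act 1 x = x)
    (hm : ∀ g h x, act (g * h) x = act g (act h x)) :
    ∀ {m : ℕ} (e : Fin m → G) (Y : Set X) (I : (Fin (m + 1) → X) → ℂ),
      Coc Y I → (∀ i, Inva Y (act (e i)) I) → ∀ x x' : X,
      (∀ T : Finset (Fin m), act (∏ i ∈ T, e i) x ∈ Y) →
      (∀ T : Finset (Fin m), act (∏ i ∈ T, e i) x' ∈ Y) →
      Zs act e I x = Zs act e I x' := by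
  intro m
  induction m with
  | zero =>
    intro e Y I hc _ x x' hx hx'
    have hxY : x ∈ Y := by simpa [h1] using hx ∅
    have hxY' : x' ∈ Y := by simpa [h1] using hx' ∅
    have := hc ![x, x'] (by
      intro i
      fin_cases i
      · exact hxY
      · exact hxY')
    rw [Fin.sum_univ_two] at this
    have e0 : (fun j : Fin 1 => (![x, x'] : Fin 2 → X) ((0 : Fin 2).succAbove j)) =
        fun _ => x' := by
      funext j
      fin_cases j
      rfl
    have e1 : (fun j : Fin 1 => (![x, x'] : Fin 2 → X) ((1 : Fin 2).succAbove j)) =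
        fun _ => x := by
      funext j
      fin_cases j
      rfl
    rw [e0, e1] at this
    have e2 : ∀ y : X, pth act e 1 y = fun _ => y := by
      intro y
      funext j
      simp [pth, h1]
    simp only [Zs, Finset.univ_unique, Finset.sum_singleton]
    have e3 : (default : Perm (Fin 0)) = 1 := Subsingleton.elim _ _
    rw [e3, e2, e2]
    simp at this ⊢
    linear_combination -this
  | succ m ih =>
    intro e Y I hc hi x x' hx hx'
    rw [Zs_succ act hm, Zs_succ act hm]
    refine ih (fun i => e i.succ) {y | y ∈ Y ∧ act (e 0) y ∈ Y} _ (hc.con (hi 0))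
      (fun i => (hi i.succ).con fun x => ?_) x x' (fun T => ?_) fun T => ?_
    · rw [← hm, ← hm, mul_comm]
    · constructor
      · have := hx (T.map (Fin.succEmb m))
        rwa [Finset.prod_map] at this
      · have := hx (insert 0 (T.map (Fin.succEmb m)))
        rw [Finset.prod_insert, Finset.prod_map, hm] at this
        · exact this
        · simp [Fin.succ_ne_zero]
    · constructor
      · have := hx' (T.map (Fin.succEmb m))
        rwa [Finset.prod_map] at this
      · have := hx' (insert 0 (T.map (Fin.succEmb m)))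
        rw [Finset.prod_insert, Finset.prod_map, hm] at this
        · exact this
        · simp [Fin.succ_ne_zero]

end

end Pool.Agent.Lib.MP_1a91b9_nuT
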