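import Pool.Agent.Lib.MP_1a91b9_nuT.S2.C1

/-!
# S2c: the alternation lemma (DOC2 2.5)

For a translation invariant homogeneous cocycle `I` on an additive group `A`, the signed sum over
the paths from `0` is multiadditive in the steps.
-/

set_option autoImplicit false

namespace Pool.Agent.Lib.MP_1a91b9_nuT

open Equiv

noncomputable section

theorem Zs_comp {G X : Type*} [CommMonoid G] (act : G → X → X) {m : ℕ} (e : Fin m → G)
    (I : (Fin (m + 1) → X) → ℂ) (x : X) (τ : Perm (Fin m)) :
    Zs act (fun i => e (τ i)) I x = ((Perm.sign τ : ℤ) : ℂ) * Zs act e I x := by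
  rw [Zs, Zs, Finset.mul_sum]
  have h0 := Equiv.sum_comp (Equiv.mulLeft τ)
    (fun s => ((Perm.sign τ : ℤ) : ℂ) * (((Perm.sign s : ℤ) : ℂ) * I (pth act e s x)))
  rw [← h0]
  refine Finset.sum_congr rfl fun s _ => ?_
  have h : pth act (fun i => e (τ i)) s x = pth act e (τ * s) x := rfl
  rw [h, Equiv.coe_mulLeft, Perm.sign_mul]
  have h2 : ((Perm.sign τ : ℤ) : ℂ) * ((Perm.sign τ : ℤ) : ℂ) = 1 := by
    rcases Int.units_eq_one_or (Perm.sign τ) with h | h <;> simp [h]
  push_cast
  linear_combination (-((Perm.sign s : ℤ) : ℂ) * I (pth act e (τ * s) x)) * h2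

variable {A : Type*} [AddCommGroup A]

/-- The action by translations. -/
def actA (g : Multiplicative A) (x : A) : A := g.toAdd + x


theorem actA_mul (g h : Multiplicative A) (x : A) : actA (g * h) x = actA g (actA h x) := by
  simp [actA, add_assoc]

/-- The signed sum over the paths from `0`, as a function of the steps. -/
def ZA {m : ℕ} (I : (Fin (m + 1) → A) → ℂ) (e : Fin m → A) : ℂ :=
  Zs actA (fun i => Multiplicative.ofAdd (e i)) I 0

theorem ZA_last_add : ∀ {m : ℕ} (I : (Fin (m + 2) → A) → ℂ), Coc Set.univ I →
    (∀ a : A, Inva Set.univ (fun x => a + x) I) → ∀ (e : Fin (m + 1) → A) (b c : A),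
    ZA I (Function.update e (Fin.last m) (b + c)) =
      ZA I (Function.update e (Fin.last m) b) + ZA I (Function.update e (Fin.last m) c) := by
  intro m
  induction m with
  | zero =>
    intro I hc hi e b c
    have key : ∀ b : A, ZA I (Function.update e (Fin.last 0) b) = I ![0, b] := by
      intro b
      simp only [ZA, Zs]
      rw [Finset.univ_unique, Finset.sum_singleton]
      have e3 : (default : Perm (Fin 1)) = 1 := Subsingleton.elim _ _
      rw [e3]
      have : pth actA (fun i => Multiplicative.ofAdd (Function.update e (Fin.last 0) b i)) 1 0 =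
          ![0, b] := by
        funext j
        fin_cases j
        · simp [pth, actA]
        · simp [pth, actA]
      rw [this]
      simp
    rw [key, key, key]
    have h1 := hc ![0, b, b + c] (fun _ => Set.mem_univ _)
    rw [Fin.sum_univ_three] at h1
    have e0 : (fun j : Fin 2 => (![0, b, b + c] : Fin 3 → A) ((0 : Fin 3).succAbove j)) =
        fun j => b + (![0, c] : Fin 2 → A) j := by
      funext j
      fin_cases j
      · simp
      · simp
    have e1 : (fun j : Fin 2 => (![0, b, b + c] : Fin 3 → A) ((1 : Fin 3).succAbove j)) =
        ![0, b + c] := by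
      funext j
      fin_cases j <;> rfl
    have e2 : (fun j : Fin 2 => (![0, b, b + c] : Fin 3 → A) ((2 : Fin 3).succAbove j)) =
        ![0, b] := by
      funext j
      fin_cases j <;> rfl
    rw [e0, e1, e2, hi b _ (fun _ => Set.mem_univ _) (fun _ => Set.mem_univ _)] at h1
    simp at h1
    linear_combination -h1
  | succ m ih =>
    intro I hc hi e b c
    have key : ∀ b : A, ZA I (Function.update e (Fin.last (m + 1)) b) =
        ZA (con (fun x => e 0 + x) I) (Function.update (fun i => e i.succ) (Fin.last m) b) := by
      intro b
      rw [ZA, Zs_succ actA actA_mul]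
      have h0 : Function.update e (Fin.last (m + 1)) b 0 = e 0 :=
        Function.update_of_ne (by simp [Fin.ext_iff]) _ _
      have h1 : ∀ i : Fin (m + 1), Function.update e (Fin.last (m + 1)) b i.succ =
          Function.update (fun i => e i.succ) (Fin.last m) b i := by
        intro i
        by_cases h : i = Fin.last m
        · subst h
          simp [Fin.succ_last]
        · rw [Function.update_of_ne h, Function.update_of_ne]
          intro h'
          apply h
          rw [← Fin.succ_last] at h'
          exact Fin.succ_injective _ h'
      simp only [h0, h1]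
      rfl
    rw [key, key, key]
    have hset : {y : A | y ∈ Set.univ ∧ e 0 + y ∈ Set.univ} = Set.univ := by
      ext; simp
    refine ih _ ?_ (fun a => ?_) _ b c
    · have := hc.con (hi (e 0))
      rwa [hset] at this
    · have := (hi a).con (T := fun x => e 0 + x) (fun x => by
        show e 0 + (a + x) = a + (e 0 + x)
        abel)
      rwa [hset] at this

theorem ZA_add {m : ℕ} (I : (Fin (m + 1) → A) → ℂ) (hc : Coc Set.univ I)
    (hi : ∀ a : A, Inva Set.univ (fun x => a + x) I) (e : Fin m → A) (i : Fin m) (b c : A) :
    ZA I (Function.update e i (b + c)) =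
      ZA I (Function.update e i b) + ZA I (Function.update e i c) := by
  obtain _ | m := m
  · exact i.elim0
  · have key : ∀ b : A, ZA I (Function.update e i b) =
        ((Perm.sign (swap i (Fin.last m)) : ℤ) : ℂ) *
          ZA I (Function.update (fun j => e (swap i (Fin.last m) j)) (Fin.last m) b) := by
      intro b
      rw [ZA, ZA]
      have := Zs_comp actA (fun i_1 => Multiplicative.ofAdd
        (Function.update (fun j => e (swap i (Fin.last m) j)) (Fin.last m) b i_1)) I 0
        (swap i (Fin.last m))
      rw [← this]
      congr 1
      funext j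
      congr 1
      by_cases h : j = i
      · subst h
        simp
      · rw [Function.update_of_ne h, Function.update_of_ne]
        · simp
        · intro h'
          apply h
          have := congrArg (swap i (Fin.last m)) h'
          simpa using this
    rw [key, key, key, ZA_last_add I hc hi]
    ring

/-- The signed sum over the paths, as a multilinear map over `ℕ`. -/
def ZM {m : ℕ} (I : (Fin (m + 1) → A) → ℂ) (hc : Coc Set.univ I)
    (hi : ∀ a : A, Inva Set.univ (fun x => a + x) I) :
    MultilinearMap ℕ (fun _ : Fin m => A) ℂ where
  toFun := ZA I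
  map_update_add' := by
    intro inst e i b c
    have hinst : inst = instDecidableEqFin m := Subsingleton.elim _ _
    subst hinst
    exact ZA_add I hc hi e i b c
  map_update_smul' := by
    intro inst e i n b
    have hinst : inst = instDecidableEqFin m := Subsingleton.elim _ _
    subst hinst
    have h := ZA_add I hc hi e i
    have hn : ∀ n : ℕ, ZA I (Function.update e i (n • b)) = n • ZA I (Function.update e i b) := by
      intro n
      induction n with
      | zero =>
        have := h 0 0
        rw [add_zero] at this
        rw [zero_smul, zero_smul]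
        linear_combination -this
      | succ n ihn => rw [succ_nsmul, succ_nsmul, h, ihn]
    exact hn n

theorem ZA_nsmul {m : ℕ} (I : (Fin (m + 1) → A) → ℂ) (hc : Coc Set.univ I)
    (hi : ∀ a : A, Inva Set.univ (fun x => a + x) I) (e : Fin m → A) (N : ℕ) :
    ZA I (fun i => N • e i) = (N : ℂ) ^ m * ZA I e := by
  have := (ZM I hc hi).map_smul_univ (fun _ => N) e
  simp only [Finset.prod_const, Finset.card_univ, Fintype.card_fin] at this
  have h2 : ZA I (fun i => N • e i) = N ^ m • ZA I e := this
  rw [h2, nsmul_eq_mul]
  push_cast
  ring

end

end Pool.Agent.Lib.MP_1a91b9_nuT
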