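import Pool.Agent.Lib.MP_1a91b9_nuT.S2.Herm

/-!
# S2, uniform bounds for the forms
-/

set_option autoImplicit false

namespace Pool.Agent.Lib.MP_1a91b9_nuT.S2A

variable [CD]

open NumberField MeasureTheory Module

noncomputable section

universe u

variable {F : Type u} [Field F] [NumberField F] [Algebra K F] {n : ℕ}

/-- The allowed forms, with bounds for the diagonal ones. -/
def OkB (S : Set F) (a b : ℝ) : Frm F n → Prop
  | .dg y => ∀ j, a ≤ y j ∧ y j ≤ b
  | .bd v => v ∈ S

/-- The allowed forms. -/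
def Ok (S : Set F) : Frm F n → Prop
  | .dg y => ∀ j, 0 < y j
  | .bd v => v ∈ S

/-- The subfamily `J` is full: the sum of the values is positive definite. -/
def FullOn (σ : Fin n → (F →ₐ[K] ℂ)) {M : ℕ} (P : Fin M → Frm F n) (J : Finset (Fin M)) : Prop :=
  ∀ w : Fin n → ℂ, w ≠ 0 → 0 < ∑ i ∈ J, val σ (P i) w

end

end Pool.Agent.Lib.MP_1a91b9_nuT.S2A

/-!
# Job FRM1
-/

set_option autoImplicit false

namespace Pool.Agent.Lib.MP_1a91b9_nuT.S2A

variable [CD]

open NumberField MeasureTheory Module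

noncomputable section

universe u

variable {F : Type u} [Field F] [NumberField F] [Algebra K F] {n : ℕ}

/-- JOB FRM1. -/
theorem val_nonneg (σ : Fin n → (F →ₐ[K] ℂ)) {S : Set F} {a b : ℝ} (ha : 0 ≤ a) {P : Frm F n}
    (hP : OkB S a b P) (w : Fin n → ℂ) : 0 ≤ val σ P w := by
  cases P with
  | dg y =>
    simp only [val]
    exact Finset.sum_nonneg fun j _ => mul_nonneg (ha.trans (hP j).1) (sq_nonneg _)
  | bd v =>
    simp only [val]
    exact sq_nonneg _

/-- JOB FRM1. Any finite family of allowed forms satisfies uniform bounds: take `a` the minimum and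
`b` the maximum of the finitely many coordinates of the diagonal members (and of `1`). -/
theorem exists_okB {S : Set F} {M : ℕ} (P : Fin M → Frm F n) (hP : ∀ i, Ok S (P i)) :
    ∃ a b : ℝ, 0 < a ∧ ∀ i, OkB S a b (P i) := by
  classical
  obtain ⟨c, hc⟩ : ∃ c : Fin M × Fin n → ℝ, c = fun x => match P x.1 with
    | .dg y => y x.2
    | .bd _ => 1 := ⟨_, rfl⟩
  have hpos : ∀ x, 0 < c x := by
    intro x
    have h1 := hP x.1
    rw [hc]
    simp only
    cases h2 : P x.1 with
    | dg y => rw [h2] at h1; exact h1 x.2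
    | bd v => exact one_pos
  have hkey : ∃ a b : ℝ, 0 < a ∧ ∀ x, a ≤ c x ∧ c x ≤ b := by
    rcases isEmpty_or_nonempty (Fin M × Fin n) with he | he
    · exact ⟨1, 1, one_pos, fun x => (he.false x).elim⟩
    · obtain ⟨x0, hx0⟩ := Finite.exists_min c
      obtain ⟨x1, hx1⟩ := Finite.exists_max c
      exact ⟨c x0, c x1, hpos x0, fun x => ⟨hx0 x, hx1 x⟩⟩
  obtain ⟨a, b, ha, hab⟩ := hkey
  refine ⟨a, b, ha, fun i => ?_⟩
  have h1 := hP i
  cases h2 : P i with
  | dg y =>
    intro j
    have h3 := hab (i, j)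
    rw [hc] at h3
    simp only [h2] at h3
    exact h3
  | bd v =>
    rw [h2] at h1
    exact h1

/-- JOB FRM1. -/
theorem mat_bound (σ : Fin n → (F →ₐ[K] ℂ)) {S : Set F} (hS : S.Finite) (a b : ℝ) (ha : 0 ≤ a) :
    ∃ B : ℝ, 0 ≤ B ∧ ∀ P : Frm F n, OkB S a b P → ∀ j k, ‖mat σ P j k‖ ≤ B := by
  classical
  obtain ⟨C, hC⟩ : ∃ C : ℝ, C = ∑ v ∈ hS.toFinset, ∑ j, ∑ k, ‖σ j v‖ * ‖σ k v‖ := ⟨_, rfl⟩
  have hC0 : 0 ≤ C := by
    rw [hC]
    positivity
  refine ⟨|b| + C, by positivity, fun P hP j k => ?_⟩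
  cases P with
  | dg y =>
    have h1 : ‖mat σ (Frm.dg y : Frm F n) j k‖ ≤ |b| := by
      simp only [mat]
      by_cases h : j = k
      · subst h
        rw [Matrix.diagonal_apply_eq, Complex.norm_real, Real.norm_eq_abs]
        have h2 := hP j
        rw [abs_of_nonneg (ha.trans h2.1)]
        exact h2.2.trans (le_abs_self b)
      · rw [Matrix.diagonal_apply_ne _ h, norm_zero]
        exact abs_nonneg b
    linarith
  | bd v =>
    have hv : v ∈ hS.toFinset := hS.mem_toFinset.2 hP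
    have h1 : ‖mat σ (Frm.bd v : Frm F n) j k‖ ≤ C := by
      simp only [mat, Matrix.of_apply]
      rw [norm_mul, RCLike.norm_conj, hC]
      refine le_trans ?_ (Finset.single_le_sum (f := fun v => ∑ j, ∑ k, ‖σ j v‖ * ‖σ k v‖)
        (fun v _ => by positivity) hv)
      refine le_trans ?_ (Finset.single_le_sum (f := fun j => ∑ k, ‖σ j v‖ * ‖σ k v‖)
        (fun j _ => by positivity) (Finset.mem_univ j))
      exact Finset.single_le_sum (f := fun k => ‖σ j v‖ * ‖σ k v‖)
        (fun k _ => by positivity) (Finset.mem_univ k)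
    have h2 := abs_nonneg b
    linarith

end

end Pool.Agent.Lib.MP_1a91b9_nuT.S2A

/-!
# Job FRM2
-/

set_option autoImplicit false

namespace Pool.Agent.Lib.MP_1a91b9_nuT.S2A

variable [CD]

open NumberField MeasureTheory Module

noncomputable section

universe u

variable {F : Type u} [Field F] [NumberField F] [Algebra K F] {n : ℕ}

/-- A continuous function, homogeneous of degree two and positive off `0`, is bounded below. -/
theorem FRM2_hom {n : ℕ} (f : (Fin n → ℂ) → ℝ) (hf : Continuous f)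
    (hh : ∀ (r : ℝ) (w : Fin n → ℂ), 0 ≤ r → f (r • w) = r ^ 2 * f w)
    (hp : ∀ w, w ≠ 0 → 0 < f w) :
    ∃ c : ℝ, 0 < c ∧ ∀ w, c * ‖w‖ ^ 2 ≤ f w := by
  have h0 : f 0 = 0 := by
    have := hh 0 0 le_rfl
    rw [smul_zero] at this
    rw [this]
    ring
  by_cases hn : (Metric.sphere (0 : Fin n → ℂ) 1).Nonempty
  · obtain ⟨x, hx, hmin⟩ := (isCompact_sphere (0 : Fin n → ℂ) 1).exists_isMinOn hn
      hf.continuousOn
    have hx1 : ‖x‖ = 1 := by simpa using hx
    refine ⟨f x, hp x ?_, ?_⟩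
    · intro h
      rw [h, norm_zero] at hx1
      norm_num at hx1
    · intro w
      by_cases hw : w = 0
      · rw [hw, h0, norm_zero]
        simp
      · have hw0 : 0 < ‖w‖ := norm_pos_iff.mpr hw
        have h1 : f x ≤ f ((‖w‖⁻¹ : ℝ) • w) := by
          apply hmin
          rw [mem_sphere_zero_iff_norm, norm_smul, Real.norm_eq_abs, abs_of_pos (inv_pos.mpr hw0),
            inv_mul_cancel₀ hw0.ne']
        have h2 := hh ‖w‖ ((‖w‖⁻¹ : ℝ) • w) hw0.le
        rw [smul_smul, mul_inv_cancel₀ hw0.ne', one_smul] at h2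
        rw [h2, mul_comm]
        exact mul_le_mul_of_nonneg_left h1 (by positivity)
  · refine ⟨1, one_pos, ?_⟩
    intro w
    have hw : w = 0 := by
      by_contra hw
      apply hn
      have hw0 : 0 < ‖w‖ := norm_pos_iff.mpr hw
      refine ⟨(‖w‖⁻¹ : ℝ) • w, ?_⟩
      rw [mem_sphere_zero_iff_norm, norm_smul, Real.norm_eq_abs, abs_of_pos (inv_pos.mpr hw0),
        inv_mul_cancel₀ hw0.ne']
    rw [hw, h0, norm_zero]
    simp

omit [NumberField F] in
theorem FRM2_lin_smul (σ : Fin n → (F →ₐ[K] ℂ)) (v : F) (r : ℝ) (w : Fin n → ℂ) :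
    lin σ v (r • w) = (r : ℂ) * lin σ v w := by
  unfold lin
  rw [Finset.mul_sum]
  refine Finset.sum_congr rfl fun j _ => ?_
  rw [Pi.smul_apply, Complex.real_smul]
  ring

omit [NumberField F] in
theorem FRM2_lin_cont (σ : Fin n → (F →ₐ[K] ℂ)) (v : F) :
    Continuous (fun w : Fin n → ℂ => lin σ v w) := by
  unfold lin
  fun_prop

theorem FRM2_norm {n : ℕ} (w : Fin n → ℂ) : ‖w‖ ^ 2 ≤ ∑ j, ‖w j‖ ^ 2 := by
  have h0 : 0 ≤ ∑ j, ‖w j‖ ^ 2 := Finset.sum_nonneg fun j _ => by positivity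
  have h1 : ‖w‖ ≤ Real.sqrt (∑ j, ‖w j‖ ^ 2) := by
    rw [pi_norm_le_iff_of_nonneg (Real.sqrt_nonneg _)]
    intro j
    apply Real.le_sqrt_of_sq_le
    exact Finset.single_le_sum (f := fun j => ‖w j‖ ^ 2) (fun i _ => by positivity)
      (Finset.mem_univ j)
  calc ‖w‖ ^ 2 ≤ (Real.sqrt (∑ j, ‖w j‖ ^ 2)) ^ 2 := by
        exact pow_le_pow_left₀ (norm_nonneg w) h1 2
    _ = _ := Real.sq_sqrt h0

/-- A positive lower bound for finitely many positive numbers. -/
theorem FRM2_min {ι : Type*} (s : Finset ι) (c : ι → ℝ) (hc : ∀ i, 0 < c i) (a : ℝ) (ha : 0 < a) :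
    ∃ ε : ℝ, 0 < ε ∧ ε ≤ a ∧ ∀ i ∈ s, ε ≤ c i := by
  classical
  induction s using Finset.induction_on with
  | empty => exact ⟨a, ha, le_rfl, by simp⟩
  | insert i s _ ih =>
    obtain ⟨ε, h1, h2, h3⟩ := ih
    refine ⟨min ε (c i), lt_min h1 (hc i), le_trans (min_le_left _ _) h2, ?_⟩
    intro j hj
    rcases Finset.mem_insert.mp hj with rfl | hj
    · exact min_le_right _ _
    · exact le_trans (min_le_left _ _) (h3 j hj)

/-- JOB FRM2. Uniform lower bound for full subfamilies.
Proof: if some `P i`, `i ∈ J`, is `dg y`: `val ≥ a ∑ ‖w_j‖² ≥ a ‖w‖²` and the others are `≥ 0`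
(`val_nonneg`).  Otherwise all `P i = bd v_i` with `v_i ∈ S`; put
`T = {v_i : i ∈ J}`, a subset of `S`; `∑_{i ∈ J} ‖lin σ v_i w‖² ≥ ∑_{v ∈ T} ‖lin σ v w‖²` (each
`v ∈ T` occurs at least once) and the right side is positive for `w ≠ 0` (if it is `0` then all
`lin σ v_i w = 0`).  For each of the finitely many subsets `T ⊆ S` for which
`f_T w = ∑_{v ∈ T} ‖lin σ v w‖²` is positive off `0` there is `c_T > 0` with `f_T w ≥ c_T ‖w‖²`
(continuous, homogeneous of degree `2`, compact unit sphere; if `n = 0` everything is trivial).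
Take the minimum of `a` and the `c_T`. -/
theorem full_lower (σ : Fin n → (F →ₐ[K] ℂ)) {S : Set F} (hS : S.Finite) (a b : ℝ) (ha : 0 < a) :
    ∃ c : ℝ, 0 < c ∧ ∀ (M : ℕ) (P : Fin M → Frm F n) (J : Finset (Fin M)),
      (∀ i ∈ J, OkB S a b (P i)) → FullOn σ P J →
      ∀ w : Fin n → ℂ, c * ‖w‖ ^ 2 ≤ ∑ i ∈ J, val σ (P i) w := by
  classical
  have hT : ∀ T : Finset F, ∃ c : ℝ, 0 < c ∧ ((∀ w : Fin n → ℂ, w ≠ 0 →
      0 < ∑ v ∈ T, ‖lin σ v w‖ ^ 2) → ∀ w : Fin n → ℂ, c * ‖w‖ ^ 2 ≤ ∑ v ∈ T, ‖lin σ v w‖ ^ 2) := by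
    intro T
    by_cases hp : ∀ w : Fin n → ℂ, w ≠ 0 → 0 < ∑ v ∈ T, ‖lin σ v w‖ ^ 2
    · obtain ⟨c, hc, h⟩ := FRM2_hom (fun w => ∑ v ∈ T, ‖lin σ v w‖ ^ 2)
        (continuous_finsetSum _ fun v _ => ((FRM2_lin_cont σ v).norm).pow 2)
        (by
          intro r w _
          simp only [FRM2_lin_smul, norm_mul, Complex.norm_real, mul_pow, Real.norm_eq_abs,
            sq_abs, Finset.mul_sum]) hp
      exact ⟨c, hc, fun _ => h⟩
    · exact ⟨1, one_pos, fun h => absurd h hp⟩
  choose cT hcT hcT' using hT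
  obtain ⟨ε, hε, hεa, hεT⟩ := FRM2_min hS.toFinset.powerset cT hcT a ha
  refine ⟨ε, hε, ?_⟩
  intro M P J hOk hfull w
  have hnn : ∀ i ∈ J, 0 ≤ val σ (P i) w := fun i hi => val_nonneg σ ha.le (hOk i hi) w
  by_cases hd : ∃ i ∈ J, ∃ y, P i = Frm.dg y
  · obtain ⟨i, hi, y, hy⟩ := hd
    have h1 : val σ (P i) w ≤ ∑ i ∈ J, val σ (P i) w :=
      Finset.single_le_sum (f := fun i => val σ (P i) w) hnn hi
    refine le_trans ?_ h1
    have h2 := hOk i hi
    rw [hy] at h2 ⊢
    have h3 : ∀ j, a ≤ y j ∧ y j ≤ b := h2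
    calc ε * ‖w‖ ^ 2 ≤ a * ∑ j, ‖w j‖ ^ 2 :=
          mul_le_mul hεa (FRM2_norm w) (by positivity) ha.le
      _ = ∑ j, a * ‖w j‖ ^ 2 := Finset.mul_sum _ _ _
      _ ≤ ∑ j, y j * ‖w j‖ ^ 2 := Finset.sum_le_sum fun j _ =>
          mul_le_mul_of_nonneg_right (h3 j).1 (by positivity)
      _ = val σ (Frm.dg y) w := rfl
  · have hb : ∀ i ∈ J, ∃ v ∈ S, P i = Frm.bd v := by
      intro i hi
      cases hPi : P i with
      | dg y => exact absurd ⟨i, hi, y, hPi⟩ hd
      | bd v =>
        have h2 := hOk i hi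
        rw [hPi] at h2
        exact ⟨v, h2, rfl⟩
    set T : Finset F := hS.toFinset.filter (fun v => ∃ i ∈ J, P i = Frm.bd v) with hTdef
    have hTS : T ∈ hS.toFinset.powerset := Finset.mem_powerset.mpr (Finset.filter_subset _ _)
    have hTp : ∀ w : Fin n → ℂ, w ≠ 0 → 0 < ∑ v ∈ T, ‖lin σ v w‖ ^ 2 := by
      intro x hx
      by_contra hneg
      have h0 : ∑ v ∈ T, ‖lin σ v x‖ ^ 2 = 0 :=
        le_antisymm (not_lt.mp hneg) (Finset.sum_nonneg fun v _ => by positivity)
      rw [Finset.sum_eq_zero_iff_of_nonneg (fun v _ => by positivity)] at h0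
      have h1 := hfull x hx
      have h2 : ∑ i ∈ J, val σ (P i) x = 0 := by
        refine Finset.sum_eq_zero fun i hi => ?_
        obtain ⟨v, hv, hPv⟩ := hb i hi
        rw [hPv]
        exact h0 v (by
          rw [hTdef, Finset.mem_filter]
          exact ⟨hS.mem_toFinset.mpr hv, i, hi, hPv⟩)
      rw [h2] at h1
      exact lt_irrefl _ h1
    have h3 := hcT' T hTp w
    have h4 : ∑ v ∈ T, ‖lin σ v w‖ ^ 2 ≤ ∑ i ∈ J, val σ (P i) w := by
      have hex : ∀ v ∈ T, ∃ i ∈ J, P i = Frm.bd v := fun v hv => (Finset.mem_filter.mp hv).2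
      choose ix hix hPx using hex
      have hinj : Set.InjOn (fun v : T => ix v.1 v.2) (T.attach : Set T) := by
        intro v hv v' hv' hvv
        have e1 := hPx v.1 v.2
        have e2 := hPx v'.1 v'.2
        have hvv' : ix v.1 v.2 = ix v'.1 v'.2 := hvv
        rw [hvv', e2] at e1
        injection e1 with e3
        exact Subtype.ext e3.symm
      have h5 : ∑ v ∈ T, ‖lin σ v w‖ ^ 2 =
          ∑ i ∈ T.attach.image (fun v : T => ix v.1 v.2), val σ (P i) w := by
        rw [Finset.sum_image hinj, ← Finset.sum_attach]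
        refine Finset.sum_congr rfl fun v _ => ?_
        rw [hPx v.1 v.2]
        rfl
      rw [h5]
      refine Finset.sum_le_sum_of_subset_of_nonneg ?_ fun i hi _ => hnn i hi
      intro i hi
      obtain ⟨v, hv, rfl⟩ := Finset.mem_image.mp hi
      exact hix v.1 v.2
    calc ε * ‖w‖ ^ 2 ≤ cT T * ‖w‖ ^ 2 :=
          mul_le_mul_of_nonneg_right (hεT T hTS) (by positivity)
      _ ≤ _ := h3
      _ ≤ _ := h4

end

end Pool.Agent.Lib.MP_1a91b9_nuT.S2A

/-!
# Job FRM3
-/

set_option autoImplicit false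

namespace Pool.Agent.Lib.MP_1a91b9_nuT.S2A

variable [CD]

open NumberField MeasureTheory Module

noncomputable section

universe u

variable {F : Type u} [Field F] [NumberField F] [Algebra K F] {n : ℕ}

/-- JOB FRM3. A nonzero element of `K` whose multiple by the positive integer `D` is integral has
absolute value at least `1 / D` in `ℂ` (`one_le_embK`). -/
theorem embK_lower (D : ℕ) (hD : 0 < D) (y : K) (hy : y ≠ 0) (hi : IsIntegral ℤ ((D : K) * y)) :
    1 / (D : ℝ) ≤ ‖embK y‖ := by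
  have hD' : (0 : ℝ) < D := by exact_mod_cast hD
  have hDK : (D : K) ≠ 0 := by exact_mod_cast hD.ne'
  have h1 := one_le_embK ((D : K) * y) (mul_ne_zero hDK hy) hi
  rw [map_mul, map_natCast, norm_mul, Complex.norm_natCast] at h1
  rw [div_le_iff₀ hD']
  linarith [mul_comm (D : ℝ) ‖embK y‖]

/-- JOB FRM3. The gap: all allowed forms are bounded below on the support of `δ`.
Proof: `dg y`: `val ≥ a ‖vec σ z‖² ≥ a / D²` (`one_le_vec`, `z ≠ 0` because `δ 0 = 0`).
`bd v`: `lin σ v (vec σ z) = TF (v z) = embK (trace (v z))` (`lin_vec`), `trace (v z) ≠ 0` by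
`hδ.ne`; for each of the finitely many `v ∈ S` there is `D_v > 0` with `D_v v` integral
(`exists_integral_multiple`...), and `(D D_v) trace (v z) = trace ((D_v v) (D z))` is integral
(`Algebra.isIntegral_trace`), so `embK_lower` applies. -/
theorem gap (σ : Fin n → (F →ₐ[K] ℂ)) (hσ : Function.Bijective σ) {δ : F → ℂ} {S : Set F}
    (hS : S.Finite) (hδ : Adm2 δ S) (a b : ℝ) (ha : 0 < a) :
    ∃ p : ℝ, 0 < p ∧ ∀ P : Frm F n, OkB S a b P → ∀ z : F, δ z ≠ 0 → p ≤ val σ P (vec σ z) := by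
  obtain ⟨D, hD, hlat⟩ := hδ.lat
  have hDR : (0 : ℝ) < D := by exact_mod_cast hD
  obtain ⟨y, hy, hyS⟩ := exists_integral_multiples ℤ ℚ (hS.toFinset : Finset F)
  have hN : 0 < y.natAbs := Int.natAbs_pos.2 hy
  have hNR : (0 : ℝ) < (y.natAbs : ℝ) := by exact_mod_cast hN
  have hNv : ∀ v ∈ S, IsIntegral ℤ ((y.natAbs : F) * v) := by
    intro v hv
    have h1 := hyS v (hS.mem_toFinset.2 hv)
    rw [zsmul_eq_mul] at h1
    rcases Int.natAbs_eq y with h2 | h2
    · rw [h2, Int.cast_natCast] at h1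
      exact h1
    · rw [h2, Int.cast_neg, Int.cast_natCast, neg_mul] at h1
      have h3 := h1.neg
      rwa [neg_neg] at h3
  refine ⟨min (a * (1 / (D : ℝ)) ^ 2) ((1 / ((D * y.natAbs : ℕ) : ℝ)) ^ 2), lt_min (by positivity) ?_, ?_⟩
  · have : (0 : ℝ) < ((D * y.natAbs : ℕ) : ℝ) := by
      exact_mod_cast Nat.mul_pos hD hN
    positivity
  · intro P hP z hz
    have hz0 : z ≠ 0 := by
      rintro rfl
      exact hz hδ.zero
    cases P with
    | dg yy =>
      refine (min_le_left _ _).trans ?_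
      have h1 := one_le_vec σ hσ D hD z hz0 (hlat z hz)
      have h2 : ∃ j, 1 / (D : ℝ) ≤ ‖vec σ z j‖ := by
        by_contra hc
        push Not at hc
        exact absurd h1 (not_le.2 ((pi_norm_lt_iff (by positivity)).2 hc))
      obtain ⟨j, hj⟩ := h2
      have hP' : ∀ j, a ≤ yy j ∧ yy j ≤ b := hP
      have hval : val σ (.dg yy : Frm F n) (vec σ z) = ∑ j, yy j * ‖vec σ z j‖ ^ 2 := rfl
      rw [hval]
      have h3 : yy j * ‖vec σ z j‖ ^ 2 ≤ ∑ j, yy j * ‖vec σ z j‖ ^ 2 := by
        refine Finset.single_le_sum (f := fun j => yy j * ‖vec σ z j‖ ^ 2) (fun i _ => ?_)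
          (Finset.mem_univ j)
        have := (hP' i).1
        have h4 : 0 ≤ yy i := by linarith
        positivity
      refine le_trans ?_ h3
      have h5 : (1 / (D : ℝ)) ^ 2 ≤ ‖vec σ z j‖ ^ 2 := pow_le_pow_left₀ (by positivity) hj 2
      exact mul_le_mul (hP' j).1 h5 (by positivity) (by linarith [(hP' j).1])
    | bd v =>
      refine (min_le_right _ _).trans ?_
      have hv : v ∈ S := hP
      have hval : val σ (.bd v : Frm F n) (vec σ z) = ‖lin σ v (vec σ z)‖ ^ 2 := rfl
      rw [hval, lin_vec σ hσ]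
      refine pow_le_pow_left₀ (by positivity) ?_ 2
      have htr : Algebra.trace K F (v * z) ≠ 0 := (hδ.ne v hv).2 z hz
      refine embK_lower (D * y.natAbs) (Nat.mul_pos hD hN) _ htr ?_
      have h1 : IsIntegral ℤ (((y.natAbs : F) * v) * ((D : F) * z)) := (hNv v hv).mul (hlat z hz)
      have h2 := Algebra.isIntegral_trace (L := K) h1
      have h3 : ((y.natAbs : F) * v) * ((D : F) * z) = ((D * y.natAbs : ℕ) : K) • (v * z) := by
        rw [Algebra.smul_def, map_natCast]
        push_cast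
        ring
      rw [h3, map_smul, smul_eq_mul] at h2
      exact h2

end

end Pool.Agent.Lib.MP_1a91b9_nuT.S2A

/-!
# Job FRM4
-/

set_option autoImplicit false

namespace Pool.Agent.Lib.MP_1a91b9_nuT.S2A

variable [CD]

open NumberField MeasureTheory Module

noncomputable section

universe u

variable {F : Type u} [Field F] [NumberField F] [Algebra K F] {n : ℕ}

/-- JOB FRM4. If `V` is a set of vectors such that no `α ≠ 0` satisfies `Tr (v α) = 0` for all
`v ∈ V`, then `lin σ v w = 0` for all `v ∈ V` implies `w = 0`.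
Proof: the `K`-span of `V` is `F` (otherwise the trace form, which is nondegenerate,
`traceForm_nondegenerate K F`, gives such an `α`: the orthogonal complement of a proper subspace is
not `0`).  `v ↦ lin σ v w` is additive and `K`-semilinear (`lin σ (k • v) w = embK k * lin σ v w`),
so `lin σ v w = 0` for all `v ∈ F`.  The `σ_j` are linearly independent over `ℂ` (Dedekind,
`linearIndependent_monoidHom` / `AlgHom` version), so `w = 0`. -/
theorem eq_zero_of_lin (σ : Fin n → (F →ₐ[K] ℂ)) (hσ : Function.Bijective σ) (V : Set F)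
    (hV : ∀ α : F, (∀ v ∈ V, Algebra.trace K F (v * α) = 0) → α = 0)
    (w : Fin n → ℂ) (hw : ∀ v ∈ V, lin σ v w = 0) : w = 0 := by
  have hspan : Submodule.span K V = ⊤ := by
    by_contra hne
    have hlt : Submodule.span K V < ⊤ := lt_top_iff_ne_top.2 hne
    obtain ⟨f, hf, hle⟩ := Submodule.exists_le_ker_of_lt_top _ hlt
    have hnd : (Algebra.traceForm K F).Nondegenerate := traceForm_nondegenerate K F
    set α : F := ((Algebra.traceForm K F).toDual hnd).symm f with hα
    have hαf : ∀ v, Algebra.trace K F (α * v) = f v := by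
      intro v
      have h := congrArg (fun g => g v)
        (((Algebra.traceForm K F).toDual hnd).apply_symm_apply f)
      simpa [LinearMap.BilinForm.toDual_def, Algebra.traceForm_apply, ← hα] using h
    have h0 : α = 0 := by
      apply hV
      intro v hv
      rw [mul_comm, hαf]
      exact LinearMap.mem_ker.1 (hle (Submodule.subset_span hv))
    apply hf
    ext v
    rw [← hαf, h0]
    simp
  have hall : ∀ v : F, lin σ v w = 0 := by
    intro v
    have hv : v ∈ Submodule.span K V := by rw [hspan]; trivial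
    induction hv using Submodule.span_induction with
    | mem x hx => exact hw x hx
    | zero => simp [lin]
    | add x y _ _ hx hy =>
      have e : lin σ (x + y) w = lin σ x w + lin σ y w := by
        simp [lin, add_mul, Finset.sum_add_distrib]
      rw [e, hx, hy, add_zero]
    | smul k x _ hx =>
      have e : lin σ (k • x) w = (algebraMap K ℂ k) * lin σ x w := by
        simp only [lin, Finset.mul_sum]
        refine Finset.sum_congr rfl fun j _ => ?_
        rw [Algebra.smul_def, map_mul, AlgHom.commutes, mul_assoc]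
      rw [e, hx, mul_zero]
  have hli := (linearIndependent_monoidHom F ℂ).comp (fun j => ((σ j : F →+* ℂ) : F →* ℂ))
    (by
      intro i j hij
      apply hσ.1
      ext x
      exact DFunLike.congr_fun hij x)
  rw [Fintype.linearIndependent_iff] at hli
  funext j
  refine hli w ?_ j
  funext v
  have h := hall v
  simp only [lin] at h
  simpa [mul_comm] using h

end

end Pool.Agent.Lib.MP_1a91b9_nuT.S2A

/-!
# Job FRM5
-/

set_option autoImplicit false

namespace Pool.Agent.Lib.MP_1a91b9_nuT.S2A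

variable [CD]

open NumberField MeasureTheory Module

noncomputable section

universe u

variable {F : Type u} [Field F] [NumberField F] [Algebra K F] {n : ℕ}

/-- JOB FRM5. A subfamily which is not full consists of boundary forms with a common orthogonal
vector.
Proof: take `w ≠ 0` with `∑_{i ∈ J} val ≤ 0`; all terms are `≥ 0` (`val_nonneg`), so all are `0`;
a diagonal form has `val ≥ a ‖w_j‖²`, positive for some `j`, so there is none; hence `P i = bd v_i`
with `lin σ v_i w = 0`.  `eq_zero_of_lin` with `V = {v_i}` (contrapositive) gives `α`. -/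
theorem not_full (σ : Fin n → (F →ₐ[K] ℂ)) (hσ : Function.Bijective σ) {S : Set F} {a b : ℝ}
    (ha : 0 < a) {M : ℕ} (P : Fin M → Frm F n) (J : Finset (Fin M))
    (hP : ∀ i ∈ J, OkB S a b (P i)) (h : ¬ FullOn σ P J) :
    ∃ α : F, α ≠ 0 ∧ ∀ i ∈ J, ∃ v ∈ S, P i = .bd v ∧ Algebra.trace K F (v * α) = 0 := by
  unfold FullOn at h
  push Not at h
  obtain ⟨w, hw, hle⟩ := h
  have hnn : ∀ i ∈ J, 0 ≤ val σ (P i) w := fun i hi => val_nonneg σ ha.le (hP i hi) w
  have h0 : ∀ i ∈ J, val σ (P i) w = 0 :=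
    (Finset.sum_eq_zero_iff_of_nonneg hnn).1 (le_antisymm hle (Finset.sum_nonneg hnn))
  have hbd : ∀ i ∈ J, ∃ v ∈ S, P i = .bd v ∧ lin σ v w = 0 := by
    intro i hi
    have h1 := h0 i hi
    have h2 := hP i hi
    cases hPi : P i with
    | dg y =>
      exfalso
      rw [hPi] at h1 h2
      apply hw
      have h3 : ∀ j, 0 ≤ y j * ‖w j‖ ^ 2 := fun j =>
        mul_nonneg (ha.le.trans (h2 j).1) (by positivity)
      have h4 := (Finset.sum_eq_zero_iff_of_nonneg (fun j _ => h3 j)).1 h1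
      funext j
      have h5 := h4 j (Finset.mem_univ j)
      have h6 : y j ≠ 0 := (ha.trans_le (h2 j).1).ne'
      have h7 : ‖w j‖ ^ 2 = 0 := (mul_eq_zero.1 h5).resolve_left h6
      exact norm_eq_zero.1 (pow_eq_zero_iff (two_ne_zero) |>.1 h7)
    | bd v =>
      rw [hPi] at h1 h2
      exact ⟨v, h2, rfl, norm_eq_zero.1 (pow_eq_zero_iff (two_ne_zero) |>.1 h1)⟩
  by_contra hcon
  push Not at hcon
  apply hw
  refine eq_zero_of_lin σ hσ {v : F | ∃ i ∈ J, P i = .bd v} ?_ w ?_
  · intro α hα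
    by_contra hne
    obtain ⟨i, hi, h1⟩ := hcon α hne
    obtain ⟨v, hv, hPi, _⟩ := hbd i hi
    exact h1 v hv hPi (hα v ⟨i, hi, hPi⟩)
  · rintro v ⟨i, hi, hPi⟩
    obtain ⟨v', _, hPi', h2⟩ := hbd i hi
    rw [hPi] at hPi'
    injection hPi' with e
    rw [e]
    exact h2

/-- JOB FRM5. `hm (mat (bd v))` vanishes on vectors orthogonal to `v` (`hm_bd`, `lin_vec`). -/
theorem hm_orth (σ : Fin n → (F →ₐ[K] ℂ)) (hσ : Function.Bijective σ) (v a : F)
    (h : Algebra.trace K F (v * a) = 0) (w : Fin n → ℂ) :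
    hm (mat σ (.bd v)) (cj (vec σ a)) w = 0 ∧ hm (mat σ (.bd v)) w (vec σ a) = 0 := by
  have h0 : lin σ v (vec σ a) = 0 := by
    rw [lin_vec σ hσ, TF, h, map_zero]
  constructor
  · have h1 : (∑ j, (starRingEnd ℂ) (σ j v) * cj (vec σ a) j) = 0 := by
      have h2 := congrArg (starRingEnd ℂ) h0
      simpa [lin, cj] using h2
    rw [hm_bd, h1, zero_mul]
  · rw [hm_bd, h0, mul_zero]

end

end Pool.Agent.Lib.MP_1a91b9_nuT.S2A

/-!
# Job FRM6
-/

set_option autoImplicit false

namespace Pool.Agent.Lib.MP_1a91b9_nuT.S2A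

variable [CD]

open NumberField MeasureTheory Module

noncomputable section

universe u

variable {F : Type u} [Field F] [NumberField F] [Algebra K F] {n : ℕ}

/-- JOB FRM6. The cut: the largest `t i₀` such that the forms with `t i ≥ t i₀` are full.
Proof: the set of `i₀` with `FullOn {i | t i₀ ≤ t i}` is not empty (`M ≥ 1` since the empty family
is not full: `n ≥ 1`, take `w = 1`; take `i₀` with minimal `t i₀`).  Choose `i₀` in it with maximal
`t i₀` (`Finset.exists_max_image`).  If `{i | t i₀ < t i}` were full it would be nonempty; with `i₁`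
minimising `t` on it, `{i | t i₁ ≤ t i} = {i | t i₀ < t i}`, contradiction. -/
theorem exists_cut (σ : Fin n → (F →ₐ[K] ℂ)) (hn : 1 ≤ n) {M : ℕ} (P : Fin M → Frm F n)
    (h : FullOn σ P Finset.univ) (t : Fin M → ℝ) :
    ∃ i₀, FullOn σ P (Finset.univ.filter fun i => t i₀ ≤ t i) ∧
      ¬ FullOn σ P (Finset.univ.filter fun i => t i₀ < t i) := by
  have hemp : ¬ FullOn σ P (∅ : Finset (Fin M)) := by
    intro h1
    have h2 := h1 (fun _ => 1) (by
      intro h3
      have h4 := congrFun h3 ⟨0, hn⟩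
      simp at h4)
    simp at h2
  have key : ∀ J : Finset (Fin M), (∀ i ∈ J, ∀ k, t i ≤ t k → k ∈ J) → FullOn σ P J →
      ∃ i ∈ J, FullOn σ P (Finset.univ.filter fun k => t i ≤ t k) := by
    intro J hup hJ
    have hne : J.Nonempty := by
      rw [Finset.nonempty_iff_ne_empty]
      intro h1
      exact hemp (h1 ▸ hJ)
    obtain ⟨i, hi, hmin⟩ := Finset.exists_min_image J t hne
    refine ⟨i, hi, ?_⟩
    have e : (Finset.univ.filter fun k => t i ≤ t k) = J := by
      ext k
      simp only [Finset.mem_filter, Finset.mem_univ, true_and]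
      exact ⟨fun h1 => hup i hi k h1, fun h1 => hmin k h1⟩
    rw [e]
    exact hJ
  classical
  obtain ⟨i₁, _, h₁⟩ := key Finset.univ (fun _ _ k _ => Finset.mem_univ k) h
  obtain ⟨i₀, hi₀, hmax⟩ := Finset.exists_max_image
    (Finset.univ.filter fun i => FullOn σ P (Finset.univ.filter fun k => t i ≤ t k)) t
    ⟨i₁, by simpa using h₁⟩
  refine ⟨i₀, by simpa using hi₀, fun hcon => ?_⟩
  obtain ⟨i₂, hi₂, h₂⟩ := key _ (fun i hi k hk => by
    simp only [Finset.mem_filter, Finset.mem_univ, true_and] at hi ⊢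
    exact hi.trans_le hk) hcon
  simp only [Finset.mem_filter, Finset.mem_univ, true_and] at hi₂
  exact absurd (hmax i₂ (by simpa using h₂)) (not_le.2 hi₂)

end

end Pool.Agent.Lib.MP_1a91b9_nuT.S2A
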