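import Pool.Agent.Lib.MP_1a91b9_nuT.S2.Decay

/-!
# S2, exports of the decay lemma: determinants, theta function
-/

set_option autoImplicit false

namespace Pool.Agent.Lib.MP_1a91b9_nuT.S2A

variable [CD]

open NumberField MeasureTheory Module

noncomputable section

universe u

variable {F : Type u} [Field F] [NumberField F] [Algebra K F] {n : ℕ}

/-- The theta function on the torus plane. -/
def th (σ : Fin n → (F →ₐ[K] ℂ)) (δ : F → ℂ) (y : Fin n → ℝ) : ℂ :=
  ∑' z : F, δ z * (starRingEnd ℂ) (NF z) * (Real.exp (-∑ j, y j * ‖σ j z‖ ^ 2) : ℂ)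

/-- The family `P` is full (positive definite sum). -/
def FullE (σ : Fin n → (F →ₐ[K] ℂ)) {ι : Type*} (P : ι → Frm F n) : Prop :=
  ∀ w : Fin n → ℂ, w ≠ 0 → ∃ i, 0 < val σ (P i) w

end

end Pool.Agent.Lib.MP_1a91b9_nuT.S2A

/-!
# Job EXA
-/

set_option autoImplicit false

namespace Pool.Agent.Lib.MP_1a91b9_nuT.S2A

variable [CD]

open NumberField MeasureTheory Module

noncomputable section

universe u

variable {F : Type u} [Field F] [NumberField F] [Algebra K F] {n : ℕ}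

/-- JOB EXA. (`val_nonneg`, `exists_okB` for the nonnegativity.) -/
theorem fullOn_of_fullE (σ : Fin n → (F →ₐ[K] ℂ)) {S : Set F} {M : ℕ} (P : Fin M → Frm F n)
    (hP : ∀ i, Ok S (P i)) (hF : FullE σ P) : FullOn σ P Finset.univ := by
  intro w hw
  obtain ⟨a, b, ha, hab⟩ := exists_okB P hP
  obtain ⟨i, hi⟩ := hF w hw
  exact Finset.sum_pos' (fun j _ => val_nonneg σ ha.le (hab j) w) ⟨i, Finset.mem_univ i, hi⟩

/-- JOB EXA. The determinant of the rows as a combination of products of `n` functionals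
(`Matrix.det_apply'`, `rowL_iot`). -/
theorem det_eq (σ : Fin n → (F →ₐ[K] ℂ)) (P : Fin n → Frm F n) (w : Fin n → ℂ) :
    (Matrix.of fun i j => row σ (P i) w j).det =
      ∑ τ : Equiv.Perm (Fin n), ((Equiv.Perm.sign τ : ℤ) : ℂ) *
        ∏ i, rowL σ (P (τ i)) i (iot w) := by
  rw [Matrix.det_apply']
  refine Finset.sum_congr rfl fun τ _ => ?_
  congr 1
  refine Finset.prod_congr rfl fun i _ => ?_
  rw [rowL_iot, Matrix.of_apply]

/-- JOB EXA. `val σ R w = ∑ j, row σ R w j * w j`. -/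
theorem val_eq (σ : Fin n → (F →ₐ[K] ℂ)) (R : Frm F n) (w : Fin n → ℂ) :
    (val σ R w : ℂ) = ∑ j, rowL σ R j (iot w) * crd j (iot w) := by
  simp only [rowL_iot, crd_iot]
  cases R with
  | dg y =>
    unfold val row
    push_cast
    refine Finset.sum_congr rfl fun j _ => ?_
    rw [mul_assoc, Complex.conj_mul']
  | bd v =>
    have h : ∀ j, row σ (.bd v) w j * w j = (starRingEnd ℂ) (lin σ v w) * (σ j v * w j) := by
      intro j
      unfold row
      ring
    simp only [h]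
    rw [← Finset.mul_sum]
    have h2 : ∑ j, σ j v * w j = lin σ v w := rfl
    rw [h2, Complex.conj_mul']
    unfold val
    push_cast
    rfl

end

end Pool.Agent.Lib.MP_1a91b9_nuT.S2A

/-!
# Job EXB
-/

set_option autoImplicit false

namespace Pool.Agent.Lib.MP_1a91b9_nuT.S2A

variable [CD]

open NumberField MeasureTheory Module

noncomputable section

universe u

variable {F : Type u} [Field F] [NumberField F] [Algebra K F] {n : ℕ}

theorem EXB_comb {ι κ : Type*} (s : Finset κ) (c : κ → ℂ) (g : κ → ι → ℂ)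
    (h : ∀ a ∈ s, Summable fun z => ‖g a z‖) : Summable fun z => ‖∑ a ∈ s, c a * g a z‖ := by
  refine Summable.of_nonneg_of_le (fun z => norm_nonneg _) (fun z => norm_sum_le _ _) ?_
  refine summable_sum fun a ha => ?_
  simp only [norm_mul]
  exact (h a ha).mul_left ‖c a‖

/-- JOB EXB. Absolute convergence (E1): expand with `det_eq`, `gg_iot`, `summable_gg` (with
`q = n`, the functionals `fun i => rowL σ (Q (τ i)) i`); `fullOn_of_fullE`. -/
theorem ex_summable (σ : Fin n → (F →ₐ[K] ℂ)) (hσ : Function.Bijective σ) {δ : F → ℂ} {S : Set F}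
    (hS : S.Finite) (hδ : Adm2 δ S) {M : ℕ} (P : Fin M → Frm F n) (hP : ∀ i, Ok S (P i))
    (hF : FullE σ P) (R : Fin n → Frm F n) (t : Fin M → ℝ) (ht : ∀ i, 0 < t i) :
    Summable fun z : F => ‖δ z * (Matrix.of fun i j => row σ (R i) (vec σ z) j).det *
      (Real.exp (-∑ i, t i * val σ (P i) (vec σ z)) : ℂ)‖ := by
  have e : (fun z : F => ‖δ z * (Matrix.of fun i j => row σ (R i) (vec σ z) j).det *
      (Real.exp (-∑ i, t i * val σ (P i) (vec σ z)) : ℂ)‖) = fun z => ‖∑ τ : Equiv.Perm (Fin n),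
        ((Equiv.Perm.sign τ : ℤ) : ℂ) * (δ z * gg (Hm σ P t) (fun i => rowL σ (R (τ i)) i)
          (iot (vec σ z)))‖ := by
    funext z
    congr 1
    rw [det_eq, Finset.mul_sum, Finset.sum_mul]
    refine Finset.sum_congr rfl fun τ _ => ?_
    rw [gg_iot]
    unfold QQ
    ring
  rw [e]
  exact EXB_comb _ _ _ fun τ _ => summable_gg σ hσ hS hδ n M P hP (fullOn_of_fullE σ P hP hF) _ t ht

/-- JOB EXB. The same with the factor `val σ R₀` (`q = n + 2`: the functionals
`Fin.cons (rowL σ R₀ j) (Fin.cons (crd j) (fun i => rowL σ (R (τ i)) i))`, `val_eq`). -/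
theorem ex_summable_val (σ : Fin n → (F →ₐ[K] ℂ)) (hσ : Function.Bijective σ) {δ : F → ℂ}
    {S : Set F} (hS : S.Finite) (hδ : Adm2 δ S) {M : ℕ} (P : Fin M → Frm F n)
    (hP : ∀ i, Ok S (P i)) (hF : FullE σ P) (R₀ : Frm F n) (R : Fin n → Frm F n) (t : Fin M → ℝ)
    (ht : ∀ i, 0 < t i) :
    Summable fun z : F => ‖δ z * (val σ R₀ (vec σ z) : ℂ) *
      (Matrix.of fun i j => row σ (R i) (vec σ z) j).det *
      (Real.exp (-∑ i, t i * val σ (P i) (vec σ z)) : ℂ)‖ := by
  have e : (fun z : F => ‖δ z * (val σ R₀ (vec σ z) : ℂ) *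
      (Matrix.of fun i j => row σ (R i) (vec σ z) j).det *
      (Real.exp (-∑ i, t i * val σ (P i) (vec σ z)) : ℂ)‖) = fun z =>
        ‖∑ p ∈ (Finset.univ : Finset (Fin n)) ×ˢ (Finset.univ : Finset (Equiv.Perm (Fin n))),
        ((Equiv.Perm.sign p.2 : ℤ) : ℂ) * (δ z * gg (Hm σ P t)
          (Fin.cons (rowL σ R₀ p.1) (Fin.cons (crd p.1) (fun i => rowL σ (R (p.2 i)) i)) :
            Fin (n + 1 + 1) → (XX n →L[ℂ] ℂ)) (iot (vec σ z)))‖ := by
    funext z
    congr 1
    rw [Finset.sum_product_right, det_eq, val_eq, Finset.mul_sum, Finset.sum_mul]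
    refine Finset.sum_congr rfl fun τ _ => ?_
    rw [Finset.mul_sum, Finset.sum_mul, Finset.sum_mul]
    refine Finset.sum_congr rfl fun j _ => ?_
    rw [gg_iot, Fin.prod_univ_succ, Fin.prod_univ_succ]
    simp only [Fin.cons_zero, Fin.cons_succ]
    unfold QQ
    ring
  rw [e]
  exact EXB_comb _ _ _ fun p _ => summable_gg σ hσ hS hδ (n + 1 + 1) M P hP
    (fullOn_of_fullE σ P hP hF) _ t ht

end

end Pool.Agent.Lib.MP_1a91b9_nuT.S2A

/-!
# Job EXC
-/

set_option autoImplicit false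

namespace Pool.Agent.Lib.MP_1a91b9_nuT.S2A

variable [CD]

open NumberField MeasureTheory Module

noncomputable section

universe u

variable {F : Type u} [Field F] [NumberField F] [Algebra K F] {n : ℕ}

/-- JOB EXC. `exp (-c ∑ t_i)` is integrable on the orthant (product of one dimensional ones:
`Real.exp_sum`, `Integrable.fintype_prod`, `Measure.restrict_pi_pi`). -/
theorem integrableOn_exp_orthant (M : ℕ) (c : ℝ) (hc : 0 < c) :
    IntegrableOn (fun t : Fin M → ℝ => Real.exp (-c * ∑ i, t i))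
      (Set.univ.pi fun _ => Set.Ioi (0 : ℝ)) := by
  have h1 : IntegrableOn (fun u : ℝ => Real.exp (-c * u)) (Set.Ioi (0 : ℝ)) :=
    exp_neg_integrableOn_Ioi 0 hc
  rw [IntegrableOn, volume_pi, Measure.restrict_pi_pi]
  have h2 := Integrable.fintype_prod (ι := Fin M) (𝕜 := ℝ)
    (μ := fun _ => volume.restrict (Set.Ioi (0 : ℝ)))
    (f := fun _ u => Real.exp (-c * u)) (fun _ => h1)
  refine h2.congr (Filter.Eventually.of_forall fun t => ?_)
  simp only
  rw [Finset.mul_sum, Real.exp_sum]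

private theorem exc_one (σ : Fin n → (F →ₐ[K] ℂ)) (hσ : Function.Bijective σ) {δ : F → ℂ}
    {S : Set F} (hS : S.Finite) (hδ : Adm2 δ S) {M : ℕ} (P : Fin M → Frm F n)
    (hP : ∀ i, Ok S (P i)) (hF : FullE σ P) (q : ℕ) (L : Fin q → (XX n →L[ℂ] ℂ)) :
    IntegrableOn (fun t : Fin M → ℝ => ∑' z : F, δ z * gg (Hm σ P t) L (iot (vec σ z)))
      (Set.univ.pi fun _ => Set.Ioi (0 : ℝ)) := by
  have hF' := fullOn_of_fullE σ P hP hF
  have hcont := continuousOn_gg σ hσ hS hδ q M P hP hF' L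
  obtain ⟨a, b, ha, hab⟩ := exists_okB P hP
  obtain ⟨C, c, hC, hc, h⟩ := decay_zero σ hσ hS hδ a b ha q M (∑ i, ‖L i‖)
    (Finset.sum_nonneg fun i _ => norm_nonneg _)
  have hmeas : MeasurableSet (Set.univ.pi fun _ : Fin M => Set.Ioi (0 : ℝ)) :=
    MeasurableSet.univ_pi fun _ => measurableSet_Ioi
  refine Integrable.mono' ((integrableOn_exp_orthant M c hc).const_mul C)
    (hcont.aestronglyMeasurable hmeas) ?_
  refine (ae_restrict_iff' hmeas).2 (Filter.Eventually.of_forall fun t ht => ?_)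
  exact h P hab hF' L (fun i => Finset.single_le_sum (f := fun i => ‖L i‖)
    (fun j _ => norm_nonneg _) (Finset.mem_univ i)) t (fun i => ht i (Set.mem_univ i))

private theorem exc_comb (σ : Fin n → (F →ₐ[K] ℂ)) (hσ : Function.Bijective σ) {δ : F → ℂ}
    {S : Set F} (hS : S.Finite) (hδ : Adm2 δ S) {M : ℕ} (P : Fin M → Frm F n)
    (hP : ∀ i, Ok S (P i)) (hF : FullE σ P) (q : ℕ) {α : Type*} [Fintype α] (c : α → ℂ)
    (L : α → Fin q → (XX n →L[ℂ] ℂ)) (G : (Fin M → ℝ) → F → ℂ)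
    (hG : ∀ t z, G t z = ∑ a, c a * (δ z * gg (Hm σ P t) (L a) (iot (vec σ z)))) :
    IntegrableOn (fun t : Fin M → ℝ => ∑' z : F, G t z)
      (Set.univ.pi fun _ => Set.Ioi (0 : ℝ)) := by
  have hF' := fullOn_of_fullE σ P hP hF
  have hmeas : MeasurableSet (Set.univ.pi fun _ : Fin M => Set.Ioi (0 : ℝ)) :=
    MeasurableSet.univ_pi fun _ => measurableSet_Ioi
  have h1 : IntegrableOn (fun t : Fin M → ℝ => ∑ a, c a *
      ∑' z : F, δ z * gg (Hm σ P t) (L a) (iot (vec σ z)))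
      (Set.univ.pi fun _ => Set.Ioi (0 : ℝ)) :=
    integrable_finsetSum _ fun a _ =>
      (exc_one σ hσ hS hδ P hP hF q (L a)).const_mul (c a)
  refine h1.congr_fun (fun t ht => ?_) hmeas
  have ht' : ∀ i, 0 < t i := fun i => ht i (Set.mem_univ i)
  simp only
  rw [tsum_congr fun z => hG t z, Summable.tsum_finsetSum]
  · refine Finset.sum_congr rfl fun a _ => ?_
    rw [tsum_mul_left]
  · intro a _
    exact (summable_gg σ hσ hS hδ q M P hP hF' (L a) t ht').of_norm.mul_left (c a)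


/-- JOB EXC. Integrability (E2), in the same way. -/
theorem ex_integrable_val (σ : Fin n → (F →ₐ[K] ℂ)) (hσ : Function.Bijective σ) {δ : F → ℂ}
    {S : Set F} (hS : S.Finite) (hδ : Adm2 δ S) {M : ℕ} (P : Fin M → Frm F n)
    (hP : ∀ i, Ok S (P i)) (hF : FullE σ P) (R₀ : Frm F n) (R : Fin n → Frm F n) :
    IntegrableOn (fun t : Fin M → ℝ => ∑' z : F, δ z * (val σ R₀ (vec σ z) : ℂ) *
      (Matrix.of fun i j => row σ (R i) (vec σ z) j).det *
      (Real.exp (-∑ i, t i * val σ (P i) (vec σ z)) : ℂ))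
      (Set.univ.pi fun _ => Set.Ioi (0 : ℝ)) := by
  refine exc_comb σ hσ hS hδ P hP hF (n + 2)
    (fun τ : Fin n × Equiv.Perm (Fin n) => ((Equiv.Perm.sign τ.2 : ℤ) : ℂ))
    (fun τ => Fin.cons (rowL σ R₀ τ.1) (Fin.cons (crd τ.1) (fun i => rowL σ (R (τ.2 i)) i))) _ ?_
  intro t z
  rw [det_eq, val_eq, Fintype.sum_prod_type_right, Finset.mul_sum, Finset.sum_mul]
  refine Finset.sum_congr rfl fun τ _ => ?_
  rw [Finset.mul_sum, Finset.sum_mul, Finset.sum_mul]
  refine Finset.sum_congr rfl fun j _ => ?_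
  rw [gg_iot, Fin.prod_univ_succ, Fin.prod_univ_succ]
  simp only [QQ, Fin.cons_zero, Fin.cons_succ]
  ring

end

end Pool.Agent.Lib.MP_1a91b9_nuT.S2A

/-!
# Job THA
-/

set_option autoImplicit false

namespace Pool.Agent.Lib.MP_1a91b9_nuT.S2A

variable [CD]

open NumberField MeasureTheory Module

noncomputable section

universe u

variable {F : Type u} [Field F] [NumberField F] [Algebra K F] {n : ℕ}

/-- JOB THA. The theta function as a sum of `gg` (`P = fun _ : Fin 1 => dg y`, the functionals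
`crc`, `NF_eq`). -/
theorem th_eq (σ : Fin n → (F →ₐ[K] ℂ)) (hσ : Function.Bijective σ) (δ : F → ℂ) (y : Fin n → ℝ)
    (t : ℝ) :
    th σ δ (t • y) = ∑' z, δ z * gg (Hm σ (fun _ : Fin 1 => (.dg y : Frm F n)) (fun _ => t))
      (fun j => crc j) (iot (vec σ z)) := by
  unfold th
  refine tsum_congr fun z => ?_
  rw [gg_iot, NF_eq σ hσ, map_prod, mul_assoc]
  have e : ∑ j, (t • y) j * ‖σ j z‖ ^ 2 =
      QQ σ (fun _ : Fin 1 => (.dg y : Frm F n)) (fun _ => t) (vec σ z) := by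
    unfold QQ
    rw [Fin.sum_univ_one]
    show _ = t * ∑ j, y j * ‖σ j z‖ ^ 2
    rw [Finset.mul_sum]
    refine Finset.sum_congr rfl fun j _ => ?_
    rw [Pi.smul_apply, smul_eq_mul, mul_assoc]
  rw [e]
  rfl

/-- JOB THA. Uniform decay of the theta function (`decay` with `M = 1`, `Λ = 1`, `q = n`). -/
theorem th_bound (σ : Fin n → (F →ₐ[K] ℂ)) (hσ : Function.Bijective σ) {δ : F → ℂ} {S : Set F}
    (hS : S.Finite) (hδ : Adm2 δ S) (a b : ℝ) (ha : 0 < a) (k : ℕ) :
    ∃ C c : ℝ, 0 ≤ C ∧ 0 < c ∧ ∀ y : Fin n → ℝ, (∀ j, a ≤ y j ∧ y j ≤ b) → ∀ t : ℝ, 0 < t →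
      ‖th σ δ (t • y)‖ ≤ C * t ^ k * Real.exp (-c * t) := by
  obtain ⟨C, c, hC, hc, h⟩ := decay σ hσ hS hδ a b ha n k 1 1 zero_le_one
  refine ⟨C, c, hC, hc, fun y hy t ht => ?_⟩
  have hy0 : ∀ j, 0 < y j := fun j => lt_of_lt_of_le ha (hy j).1
  have hfull : FullOn σ (fun _ : Fin 1 => (.dg y : Frm F n)) Finset.univ := by
    refine fullOn_of_fullE σ (S := S) _ (fun i => ?_) ?_
    · exact hy0
    · intro w hw
      refine ⟨0, ?_⟩
      obtain ⟨j, hj⟩ := Function.ne_iff.1 hw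
      show 0 < ∑ j, y j * ‖w j‖ ^ 2
      refine Finset.sum_pos' (fun i _ => mul_nonneg (hy0 i).le (sq_nonneg _)) ⟨j, Finset.mem_univ _, ?_⟩
      have h1 : 0 < ‖w j‖ := norm_pos_iff.2 hj
      have h2 := hy0 j
      positivity
  obtain ⟨i₀, h1⟩ := h (fun _ => .dg y) (fun _ => hy) hfull (fun j => crc j)
    (fun j => norm_crc_le j) (fun _ => t) (fun _ => ht)
  rw [th_eq σ hσ]
  rw [Fin.sum_univ_one] at h1
  exact h1

end

end Pool.Agent.Lib.MP_1a91b9_nuT.S2A

/-!
# Job THB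
-/

set_option autoImplicit false

namespace Pool.Agent.Lib.MP_1a91b9_nuT.S2A

variable [CD]

open NumberField MeasureTheory Module

noncomputable section

universe u

variable {F : Type u} [Field F] [NumberField F] [Algebra K F] {n : ℕ}

/-- The terms of the theta series as values of `gg`. -/
private theorem THB_term (σ : Fin n → (F →ₐ[K] ℂ)) (hσ : Function.Bijective σ) (δ : F → ℂ)
    (y : Fin n → ℝ) (z : F) :
    δ z * gg (Hm σ (fun _ : Fin 1 => (.dg y : Frm F n)) (fun _ => 1)) (fun j => crc j)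
      (iot (vec σ z)) = δ z * (starRingEnd ℂ) (NF z) *
      (Real.exp (-∑ j, y j * ‖σ j z‖ ^ 2) : ℂ) := by
  have h1 : QQ σ (fun _ : Fin 1 => (.dg y : Frm F n)) (fun _ => 1) (vec σ z) =
      ∑ j, y j * ‖σ j z‖ ^ 2 := by
    simp [QQ, val, vec]
  have h2 : ∏ j : Fin n, (crc j : XX n →L[ℂ] ℂ) (iot (vec σ z)) = (starRingEnd ℂ) (NF z) := by
    rw [NF_eq σ hσ, map_prod]
    exact Finset.prod_congr rfl fun j _ => crc_iot j (vec σ z)
  rw [gg_iot, h1, h2, mul_assoc]

private theorem THB_full (σ : Fin n → (F →ₐ[K] ℂ)) (y : Fin n → ℝ) (hy : ∀ j, 0 < y j) :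
    FullOn σ (fun _ : Fin 1 => (.dg y : Frm F n)) Finset.univ := by
  intro w hw
  have h : ∑ i ∈ (Finset.univ : Finset (Fin 1)), val σ ((fun _ : Fin 1 => (.dg y : Frm F n)) i) w =
      ∑ j, y j * ‖w j‖ ^ 2 := by
    simp [val]
  rw [h]
  obtain ⟨j, hj⟩ := Function.ne_iff.1 hw
  refine Finset.sum_pos' (fun i _ => mul_nonneg (hy i).le (sq_nonneg _)) ⟨j, Finset.mem_univ _, ?_⟩
  exact mul_pos (hy j) (pow_pos (norm_pos_iff.2 hj) 2)

/-- JOB THB. Absolute convergence of the theta series. -/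
theorem th_summable (σ : Fin n → (F →ₐ[K] ℂ)) (hσ : Function.Bijective σ) {δ : F → ℂ} {S : Set F}
    (hS : S.Finite) (hδ : Adm2 δ S) (y : Fin n → ℝ) (hy : ∀ j, 0 < y j) :
    Summable fun z : F => ‖δ z * (starRingEnd ℂ) (NF z) *
      (Real.exp (-∑ j, y j * ‖σ j z‖ ^ 2) : ℂ)‖ := by
  have h := summable_gg σ hσ hS hδ n 1 (fun _ : Fin 1 => (.dg y : Frm F n)) (fun _ => hy)
    (THB_full σ y hy) (fun j => crc j) (fun _ => 1) (fun _ => one_pos)
  refine h.congr fun z => ?_
  rw [THB_term σ hσ δ y z]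

/-- JOB THB. Continuity of the theta function (`continuousOn_tsum` on the sets
`{y | ∀ j, e < y j}`, with the summable bound `th_summable` at the constant vector `e`; these open
sets cover the orthant). -/
theorem th_continuousOn (σ : Fin n → (F →ₐ[K] ℂ)) (hσ : Function.Bijective σ) {δ : F → ℂ}
    {S : Set F} (hS : S.Finite) (hδ : Adm2 δ S) :
    ContinuousOn (th σ δ) {y : Fin n → ℝ | ∀ j, 0 < y j} := by
  intro y₀ hy₀
  apply ContinuousAt.continuousWithinAt
  have hex : ∀ᶠ e in nhdsWithin (0 : ℝ) (Set.Ioi 0), (∀ j, e < y₀ j) ∧ 0 < e := by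
    refine Filter.Eventually.and (Filter.eventually_all.2 fun j => ?_) self_mem_nhdsWithin
    filter_upwards [Ioo_mem_nhdsGT (hy₀ j)] with e he
    exact he.2
  obtain ⟨e, he, he0⟩ := hex.exists
  have hopen : IsOpen {y : Fin n → ℝ | ∀ j, e < y j} := by
    rw [Set.ofPred_forall]
    exact isOpen_iInter_of_finite fun j => isOpen_lt continuous_const (continuous_apply j)
  have hcont : ContinuousOn (th σ δ) {y : Fin n → ℝ | ∀ j, e < y j} := by
    unfold th
    refine continuousOn_tsum (u := fun z : F => ‖δ z * (starRingEnd ℂ) (NF z) *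
      (Real.exp (-∑ j : Fin n, e * ‖σ j z‖ ^ 2) : ℂ)‖) (fun z => ?_)
      (th_summable σ hσ hS hδ (fun _ => e) (fun _ => he0)) (fun z y hy => ?_)
    · apply Continuous.continuousOn
      fun_prop
    · rw [norm_mul (δ z * (starRingEnd ℂ) (NF z)), norm_mul (δ z * (starRingEnd ℂ) (NF z))]
      refine mul_le_mul_of_nonneg_left ?_ (norm_nonneg _)
      rw [Complex.norm_real, Complex.norm_real, Real.norm_of_nonneg (Real.exp_pos _).le,
        Real.norm_of_nonneg (Real.exp_pos _).le]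
      refine Real.exp_le_exp.2 (neg_le_neg (Finset.sum_le_sum fun j _ => ?_))
      exact mul_le_mul_of_nonneg_right (hy j).le (sq_nonneg _)
  exact hcont.continuousAt (hopen.mem_nhds he)

end

end Pool.Agent.Lib.MP_1a91b9_nuT.S2A
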