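import Pool.Agent.Lib.MP_1a91b9_nuT.S2.H2

/-!
# S2 / H3: diagonal forms (DOC2 2.3.3)
-/

set_option autoImplicit false
set_option linter.unusedSectionVars false

namespace Pool.Agent.Lib.MP_1a91b9_nuT

variable [CD]

open NumberField MeasureTheory Set

noncomputable section

universe u

variable {F : Type u} [Field F] [NumberField F] [Algebra K F] {n : ℕ}

/-- The theta series. -/
def thetaF (σ : Fin n → (F →ₐ[K] ℂ)) (δ : F → ℂ) (y : Fin n → ℝ) : ℂ :=
  ∑' z : F, δ z * (starRingEnd ℂ) (NF z) * Real.exp (-∑ j, y j * ‖σ j z‖ ^ 2)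

variable (σ : Fin n → (F →ₐ[K] ℂ))

/-- DOC2 2.3.3. -/
theorem I2_dg (hσ : Function.Bijective σ) (δ : F → ℂ) (y : Fin n → Fin n → ℝ) :
    I2 σ δ (fun i => (Frm.dg (y i) : Frm F n)) =
      ((Matrix.of fun i j => y i j).det : ℝ) *
        ∫ t in Oc n, thetaF σ δ (fun j => ∑ i, t i * y i j) := by
  rw [I2_eq, ← integral_const_mul]
  refine integral_congr_ae (Filter.Eventually.of_forall fun t => ?_)
  simp only [TiF, thetaF, ← tsum_mul_left]
  refine tsum_congr fun z => ?_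
  have h1 : ∏ j, (starRingEnd ℂ) (vec σ z j) = (starRingEnd ℂ) (NF z) := by
    rw [nf_prod σ hσ, map_prod]
    rfl
  have h2 : Qf σ (fun i => (Frm.dg (y i) : Frm F n)) t (vec σ z) =
      ∑ j, (∑ i, t i * y i j) * ‖σ j z‖ ^ 2 := by
    simp only [Qf, val, vec, Finset.mul_sum, Finset.sum_mul]
    rw [Finset.sum_comm]
    exact Finset.sum_congr rfl fun j _ => Finset.sum_congr rfl fun i _ => by ring
  rw [dtF_dg, h1, h2]
  ring

end

end Pool.Agent.Lib.MP_1a91b9_nuT
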