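import Mathlib

/-!
# S2 / H4: products of absolutely convergent sums
-/

set_option autoImplicit false

namespace Pool.Agent.Lib.MP_1a91b9_nuT

/-- Splitting off the first coordinate. -/
def consE (ι : Type*) (n : ℕ) : ι × (Fin n → ι) ≃ (Fin (n + 1) → ι) where
  toFun p := Fin.cons p.1 p.2
  invFun x := (x 0, fun i => x i.succ)
  left_inv p := by simp
  right_inv x := by
    funext i
    refine Fin.cases ?_ (fun j => ?_) i
    · simp
    · simp

theorem tsum_pi_prod {ι : Type*} : ∀ {n : ℕ} (f : Fin n → ι → ℂ)
    (_ : ∀ i, Summable fun x => ‖f i x‖),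
    (Summable fun x : Fin n → ι => ‖∏ i, f i (x i)‖) ∧
      ∑' x : Fin n → ι, ∏ i, f i (x i) = ∏ i, ∑' x, f i x := by
  intro n
  induction n with
  | zero =>
    intro f _
    constructor
    · exact (hasSum_fintype _).summable
    · rw [tsum_fintype]
      simp
  | succ n ih =>
    intro f hf
    obtain ⟨h1, h2⟩ := ih (fun i => f i.succ) fun i => hf i.succ
    have key : ∀ p : ι × (Fin n → ι), ∏ i, f i (consE ι n p i) =
        f 0 p.1 * ∏ i, f i.succ (p.2 i) := by
      intro p
      rw [Fin.prod_univ_succ]
      simp [consE]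
    let g : (Fin n → ι) → ℂ := fun x => ∏ i, f i.succ (x i)
    have h1' : Summable fun x => ‖g x‖ := h1
    have h3 : Summable fun p : ι × (Fin n → ι) => ‖f 0 p.1 * g p.2‖ :=
      Summable.mul_norm (f := f 0) (g := g) (hf 0) h1'
    constructor
    · rw [← (consE ι n).summable_iff]
      refine h3.congr fun p => ?_
      rw [Function.comp_apply, key]
    · rw [Fin.prod_univ_succ, ← h2]
      have h4 := tsum_mul_tsum_of_summable_norm (f := f 0) (g := g) (hf 0) h1'
      refine Eq.trans ?_ h4.symm
      rw [← (consE ι n).tsum_eq]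
      exact tsum_congr key

end Pool.Agent.Lib.MP_1a91b9_nuT
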