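import Pool.Agent.Lib.MP_1a91b9_nuT.S2.H0
import Pool.Agent.Lib.MP_1a91b9_nuT.S2.H4
import Pool.Agent.Lib.MP_1a91b9_nuT.S2.H6

/-!
# S2 / H5: the lattice sum of a frame (DOC2 2.8)

`z ↦ (Tr(v_i z))_i` is a bijection `F → Kⁿ` with inverse `zz`; the support lies in
`((1/D) 𝓞 K)ⁿ`, whose elements are written uniquely as `ixK D c x + c λ`.
-/

set_option autoImplicit false
set_option linter.unusedSectionVars false

namespace Pool.Agent.Lib.MP_1a91b9_nuT

variable [CD]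

open NumberField MeasureTheory

noncomputable section

universe u

/-! ## Products of sums -/

/-- A finite sum outside. -/
theorem h5_fold {α X : Type*} [Fintype X] (n : ℕ) (u : (Fin n → X) → ℂ) (k : Fin n → X → α → ℂ)
    (hk : ∀ i x, Summable fun a => ‖k i x a‖) :
    ∑' p : Fin n → X × α, u (fun i => (p i).1) * ∏ i, k i (p i).1 (p i).2 =
      ∑ x : Fin n → X, u x * ∏ i, ∑' a, k i (x i) a := by
  classical
  let e : (Fin n → X) × (Fin n → α) ≃ (Fin n → X × α) := (Equiv.arrowProdEquivProdArrow (Fin n) (fun _ => X) (fun _ => α)).symm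
  rw [← e.tsum_eq]
  have he : ∀ q : (Fin n → X) × (Fin n → α),
      u (fun i => (e q i).1) * ∏ i, k i (e q i).1 (e q i).2 = u q.1 * ∏ i, k i (q.1 i) (q.2 i) :=
    fun q => rfl
  rw [tsum_congr he]
  have hs : ∀ x : Fin n → X, Summable fun a : Fin n → α => u x * ∏ i, k i (x i) (a i) := fun x =>
    ((tsum_pi_prod (fun i => k i (x i)) (fun i => hk i (x i))).1.of_norm).mul_left _
  have hs2 : Summable fun q : (Fin n → X) × (Fin n → α) => u q.1 * ∏ i, k i (q.1 i) (q.2 i) := by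
    apply Summable.of_norm
    rw [summable_prod_of_nonneg (fun _ => norm_nonneg _)]
    refine ⟨fun x => ?_, Summable.of_finite⟩
    have h := (tsum_pi_prod (fun i => k i (x i)) (fun i => hk i (x i))).1.mul_left ‖u x‖
    refine h.congr fun a => ?_
    rw [norm_mul]
  rw [hs2.tsum_prod' hs, tsum_fintype]
  refine Finset.sum_congr rfl fun x _ => ?_
  show ∑' a : Fin n → α, u x * ∏ i, k i (x i) (a i) = _
  rw [tsum_mul_left, (tsum_pi_prod (fun i => k i (x i)) (fun i => hk i (x i))).2]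

/-! ## Coordinates in `K` -/

theorem h5_lin_inj (p q p' q' : ℤ) (h : (p : K) + (q : K) * om = p' + q' * om) : p = p' ∧ q = q' := by
  have h1 := congrArg embK h
  simp only [map_add, map_mul, map_intCast, embK_om] at h1
  have h2 := congrArg Complex.im h1
  have h3 := congrArg Complex.re h1
  simp only [Complex.add_im, Complex.add_re, Complex.mul_im, Complex.mul_re, Complex.intCast_im,
    Complex.intCast_re, zero_mul, sub_zero, add_zero, zero_add] at h2 h3
  have h4 : (q : ℝ) = q' := mul_right_cancel₀ zt_ne h2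
  rw [h4] at h3
  have h5 : (p : ℝ) = p' := by linarith
  exact ⟨by exact_mod_cast h5, by exact_mod_cast h4⟩

theorem h5_coe (p q : ℤ) : (((p : 𝓞 K) + (q : 𝓞 K) * omO : 𝓞 K) : K) = (p : K) + (q : K) * om := by
  simp only [map_add, map_mul, map_intCast]

/-- The map `(x, λ) ↦ ixK x + c λ`. -/
def h5_io (D c : ℕ) (y : (Fin (c * D) × Fin (c * D)) × 𝓞 K) : K :=
  ixK D c y.1 + (c : K) * (y.2 : K)

theorem h5_io_mul (D c : ℕ) (hD : 0 < D) (x : Fin (c * D) × Fin (c * D)) (p q : ℤ) :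
    (D : K) * h5_io D c (x, (p : 𝓞 K) + (q : 𝓞 K) * omO) =
      (((x.1 : ℕ) : ℤ) + ((c * D : ℕ) : ℤ) * p : ℤ) + (((x.2 : ℕ) : ℤ) + ((c * D : ℕ) : ℤ) * q : ℤ) * om := by
  have hD' : (D : K) ≠ 0 := Nat.cast_ne_zero.2 hD.ne'
  show (D : K) * (ixK D c x + (c : K) * (((p : 𝓞 K) + (q : 𝓞 K) * omO : 𝓞 K) : K)) = _
  rw [h5_coe, ixK]
  push_cast
  field_simp
  ring

theorem h5_io_inj (D c : ℕ) (hD : 0 < D) (hc : 0 < c) : Function.Injective (h5_io D c) := by
  rintro ⟨x, l⟩ ⟨x', l'⟩ h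
  obtain ⟨p, q, rfl⟩ := kf_repr l
  obtain ⟨p', q', rfl⟩ := kf_repr l'
  have h1 := congrArg (fun y => (D : K) * y) h
  simp only [h5_io_mul D c hD] at h1
  obtain ⟨h2, h3⟩ := h5_lin_inj _ _ _ _ h1
  have hM : (0 : ℤ) < ((c * D : ℕ) : ℤ) := by exact_mod_cast Nat.mul_pos hc hD
  have key : ∀ (a b : Fin (c * D)) (r s : ℤ),
      ((a : ℕ) : ℤ) + ((c * D : ℕ) : ℤ) * r = ((b : ℕ) : ℤ) + ((c * D : ℕ) : ℤ) * s → a = b ∧ r = s := by
    intro a b r s hab
    have ha : ((a : ℕ) : ℤ) < ((c * D : ℕ) : ℤ) := by exact_mod_cast a.2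
    have hb : ((b : ℕ) : ℤ) < ((c * D : ℕ) : ℤ) := by exact_mod_cast b.2
    have h4 := congrArg (fun y => y % ((c * D : ℕ) : ℤ)) hab
    simp only [Int.add_mul_emod_self_left] at h4
    rw [Int.emod_eq_of_lt (Int.natCast_nonneg _) ha, Int.emod_eq_of_lt (Int.natCast_nonneg _) hb] at h4
    have h5 : a = b := Fin.ext (by exact_mod_cast h4)
    subst h5
    refine ⟨rfl, ?_⟩
    exact mul_left_cancel₀ hM.ne' (add_left_cancel hab)
  obtain ⟨e1, e2⟩ := key _ _ _ _ h2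
  obtain ⟨e3, e4⟩ := key _ _ _ _ h3
  rw [e2, e4, Prod.ext e1 e3]

theorem h5_io_surj (D c : ℕ) (hD : 0 < D) (hc : 0 < c) (a : K) (ha : ∃ b : 𝓞 K, (D : K) * a = b) :
    ∃ y, h5_io D c y = a := by
  obtain ⟨b, hb⟩ := ha
  obtain ⟨p, q, rfl⟩ := kf_repr b
  have hM : (0 : ℤ) < ((c * D : ℕ) : ℤ) := by exact_mod_cast Nat.mul_pos hc hD
  have key : ∀ r : ℤ, ∃ (x : Fin (c * D)) (s : ℤ), r = ((x : ℕ) : ℤ) + ((c * D : ℕ) : ℤ) * s := by
    intro r
    have h1 := Int.emod_nonneg r hM.ne'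
    have h2 := Int.emod_lt_of_pos r hM
    refine ⟨⟨(r % ((c * D : ℕ) : ℤ)).toNat, ?_⟩, r / ((c * D : ℕ) : ℤ), ?_⟩
    · have h3 : (((r % ((c * D : ℕ) : ℤ)).toNat : ℕ) : ℤ) < ((c * D : ℕ) : ℤ) := by
        rw [Int.toNat_of_nonneg h1]
        exact h2
      exact_mod_cast h3
    · show r = (((r % ((c * D : ℕ) : ℤ)).toNat : ℕ) : ℤ) + _
      rw [Int.toNat_of_nonneg h1]
      exact (Int.emod_add_mul_ediv r _).symm
  obtain ⟨x1, p1, h1⟩ := key p
  obtain ⟨x2, q1, h2⟩ := key q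
  refine ⟨((x1, x2), (p1 : 𝓞 K) + (q1 : 𝓞 K) * omO), ?_⟩
  have hD' : (D : K) ≠ 0 := Nat.cast_ne_zero.2 hD.ne'
  apply mul_left_cancel₀ hD'
  rw [h5_io_mul D c hD, hb, h5_coe, ← h1, ← h2]

theorem h5_emb (D c : ℕ) (x : Fin (c * D) × Fin (c * D)) (l : 𝓞 K) :
    embK (h5_io D c (x, l)) = ixC D c x + c * embK (l : K) := by
  show embK (ixK D c x + (c : K) * (l : K)) = _
  rw [map_add, map_mul, map_natCast, ixK, ixC, map_div₀, map_add, map_mul, map_natCast, map_natCast,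
    map_natCast, embK_om]

/-! ## The frame -/

variable {F : Type u} [Field F] [NumberField F] [Algebra K F]

/-- The map `z ↦ (Tr(v_i z))_i`. -/
def h5_phi {n : ℕ} (v : Fin n → F) : F →ₗ[K] (Fin n → K) :=
  LinearMap.pi fun i => (Algebra.trace K F).comp (LinearMap.mulLeft K (v i))


theorem h5_phi_inj {n : ℕ} (σ : Fin n → (F →ₐ[K] ℂ)) (hσ : Function.Bijective σ) (v : Fin n → F)
    (zz : (Fin n → K) → F) (hzz : ∀ a i, Algebra.trace K F (v i * zz a) = a i) :
    Function.Injective (h5_phi v) := by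
  have := nfa_finite (F := F)
  refine (LinearMap.injective_iff_surjective_of_finrank_eq_finrank ?_).2 ?_
  · rw [nf_card σ hσ, Module.finrank_fin_fun]
  · intro a
    exact ⟨zz a, funext fun i => hzz a i⟩

/-- The sum over the lattice as a sum over classes. -/
theorem frame_sum_gen {n : ℕ} (σ : Fin n → (F →ₐ[K] ℂ)) (hσ : Function.Bijective σ) (δ : F → ℂ)
    (v : Fin n → F) (D c : ℕ) (hD0 : 0 < D) (hc0 : 0 < c)
    (hD : ∀ i z, δ z ≠ 0 → ∃ a : 𝓞 K, (D : K) * Algebra.trace K F (v i * z) = a)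
    (hc : ∀ μ : F, (∀ i, ∃ a : 𝓞 K, Algebra.trace K F (v i * μ) = (c : K) * a) →
      ∀ z, δ (z + μ) = δ z)
    (zz : (Fin n → K) → F) (hzz : ∀ a i, Algebra.trace K F (v i * zz a) = a i)
    (κ : Fin n → ℂ → ℂ) (hκ : ∀ i w, Summable fun a : 𝓞 K => ‖κ i (w + c * embK (a : K))‖) :
    ∑' z : F, δ z * ∏ i, κ i (embK (Algebra.trace K F (v i * z))) =
      ∑ x : Fin n → Fin (c * D) × Fin (c * D), δ (zz fun i => ixK D c (x i)) *
        ∏ i, ∑' a : 𝓞 K, κ i (ixC D c (x i) + c * embK (a : K)) := by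
  have hinj := h5_phi_inj σ hσ v zz hzz
  have hr : ∀ a, h5_phi v (zz a) = a := fun a => funext fun i => hzz a i
  have hl : ∀ z, zz (h5_phi v z) = z := fun z => hinj (hr _)
  let e : (Fin n → K) ≃ F :=
    { toFun := zz
      invFun := h5_phi v
      left_inv := hr
      right_inv := hl }
  rw [← e.tsum_eq]
  let io : (Fin n → (Fin (c * D) × Fin (c * D)) × 𝓞 K) → (Fin n → K) := fun p i => h5_io D c (p i)
  have hio : Function.Injective io := by
    intro p p' h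
    funext i
    exact h5_io_inj D c hD0 hc0 (congrFun h i)
  have hsup : (Function.support fun a : Fin n → K =>
      δ (e a) * ∏ i, κ i (embK (Algebra.trace K F (v i * e a)))) ⊆ Set.range io := by
    intro a ha
    have h1 : δ (zz a) ≠ 0 := left_ne_zero_of_mul ha
    have h2 : ∀ i, ∃ y, h5_io D c y = a i := by
      intro i
      apply h5_io_surj D c hD0 hc0
      obtain ⟨b, hb⟩ := hD i (zz a) h1
      exact ⟨b, by rw [← hb, hzz]⟩
    choose y hy using h2
    exact ⟨y, funext hy⟩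
  rw [← hio.tsum_eq hsup]
  rw [← h5_fold n (fun x => δ (zz fun i => ixK D c (x i)))
    (fun i x (a : 𝓞 K) => κ i (ixC D c x + c * embK (a : K))) (fun i x => hκ i _)]
  refine tsum_congr fun p => ?_
  have h3 : δ (e (io p)) = δ (zz fun i => ixK D c (p i).1) := by
    have h4 : zz (io p) = (zz fun i => ixK D c (p i).1) + zz (fun i => (c : K) * ((p i).2 : K)) := by
      apply hinj
      rw [map_add, hr, hr, hr]
      funext i
      rfl
    show δ (zz (io p)) = _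
    rw [h4]
    refine hc _ (fun i => ⟨(p i).2, ?_⟩) _
    rw [hzz]
  rw [h3]
  congr 1
  refine Finset.prod_congr rfl fun i _ => ?_
  show κ i (embK (Algebra.trace K F (v i * zz (io p)))) = _
  rw [hzz]
  show κ i (embK (h5_io D c (p i))) = _
  rw [← h5_emb]

theorem frame_sum {n : ℕ} (σ : Fin n → (F →ₐ[K] ℂ)) (hσ : Function.Bijective σ)
    (δ : F → ℂ) (v : Fin n → F) (hv : LinearIndependent K v) (D c : ℕ) (hD : 0 < D) (hc : 0 < c)
    (h1 : ∀ i z, δ z ≠ 0 → ∃ a : 𝓞 K, (D : K) * Algebra.trace K F (v i * z) = a)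
    (h2 : ∀ μ : F, (∀ i, ∃ a : 𝓞 K, Algebra.trace K F (v i * μ) = (c : K) * a) →
      ∀ z, δ (z + μ) = δ z)
    (zz : (Fin n → K) → F) (hz : ∀ a i, Algebra.trace K F (v i * zz a) = a i)
    (t : Fin n → ℝ) (ht : ∀ i, 0 < t i) :
    ∑' z : F, δ z * ∏ i, kerG (t i) (embK (Algebra.trace K F (v i * z))) =
      ∑ x : Fin n → Fin (c * D) × Fin (c * D), δ (zz fun i => ixK D c (x i)) *
        ∏ i, gE c (t i) (ixC D c (x i)) :=
  frame_sum_gen σ hσ δ v D c hD hc h1 h2 zz hz (fun i => kerG (t i))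
    (fun i w => gE_summable c hc (t i) (ht i) w)

end

end Pool.Agent.Lib.MP_1a91b9_nuT
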