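import Pool.Agent.Lib.MP_1a91b9_nuT.S2.H5
import Pool.Agent.Lib.MP_1a91b9_nuT.S2.H3

/-!
# S2 / H7: frame evaluation (DOC2 2.8)
-/

set_option autoImplicit false
set_option linter.unusedSectionVars false

namespace Pool.Agent.Lib.MP_1a91b9_nuT

variable [CD]

open NumberField MeasureTheory Set

noncomputable section

universe u

variable {F : Type u} [Field F] [NumberField F] [Algebra K F] {n : ℕ}

/-- The integer of `K` attached to an index. -/
def ixO (D c : ℕ) (x : Fin (c * D) × Fin (c * D)) : 𝓞 K :=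
  (((x.1 : ℕ) : ℤ) : 𝓞 K) + (((x.2 : ℕ) : ℤ) : 𝓞 K) * omO

theorem ixC_eq (D c : ℕ) (x : Fin (c * D) × Fin (c * D)) :
    ixC D c x = embK (ixO D c x : K) / D := by
  rw [ixO, kf_emb, ixC]
  push_cast
  rfl

theorem gE_ix_int (c D : ℕ) (hc : 0 < c) (hD : 0 < D) (x : Fin (c * D) × Fin (c * D)) :
    IntegrableOn (fun t => gE c t (ixC D c x)) (Ioi (0 : ℝ)) ∧
      ∫ t in Ioi (0 : ℝ), gE c t (ixC D c x) = (c : ℂ)⁻¹ * E1 (ixC D c x / c) := by
  rw [ixC_eq]
  exact gE_int c D hc hD _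

/-- DOC2 2.8: frame evaluation. -/
theorem frame_eval (σ : Fin n → (F →ₐ[K] ℂ)) (hσ : Function.Bijective σ)
    (δ : F → ℂ) (v : Fin n → F) (hv : LinearIndependent K v) (D c : ℕ) (hD : 0 < D) (hc : 0 < c)
    (h1 : ∀ i z, δ z ≠ 0 → ∃ a : 𝓞 K, (D : K) * Algebra.trace K F (v i * z) = a)
    (h2 : ∀ μ : F, (∀ i, ∃ a : 𝓞 K, Algebra.trace K F (v i * μ) = (c : K) * a) →
      ∀ z, δ (z + μ) = δ z)
    (zz : (Fin n → K) → F) (hz : ∀ a i, Algebra.trace K F (v i * zz a) = a i) :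
    I2 σ δ (fun i => Frm.bd (v i)) = (Matrix.of fun i j => σ j (v i)).det *
      ∑ x : Fin n → Fin (c * D) × Fin (c * D), δ (zz fun i => ixK D c (x i)) *
        ∏ i, (c : ℂ)⁻¹ * E1 (ixC D c (x i) / c) := by
  have h3 : ∀ t ∈ Oc n, TiF σ δ (fun i => (Frm.bd (v i) : Frm F n)) t =
      (Matrix.of fun i j => σ j (v i)).det *
        ∑ x : Fin n → Fin (c * D) × Fin (c * D), δ (zz fun i => ixK D c (x i)) *
          ∏ i, gE c (t i) (ixC D c (x i)) := by
    intro t ht
    rw [← frame_sum σ hσ δ v hv D c hD hc h1 h2 zz hz t (mem_Oc.1 ht), TiF, ← tsum_mul_left]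
    refine tsum_congr fun z => ?_
    have h4 : (Real.exp (-Qf σ (fun i => (Frm.bd (v i) : Frm F n)) t (vec σ z)) : ℂ) =
        ∏ i, (Real.exp (-(t i * ‖embK (Algebra.trace K F (v i * z))‖ ^ 2)) : ℂ) := by
      rw [Qf, ← Finset.sum_neg_distrib, Real.exp_sum]
      push_cast
      refine Finset.prod_congr rfl fun i _ => ?_
      rw [val_bd σ hσ]
      push_cast
      rfl
    rw [dtF_bd, h4]
    simp only [kerG, Finset.prod_mul_distrib, lin_vec σ hσ]
    ring
  rw [I2_eq]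
  change ∫ t in Oc n, TiF σ δ (fun i => (Frm.bd (v i) : Frm F n)) t = _
  rw [setIntegral_congr_fun (measurableSet_Oc n) h3, integral_const_mul]
  congr 1
  have hr : (volume.restrict (Oc n)) =
      Measure.pi fun _ : Fin n => (volume.restrict (Ioi (0 : ℝ))) := by
    rw [volume_pi, Oc, Measure.restrict_pi_pi]
  rw [integral_finsetSum]
  · refine Finset.sum_congr rfl fun x _ => ?_
    rw [integral_const_mul]
    congr 1
    rw [hr, integral_fintype_prod_eq_prod (fun i t => gE c t (ixC D c (x i)))]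
    exact Finset.prod_congr rfl fun i _ => (gE_ix_int c D hc hD (x i)).2
  · intro x _
    refine Integrable.const_mul ?_ _
    rw [hr]
    exact Integrable.fintype_prod (f := fun i t => gE c t (ixC D c (x i)))
      fun i => (gE_ix_int c D hc hD (x i)).1

end

end Pool.Agent.Lib.MP_1a91b9_nuT
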