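import Mathlib

/-!
# S2, iterated differences of entire functions

`df b g x = g x - g (x - b)`, `dfl [b₁, …, b_k] g = df b_k (… (df b₁ g))`.
-/

set_option autoImplicit false

namespace Pool.Agent.Lib.MP_1a91b9_nuT.S2A

noncomputable section

variable {X : Type*} [NormedAddCommGroup X] [NormedSpace ℂ X]

/-- The difference in the direction `-b`. -/
def df {G : Type*} [AddGroup G] (b : G) (g : G → ℂ) (x : G) : ℂ := g x - g (x - b)

/-- The iterated differences. -/
def dfl {G : Type*} [AddGroup G] : List G → (G → ℂ) → G → ℂ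
  | [], g => g
  | b :: L, g => dfl L (df b g)

/-- Differences commute with additive maps. -/
theorem dfl_comp {G H : Type*} [AddGroup G] [AddGroup H] (f : G →+ H) (g : H → ℂ) (L : List G)
    (x : G) : dfl L (fun y => g (f y)) x = dfl (L.map f) g (f x) := by
  induction L generalizing g with
  | nil => rfl
  | cons b L ih =>
    have e : df b (fun y => g (f y)) = fun y => df (f b) g (f y) := by
      funext y
      simp [df]
    rw [dfl, e, ih, List.map_cons, dfl]

end

end Pool.Agent.Lib.MP_1a91b9_nuT.S2A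

/-!
# Job SCH1
-/

set_option autoImplicit false

namespace Pool.Agent.Lib.MP_1a91b9_nuT.S2A

noncomputable section

variable {X : Type*} [NormedAddCommGroup X] [NormedSpace ℂ X]

/-- JOB SCH1. The Schwarz lemma for differences.
Proof: on the ball of radius `ρ` the function `f` maps into the ball of radius `2 M + ε` about
`f 0` for each `ε > 0`; `Complex.dist_le_div_mul_dist_of_mapsTo_ball` at the point `-1` gives
`‖f (-1) - f 0‖ ≤ (2 M + ε) / ρ`; let `ε → 0` (`le_of_forall_pos_le_add`). -/
theorem schwarz {f : ℂ → ℂ} (hf : Differentiable ℂ f) {ρ M : ℝ} (hρ : 1 < ρ)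
    (hM : ∀ s : ℂ, ‖s‖ ≤ ρ → ‖f s‖ ≤ M) : ‖f 0 - f (-1)‖ ≤ 2 * M / ρ := by
  have hρ0 : 0 < ρ := by linarith
  have hmaps : Set.MapsTo f (Metric.ball 0 ρ) (Metric.closedBall (f 0) (2 * M)) := by
    intro z hz
    rw [Metric.mem_ball, dist_zero_right] at hz
    rw [Metric.mem_closedBall, dist_eq_norm]
    have h1 := hM z hz.le
    have h2 := hM 0 (by simpa using hρ0.le)
    have h3 := norm_sub_le (f z) (f 0)
    linarith
  have h := Complex.dist_le_div_mul_dist_of_mapsTo_ball (z := (-1 : ℂ)) hf.differentiableOn hmaps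
    (by rw [Metric.mem_ball, dist_zero_right, norm_neg, norm_one]; exact hρ)
  rw [dist_zero_right, norm_neg, norm_one, mul_one, dist_comm, dist_eq_norm] at h
  exact h

end

end Pool.Agent.Lib.MP_1a91b9_nuT.S2A

/-!
# Job SCH2
-/

set_option autoImplicit false

namespace Pool.Agent.Lib.MP_1a91b9_nuT.S2A

noncomputable section

variable {X : Type*} [NormedAddCommGroup X] [NormedSpace ℂ X]

/-- JOB SCH2. Iterated differences of an entire function `g`.  `C k` are sets of shifts.
Proof: induction on the list `L`, generalising `g`, `x`, `M`.  `L = []`: `c = 0`.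
`L = b :: L'`: `g₁ = df b g` is entire; for `c ∈ C L'.length` put
`f s = g (x + c + s • b)`, entire, bounded by `M` for `‖s‖ ≤ ρ` (`c + s • b ∈ C (L'.length+1)`), so
`‖g₁ (x + c)‖ = ‖f 0 - f (-1)‖ ≤ 2 M / ρ` by `schwarz`.  Apply the induction hypothesis. -/
theorem dfl_bound (C : ℕ → Set X) (A : Set X) {ρ : ℝ} (hρ : 1 < ρ) (h0 : (0 : X) ∈ C 0)
    (hC : ∀ (k : ℕ) (c b : X) (s : ℂ), c ∈ C k → b ∈ A → ‖s‖ ≤ ρ → c + s • b ∈ C (k + 1))
    (L : List X) (hL : ∀ b ∈ L, b ∈ A) {g : X → ℂ} (hg : Differentiable ℂ g) (x : X) (M : ℝ)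
    (hM : ∀ c ∈ C L.length, ‖g (x + c)‖ ≤ M) : ‖dfl L g x‖ ≤ (2 / ρ) ^ L.length * M := by
  induction L generalizing g M with
  | nil =>
    have h1 := hM 0 h0
    rw [add_zero] at h1
    simpa [dfl] using h1
  | cons b L ih =>
    have hb : b ∈ A := hL b List.mem_cons_self
    have hg1 : Differentiable ℂ (df b g) := by
      have e : df b g = fun y => g y - g (y - b) := by
        funext y
        rfl
      rw [e]
      exact hg.sub (hg.comp (differentiable_id.sub_const b))
    have h1 := ih (fun c hc => hL c (List.mem_cons_of_mem _ hc)) hg1 (2 / ρ * M) (by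
      intro c hc
      have hf : Differentiable ℂ (fun s : ℂ => g (x + c + s • b)) :=
        hg.comp ((differentiable_id.smul_const b).const_add (x + c))
      have h2 := schwarz hf hρ (M := M) (by
        intro s hs
        have h3 := hM (c + s • b) (hC _ c b s hc hb hs)
        rw [← add_assoc] at h3
        exact h3)
      have e0 : df b g (x + c) = g (x + c + (0 : ℂ) • b) - g (x + c + (-1 : ℂ) • b) := by
        rw [zero_smul, add_zero, neg_one_smul, ← sub_eq_add_neg]
        rfl
      rw [e0]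
      calc _ ≤ 2 * M / ρ := h2
        _ = 2 / ρ * M := by ring)
    rw [dfl, List.length_cons, pow_succ, mul_assoc]
    exact h1

end

end Pool.Agent.Lib.MP_1a91b9_nuT.S2A

/-!
# Job PARTS1
-/

set_option autoImplicit false

namespace Pool.Agent.Lib.MP_1a91b9_nuT.S2A

noncomputable section

variable {X : Type*} [NormedAddCommGroup X] [NormedSpace ℂ X]

/-- JOB PARTS1. Summation by parts.
Proof: `∑' δ z * G (z - a j) = ∑' δ (z + a j) * G z` (`Equiv.addRight`), the sum over `j` is
`∑' (∑ j, δ (z + a j)) * G z = 0` (`Summable.tsum_finsetSum`), so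
`r * ∑' δ G = ∑ j ∑' δ z (G z - G (z - a j))`. -/
theorem parts_one {F : Type*} [AddCommGroup F] {δ : F → ℂ} {r : ℕ} (hr : 0 < r) (a : Fin r → F)
    (hs : ∀ z, ∑ j, δ (z + a j) = 0) {G : F → ℂ} (hG : ∀ c, Summable fun z => δ z * G (z - c)) :
    ∑' z, δ z * G z = (r : ℂ)⁻¹ * ∑ j, ∑' z, δ z * df (a j) G z := by
  have hr0 : (r : ℂ) ≠ 0 := Nat.cast_ne_zero.mpr hr.ne'
  have hG0 : Summable fun z => δ z * G z := by
    have h := hG 0
    simpa only [sub_zero] using h
  have h1 : ∀ j, ∑' z, δ z * df (a j) G z = ∑' z, δ z * G z - ∑' z, δ z * G (z - a j) := by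
    intro j
    rw [← (hG0.tsum_sub (hG (a j)))]
    refine tsum_congr fun z => ?_
    unfold df
    ring
  have h2 : ∀ j, ∑' z, δ z * G (z - a j) = ∑' z, δ (z + a j) * G z := by
    intro j
    rw [← (Equiv.addRight (a j)).tsum_eq (fun z => δ z * G (z - a j))]
    refine tsum_congr fun z => ?_
    simp
  have h2s : ∀ j, Summable fun z => δ (z + a j) * G z := by
    intro j
    have h := (Equiv.addRight (a j)).summable_iff.mpr (hG (a j))
    refine h.congr fun z => ?_
    simp
  have h3 : ∑ j, ∑' z, δ (z + a j) * G z = 0 := by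
    rw [← Summable.tsum_finsetSum (fun j _ => h2s j)]
    have h4 : ∀ z, ∑ j, δ (z + a j) * G z = 0 := by
      intro z
      rw [← Finset.sum_mul, hs z, zero_mul]
    simp only [h4, tsum_zero]
  simp only [h1, h2]
  rw [Finset.sum_sub_distrib, h3, sub_zero, Finset.sum_const, Finset.card_univ, Fintype.card_fin,
    nsmul_eq_mul, inv_mul_cancel_left₀ hr0]

end

end Pool.Agent.Lib.MP_1a91b9_nuT.S2A

/-!
# Job PARTS2
-/

set_option autoImplicit false

namespace Pool.Agent.Lib.MP_1a91b9_nuT.S2A

noncomputable section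

variable {X : Type*} [NormedAddCommGroup X] [NormedSpace ℂ X]

/-- JOB PARTS2. Iterated summation by parts: induction on `k`, generalising `G`, with `parts_one`
(`df b G` again satisfies the summability hypothesis), triangle inequality:
`‖(r : ℂ)⁻¹ * ∑ j, x_j‖ ≤ max ‖x_j‖ ≤ M`. -/
theorem parts {F : Type*} [AddCommGroup F] {δ : F → ℂ} {r : ℕ} (hr : 0 < r) (a : Fin r → F)
    (hs : ∀ z, ∑ j, δ (z + a j) = 0) (k : ℕ) {G : F → ℂ}
    (hG : ∀ c, Summable fun z => δ z * G (z - c)) (M : ℝ)
    (hM : ∀ L : List F, L.length = k → (∀ b ∈ L, b ∈ Set.range a) →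
      ‖∑' z, δ z * dfl L G z‖ ≤ M) : ‖∑' z, δ z * G z‖ ≤ M := by
  induction k generalizing G with
  | zero => exact hM [] rfl (by simp)
  | succ k ih =>
    have hr0 : (0 : ℝ) < (r : ℝ) := Nat.cast_pos.mpr hr
    rw [parts_one hr a hs hG, norm_mul, norm_inv, Complex.norm_natCast]
    have h1 : ∀ j, ‖∑' z, δ z * df (a j) G z‖ ≤ M := by
      intro j
      refine ih ?_ ?_
      · intro c
        have h := (hG c).sub (hG (c + a j))
        refine h.congr fun z => ?_
        unfold df
        rw [sub_sub z c (a j)]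
        ring
      · intro L hL hLa
        refine hM (a j :: L) (by simp [hL]) ?_
        intro b hb
        rw [List.mem_cons] at hb
        rcases hb with hb | hb
        · exact ⟨j, hb.symm⟩
        · exact hLa b hb
    have h2 : ‖∑ j, ∑' z, δ z * df (a j) G z‖ ≤ r * M := by
      refine (norm_sum_le _ _).trans ((Finset.sum_le_sum fun j _ => h1 j).trans ?_)
      rw [Finset.sum_const, Finset.card_univ, Fintype.card_fin, nsmul_eq_mul]
    rw [inv_mul_le_iff₀ hr0]
    exact h2

end

end Pool.Agent.Lib.MP_1a91b9_nuT.S2A
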