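import Pool.Agent.Lib.MP_1a91b9_nuT.S2.Lat
import Pool.Agent.Lib.MP_1a91b9_nuT.S2.Sch

/-!
# S2, complexified Hermitian forms

`XX n = ℂⁿ × ℂⁿ` contains `ℂⁿ` by `iot w = (w, conj w)`.  A matrix `H` gives the bilinear form
`hm H x y = ∑ x_j H_jk y_k`; the form `P` is `w ↦ hm (mat σ P) (conj w) w`.
-/

set_option autoImplicit false

namespace Pool.Agent.Lib.MP_1a91b9_nuT.S2A

variable [CD]

open NumberField MeasureTheory Module

noncomputable section

universe u

variable {F : Type u} [Field F] [NumberField F] [Algebra K F] {n : ℕ}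

/-- The conjugate vector. -/
def cj (w : Fin n → ℂ) : Fin n → ℂ := fun j => (starRingEnd ℂ) (w j)

/-- The complexified space. -/
abbrev XX (n : ℕ) : Type := (Fin n → ℂ) × (Fin n → ℂ)

/-- The embedding of `ℂⁿ`. -/
def iot (w : Fin n → ℂ) : XX n := (w, cj w)

theorem norm_cj (w : Fin n → ℂ) : ‖cj w‖ = ‖w‖ := by
  have h : ∀ v : Fin n → ℂ, ‖cj v‖ ≤ ‖v‖ := fun v =>
    (pi_norm_le_iff_of_nonneg (norm_nonneg v)).2 fun i => by
      simpa [cj] using norm_le_pi_norm v i
  refine le_antisymm (h w) ?_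
  have e : cj (cj w) = w := by funext j; simp [cj]
  calc ‖w‖ = ‖cj (cj w)‖ := by rw [e]
    _ ≤ ‖cj w‖ := h _

/-- The additive embedding of `F` in the complexified space. -/
def iotF (σ : Fin n → (F →ₐ[K] ℂ)) : F →+ XX n where
  toFun z := iot (vec σ z)
  map_zero' := by
    refine Prod.ext ?_ ?_
    · funext j; simp [iot, vec]
    · funext j; simp [iot, vec, cj]
  map_add' x y := by
    refine Prod.ext ?_ ?_
    · funext j; simp [iot, vec]
    · funext j; simp [iot, vec, cj]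


/-- The bilinear form of a matrix. -/
def hm (H : Matrix (Fin n) (Fin n) ℂ) (x y : Fin n → ℂ) : ℂ := ∑ j, ∑ k, x j * H j k * y k

/-- The matrix of a form. -/
def mat (σ : Fin n → (F →ₐ[K] ℂ)) : Frm F n → Matrix (Fin n) (Fin n) ℂ
  | .dg y => Matrix.diagonal fun j => (y j : ℂ)
  | .bd v => Matrix.of fun j k => (starRingEnd ℂ) (σ j v) * σ k v

/-- The rows as linear functionals on the complexified space. -/
def rowL (σ : Fin n → (F →ₐ[K] ℂ)) (P : Frm F n) (j : Fin n) : XX n →L[ℂ] ℂ :=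
  ∑ k, (mat σ P k j) •
    ((ContinuousLinearMap.proj (R := ℂ) (φ := fun _ : Fin n => ℂ) k).comp
      (ContinuousLinearMap.snd ℂ (Fin n → ℂ) (Fin n → ℂ)))

/-- The coordinates as linear functionals on the complexified space. -/
def crd (k : Fin n) : XX n →L[ℂ] ℂ :=
  (ContinuousLinearMap.proj (R := ℂ) (φ := fun _ : Fin n => ℂ) k).comp
    (ContinuousLinearMap.fst ℂ (Fin n → ℂ) (Fin n → ℂ))

/-- The conjugate coordinates as linear functionals on the complexified space. -/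
def crc (k : Fin n) : XX n →L[ℂ] ℂ :=
  (ContinuousLinearMap.proj (R := ℂ) (φ := fun _ : Fin n => ℂ) k).comp
    (ContinuousLinearMap.snd ℂ (Fin n → ℂ) (Fin n → ℂ))

theorem crd_iot (k : Fin n) (w : Fin n → ℂ) : crd k (iot w) = w k := rfl

theorem crc_iot (k : Fin n) (w : Fin n → ℂ) : crc k (iot w) = (starRingEnd ℂ) (w k) := rfl

/-- The entire functions which we use: a product of linear functionals times the exponential of
minus a quadratic form. -/
def gg (H : Matrix (Fin n) (Fin n) ℂ) {q : ℕ} (L : Fin q → (XX n →L[ℂ] ℂ)) (x : XX n) : ℂ :=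
  (∏ i, L i x) * Complex.exp (-(hm H x.2 x.1))

end

end Pool.Agent.Lib.MP_1a91b9_nuT.S2A

/-!
# Job HM1
-/

set_option autoImplicit false

namespace Pool.Agent.Lib.MP_1a91b9_nuT.S2A

variable [CD]

open NumberField MeasureTheory Module

noncomputable section

universe u

variable {F : Type u} [Field F] [NumberField F] [Algebra K F] {n : ℕ}

/-- JOB HM1. -/
theorem hm_add_left (H : Matrix (Fin n) (Fin n) ℂ) (x x' y : Fin n → ℂ) :
    hm H (x + x') y = hm H x y + hm H x' y := by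
  simp only [hm, Pi.add_apply, add_mul, Finset.sum_add_distrib]

/-- JOB HM1. -/
theorem hm_add_right (H : Matrix (Fin n) (Fin n) ℂ) (x y y' : Fin n → ℂ) :
    hm H x (y + y') = hm H x y + hm H x y' := by
  simp only [hm, Pi.add_apply, mul_add, Finset.sum_add_distrib]

/-- JOB HM1. -/
theorem hm_smul_left (H : Matrix (Fin n) (Fin n) ℂ) (s : ℂ) (x y : Fin n → ℂ) :
    hm H (s • x) y = s * hm H x y := by
  simp only [hm, Pi.smul_apply, smul_eq_mul, Finset.mul_sum, mul_assoc]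

/-- JOB HM1. -/
theorem hm_smul_right (H : Matrix (Fin n) (Fin n) ℂ) (s : ℂ) (x y : Fin n → ℂ) :
    hm H x (s • y) = s * hm H x y := by
  simp only [hm, Pi.smul_apply, smul_eq_mul, Finset.mul_sum]
  refine Finset.sum_congr rfl fun j _ => Finset.sum_congr rfl fun k _ => ?_
  ring

/-- JOB HM1. -/
theorem norm_hm_le (H : Matrix (Fin n) (Fin n) ℂ) (x y : Fin n → ℂ) :
    ‖hm H x y‖ ≤ (∑ j, ∑ k, ‖H j k‖) * ‖x‖ * ‖y‖ := by
  unfold hm
  rw [Finset.sum_mul, Finset.sum_mul]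
  refine (norm_sum_le _ _).trans (Finset.sum_le_sum fun j _ => ?_)
  rw [Finset.sum_mul, Finset.sum_mul]
  refine (norm_sum_le _ _).trans (Finset.sum_le_sum fun k _ => ?_)
  rw [norm_mul, norm_mul]
  have h1 : ‖x j‖ ≤ ‖x‖ := norm_le_pi_norm x j
  have h2 : ‖y k‖ ≤ ‖y‖ := norm_le_pi_norm y k
  have h3 : ‖x j‖ * ‖H j k‖ ≤ ‖H j k‖ * ‖x‖ := by
    rw [mul_comm]
    exact mul_le_mul_of_nonneg_left h1 (norm_nonneg _)
  exact mul_le_mul h3 h2 (norm_nonneg _) (mul_nonneg (norm_nonneg _) (norm_nonneg _))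

/-- JOB HM1. The bilinear form of a sum of matrices with coefficients. -/
theorem hm_sum {ι : Type*} (s : Finset ι) (t : ι → ℝ) (H : ι → Matrix (Fin n) (Fin n) ℂ)
    (x y : Fin n → ℂ) :
    hm (∑ i ∈ s, (t i : ℂ) • H i) x y = ∑ i ∈ s, (t i : ℂ) * hm (H i) x y := by
  simp only [hm, Matrix.sum_apply, Matrix.smul_apply, smul_eq_mul, Finset.mul_sum, Finset.sum_mul]
  rw [Finset.sum_comm]
  rw [Finset.sum_comm]
  have h1 : ∀ j : Fin n, ∑ k, ∑ i ∈ s, x j * ((t i : ℂ) * H i j k) * y k =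
      ∑ i ∈ s, ∑ k, (t i : ℂ) * (x j * H i j k * y k) := by
    intro j
    rw [Finset.sum_comm]
    refine Finset.sum_congr rfl fun i _ => Finset.sum_congr rfl fun k _ => ?_
    ring
  rw [Finset.sum_congr rfl fun j _ => h1 j, Finset.sum_comm]

end

end Pool.Agent.Lib.MP_1a91b9_nuT.S2A

/-!
# Job HM2
-/

set_option autoImplicit false

namespace Pool.Agent.Lib.MP_1a91b9_nuT.S2A

variable [CD]

open NumberField MeasureTheory Module

noncomputable section

universe u

variable {F : Type u} [Field F] [NumberField F] [Algebra K F] {n : ℕ}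

/-- JOB HM2. -/
theorem hm_dg (σ : Fin n → (F →ₐ[K] ℂ)) (y : Fin n → ℝ) (x x' : Fin n → ℂ) :
    hm (mat σ (.dg y : Frm F n)) x x' = ∑ j, (y j : ℂ) * x j * x' j := by
  have hm1 : mat σ (.dg y : Frm F n) = Matrix.diagonal fun j => (y j : ℂ) := rfl
  rw [hm1]
  unfold hm
  refine Finset.sum_congr rfl fun j _ => ?_
  rw [Finset.sum_eq_single j]
  · rw [Matrix.diagonal_apply_eq]
    ring
  · intro k _ hk
    rw [Matrix.diagonal_apply_ne _ hk.symm]
    ring
  · intro h
    exact absurd (Finset.mem_univ j) h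

/-- JOB HM2. -/
theorem hm_bd (σ : Fin n → (F →ₐ[K] ℂ)) (v : F) (x x' : Fin n → ℂ) :
    hm (mat σ (.bd v)) x x' = (∑ j, (starRingEnd ℂ) (σ j v) * x j) * lin σ v x' := by
  have hm1 : ∀ j k, mat σ (.bd v) j k = (starRingEnd ℂ) (σ j v) * σ k v := fun _ _ => rfl
  unfold hm lin
  rw [Finset.sum_mul_sum]
  refine Finset.sum_congr rfl fun j _ => Finset.sum_congr rfl fun k _ => ?_
  rw [hm1]
  ring

/-- JOB HM2. `∑ conj(σ_j v) conj(w_j) = conj (lin σ v w)`. -/
theorem hm_val (σ : Fin n → (F →ₐ[K] ℂ)) (P : Frm F n) (w : Fin n → ℂ) :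
    hm (mat σ P) (cj w) w = (val σ P w : ℂ) := by
  cases P with
  | dg y =>
    rw [hm_dg]
    unfold val cj
    push_cast
    refine Finset.sum_congr rfl fun j _ => ?_
    rw [mul_assoc, Complex.conj_mul']
  | bd v =>
    rw [hm_bd]
    unfold val cj
    have h : ∑ j, (starRingEnd ℂ) (σ j v) * (starRingEnd ℂ) (w j) =
        (starRingEnd ℂ) (lin σ v w) := by
      unfold lin
      rw [map_sum]
      refine Finset.sum_congr rfl fun j _ => ?_
      rw [map_mul]
    rw [h, Complex.conj_mul']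
    push_cast
    rfl

end

end Pool.Agent.Lib.MP_1a91b9_nuT.S2A

/-!
# Job HM3
-/

set_option autoImplicit false

namespace Pool.Agent.Lib.MP_1a91b9_nuT.S2A

variable [CD]

open NumberField MeasureTheory Module

noncomputable section

universe u

variable {F : Type u} [Field F] [NumberField F] [Algebra K F] {n : ℕ}

/-- JOB HM3. -/
theorem rowL_iot (σ : Fin n → (F →ₐ[K] ℂ)) (P : Frm F n) (j : Fin n) (w : Fin n → ℂ) :
    rowL σ P j (iot w) = row σ P w j := by
  have h1 : rowL σ P j (iot w) = ∑ k, mat σ P k j * (starRingEnd ℂ) (w k) := by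
    unfold rowL
    simp [iot, cj]
  rw [h1]
  cases P with
  | dg y =>
    simp only [mat, row]
    rw [Finset.sum_eq_single j]
    · rw [Matrix.diagonal_apply_eq]
    · intro k _ hk
      rw [Matrix.diagonal_apply_ne _ hk, zero_mul]
    · intro h
      exact absurd (Finset.mem_univ j) h
  | bd v =>
    simp only [mat, row, lin, Matrix.of_apply, map_sum, map_mul]
    rw [Finset.sum_mul]
    apply Finset.sum_congr rfl
    intro k _
    ring


/-- JOB HM3. -/
theorem norm_crc_le (k : Fin n) : ‖(crc k : XX n →L[ℂ] ℂ)‖ ≤ 1 := by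
  refine ContinuousLinearMap.opNorm_le_bound _ zero_le_one fun x => ?_
  rw [one_mul]
  exact (norm_le_pi_norm x.2 k).trans (norm_snd_le x)


end

end Pool.Agent.Lib.MP_1a91b9_nuT.S2A

/-!
# Job HM4
-/

set_option autoImplicit false

namespace Pool.Agent.Lib.MP_1a91b9_nuT.S2A

variable [CD]

open NumberField MeasureTheory Module

noncomputable section

universe u

variable {F : Type u} [Field F] [NumberField F] [Algebra K F] {n : ℕ}

/-- JOB HM4. -/
theorem differentiable_gg (H : Matrix (Fin n) (Fin n) ℂ) {q : ℕ} (L : Fin q → (XX n →L[ℂ] ℂ)) :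
    Differentiable ℂ (gg H L) := by
  have h1 : ContDiff ℂ 1 (fun x : XX n => ∏ i, L i x) :=
    contDiff_prod fun i _ => (L i).contDiff
  have h2 : ContDiff ℂ 1 (fun x : XX n => hm H x.2 x.1) := by
    unfold hm
    refine ContDiff.sum fun j _ => ContDiff.sum fun k _ => ?_
    exact (((contDiff_apply ℂ ℂ j).comp contDiff_snd).mul contDiff_const).mul
      ((contDiff_apply ℂ ℂ k).comp contDiff_fst)
  have h3 : ContDiff ℂ 1 (fun x : XX n => (∏ i, L i x) * Complex.exp (-(hm H x.2 x.1))) :=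
    h1.mul h2.neg.cexp
  exact h3.differentiable one_ne_zero

/-- JOB HM4. The value of `gg` at a shifted point.
Proof: `hm H (conj w + c'') (w + c') = hm H (conj w) w + hm H c'' w + hm H (conj w) c' +
hm H c'' c'`, the last three have norm `≤ κ‖w‖, κ‖w‖, κ R` (`norm_cj`); so
`Re (-(…)) ≤ -E + 2 κ ‖w‖ + κ R`, `Complex.norm_exp`.  Each factor: `‖L i (iot w + c)‖ ≤ Λ (‖w‖ + R)`
(the norm of `XX n` is the maximum, `‖iot w‖ = ‖w‖`). -/
theorem gg_shift (H : Matrix (Fin n) (Fin n) ℂ) {q : ℕ} (L : Fin q → (XX n →L[ℂ] ℂ))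
    (Λ κ R E : ℝ) (hΛ : 0 ≤ Λ) (hL : ∀ i, ‖L i‖ ≤ Λ) (w : Fin n → ℂ) (c : XX n)
    (h1 : ∀ v, ‖hm H c.2 v‖ ≤ κ * ‖v‖) (h2 : ∀ v, ‖hm H v c.1‖ ≤ κ * ‖v‖)
    (h3 : ‖c.1‖ ≤ R) (h4 : ‖c.2‖ ≤ R) (hκ : 0 ≤ κ) (hE : E ≤ (hm H (cj w) w).re) :
    ‖gg H L (iot w + c)‖ ≤ (Λ * (‖w‖ + R)) ^ q * Real.exp (-E + 2 * κ * ‖w‖ + κ * R) := by
  have hw0 : 0 ≤ ‖w‖ := norm_nonneg w
  have hR : 0 ≤ R := (norm_nonneg _).trans h3
  have hnio : ‖iot w‖ = ‖w‖ := by
    rw [iot, Prod.norm_def]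
    simp only [norm_cj, max_self]
  have hprod : ‖∏ i, L i (iot w + c)‖ ≤ (Λ * (‖w‖ + R)) ^ q := by
    rw [norm_prod]
    have hi : ∀ i ∈ (Finset.univ : Finset (Fin q)), ‖L i (iot w + c)‖ ≤ Λ * (‖w‖ + R) := by
      intro i _
      have hc : ‖c‖ ≤ R := by
        rw [Prod.norm_def]
        exact max_le h3 h4
      calc ‖L i (iot w + c)‖ ≤ ‖L i‖ * ‖iot w + c‖ := (L i).le_opNorm _
        _ ≤ Λ * (‖w‖ + R) := by
            refine mul_le_mul (hL i) ?_ (norm_nonneg _) hΛ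
            refine (norm_add_le _ _).trans ?_
            rw [hnio]
            linarith
    calc ∏ i, ‖L i (iot w + c)‖ ≤ ∏ _i : Fin q, Λ * (‖w‖ + R) :=
          Finset.prod_le_prod (fun i _ => norm_nonneg _) hi
      _ = (Λ * (‖w‖ + R)) ^ q := by simp
  have hexp : (iot w + c).2 = cj w + c.2 ∧ (iot w + c).1 = w + c.1 := ⟨rfl, rfl⟩
  have hval : hm H (iot w + c).2 (iot w + c).1 =
      hm H (cj w) w + hm H c.2 w + hm H (cj w) c.1 + hm H c.2 c.1 := by
    rw [hexp.1, hexp.2, hm_add_left, hm_add_right, hm_add_right]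
    ring
  have hre : (-(hm H (iot w + c).2 (iot w + c).1)).re ≤ -E + 2 * κ * ‖w‖ + κ * R := by
    rw [hval]
    have e1 : -(hm H c.2 w).re ≤ κ * ‖w‖ := by
      have := (Complex.abs_re_le_norm (hm H c.2 w)).trans (h1 w)
      exact (neg_le_abs _).trans this
    have e2 : -(hm H (cj w) c.1).re ≤ κ * ‖w‖ := by
      have := (Complex.abs_re_le_norm (hm H (cj w) c.1)).trans (h2 (cj w))
      rw [norm_cj] at this
      exact (neg_le_abs _).trans this
    have e3 : -(hm H c.2 c.1).re ≤ κ * R := by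
      have := (Complex.abs_re_le_norm (hm H c.2 c.1)).trans (h1 c.1)
      have h5 : κ * ‖c.1‖ ≤ κ * R := mul_le_mul_of_nonneg_left h3 hκ
      exact (neg_le_abs _).trans (this.trans h5)
    simp only [Complex.neg_re, Complex.add_re]
    linarith
  rw [gg, norm_mul, Complex.norm_exp]
  exact mul_le_mul hprod (Real.exp_le_exp.2 hre) (Real.exp_pos _).le
    (pow_nonneg (mul_nonneg hΛ (add_nonneg hw0 hR)) _)

end

end Pool.Agent.Lib.MP_1a91b9_nuT.S2A
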